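import Pool.Agent.Kob.Defs

set_option autoImplicit false

namespace Pool.Agent.Kob

open Filter Topology

noncomputable def chi0 (s : ℝ) : ℝ := ∫ x in (0 : ℝ)..s, Real.smoothTransition x

lemma chi0_hasDerivAt (s : ℝ) : HasDerivAt chi0 (Real.smoothTransition s) s :=
  intervalIntegral.integral_hasDerivAt_right
    (Real.smoothTransition.continuous.intervalIntegrable _ _)
    (Real.smoothTransition.continuous.stronglyMeasurableAtFilter _ _)
    Real.smoothTransition.continuousAt

lemma deriv_chi0 : deriv chi0 = Real.smoothTransition :=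
  funext fun s => (chi0_hasDerivAt s).deriv

lemma chi0_smooth : ContDiff ℝ ((⊤ : ℕ∞) : WithTop ℕ∞) chi0 := by
  rw [contDiff_infty_iff_deriv]
  refine ⟨fun s => (chi0_hasDerivAt s).differentiableAt, ?_⟩
  rw [deriv_chi0]
  exact Real.smoothTransition.contDiff

lemma chi0_zero (s : ℝ) (hs : s ≤ 0) : chi0 s = 0 := by
  unfold chi0
  rw [intervalIntegral.integral_congr (g := fun _ => (0 : ℝ))]
  · simp
  · intro x hx
    rw [Set.uIcc_of_ge hs] at hx
    exact Real.smoothTransition.zero_of_nonpos hx.2

lemma chi0_lin (s : ℝ) (hs : 1 ≤ s) : chi0 s = s - (1 - chi0 1) := by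
  have h : chi0 s = chi0 1 + ∫ x in (1 : ℝ)..s, Real.smoothTransition x := by
    unfold chi0
    rw [intervalIntegral.integral_add_adjacent_intervals]
    · exact Real.smoothTransition.continuous.intervalIntegrable _ _
    · exact Real.smoothTransition.continuous.intervalIntegrable _ _
  rw [h, intervalIntegral.integral_congr (g := fun _ => (1 : ℝ))]
  · simp
    ring
  · intro x hx
    rw [Set.uIcc_of_le hs] at hx
    exact Real.smoothTransition.one_of_one_le hx.1

lemma chi0_one_nonneg : 0 ≤ chi0 1 := by
  unfold chi0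
  exact intervalIntegral.integral_nonneg (by norm_num) fun x _ => Real.smoothTransition.nonneg x

lemma chi0_one_le : chi0 1 ≤ 1 := by
  unfold chi0
  calc ∫ x in (0 : ℝ)..1, Real.smoothTransition x ≤ ∫ x in (0 : ℝ)..1, (1 : ℝ) := by
        apply intervalIntegral.integral_mono_on (by norm_num)
        · exact Real.smoothTransition.continuous.intervalIntegrable _ _
        · exact intervalIntegrable_const
        · intro x _; exact Real.smoothTransition.le_one x
    _ = 1 := by simp

/-- the standard choice -/
noncomputable def stdChi : Chi where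
  χ := chi0
  c := 1 - chi0 1
  smooth := chi0_smooth
  zero := chi0_zero
  lin := chi0_lin
  c_nonneg := by linarith [chi0_one_le]
  c_le := by linarith [chi0_one_nonneg]
  d1_nonneg := by
    intro s
    rw [deriv_chi0]
    exact Real.smoothTransition.nonneg s
  d1_le := by
    intro s
    rw [deriv_chi0]
    exact Real.smoothTransition.le_one s
  d2_nonneg := by
    intro s
    rw [deriv_chi0]
    exact Real.smoothTransition.monotone.deriv_nonneg

lemma st_bound (n : ℕ) : ∃ C : ℝ, ∀ s : ℝ, ‖iteratedDeriv n Real.smoothTransition s‖ ≤ C := by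
  have hc : Continuous (iteratedDeriv n Real.smoothTransition) :=
    (Real.smoothTransition.contDiff (n := (⊤ : ℕ∞))).continuous_iteratedDeriv n (by exact_mod_cast le_top)
  obtain ⟨C, hC⟩ := (isCompact_Icc (a := (-1 : ℝ)) (b := 2)).exists_bound_of_continuousOn
    hc.continuousOn
  refine ⟨max C 1, fun s => ?_⟩
  by_cases hs : s ∈ Set.Icc (-1 : ℝ) 2
  · exact (hC s hs).trans (le_max_left _ _)
  · have hconst : ∃ c : ℝ, |c| ≤ 1 ∧ Real.smoothTransition =ᶠ[𝓝 s] fun _ => c := by
      rw [Set.mem_Icc, not_and_or, not_le, not_le] at hs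
      rcases hs with hs | hs
      · refine ⟨0, by simp, ?_⟩
        filter_upwards [eventually_lt_nhds hs] with y hy
        exact Real.smoothTransition.zero_of_nonpos (by linarith)
      · refine ⟨1, by simp, ?_⟩
        filter_upwards [eventually_gt_nhds hs] with y hy
        exact Real.smoothTransition.one_of_one_le (by linarith)
    obtain ⟨c, hc1, hc2⟩ := hconst
    rw [hc2.iteratedDeriv_eq n]
    rw [iteratedDeriv_const]
    split_ifs
    · exact (by simpa using hc1 : ‖c‖ ≤ 1).trans (le_max_right _ _)
    · simp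

lemma chi_bound (n : ℕ) : ∃ C : ℝ, ∀ s : ℝ, ‖iteratedFDeriv ℝ (n + 1) stdChi.χ s‖ ≤ C := by
  obtain ⟨C, hC⟩ := st_bound n
  refine ⟨C, fun s => ?_⟩
  rw [norm_iteratedFDeriv_eq_norm_iteratedDeriv, iteratedDeriv_succ']
  have : deriv stdChi.χ = Real.smoothTransition := deriv_chi0
  rw [this]
  exact hC s

end Pool.Agent.Kob
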