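import Mathlib

set_option autoImplicit false

/-!
Common definitions for the non-complete smoothly bounded pseudoconvex domain in `ℂ⁴`.
-/

namespace Pool.Agent.Kob

open Filter Topology

/-- `ℂ⁴`. -/
abbrev E : Type := EuclideanSpace ℂ (Fin 4)

/-- Levi form of `f` at `x` in the direction `w` (times a positive constant). -/
noncomputable def Lev (f : E → ℝ) (x w : E) : ℝ :=
  fderiv ℝ (fderiv ℝ f) x w w + fderiv ℝ (fderiv ℝ f) x (Complex.I • w) (Complex.I • w)

/-- Squared length of the complex gradient in the direction `w` (times a positive constant). -/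
noncomputable def Dsq (f : E → ℝ) (x w : E) : ℝ :=
  (fderiv ℝ f x w) ^ 2 + (fderiv ℝ f x (Complex.I • w)) ^ 2

/-- index `t mod 3` as an element of `Fin 4` -/
def idx (t : ℕ) : Fin 4 := ⟨t % 3, by omega⟩

/-- The data produced by the analytic part of the construction: a smooth plurisubharmonic function
on `ℂ³` (viewed as a function on `ℂ⁴` independent of the last coordinate), negative on a sequence
of big discs around points converging to `0`. -/
structure Data where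
  u : E → ℝ
  C : ℝ
  R : ℝ
  W : ℕ → ℕ
  smooth : ContDiff ℝ ((⊤ : ℕ∞) : WithTop ℕ∞) u
  levi : ∀ x w, 0 ≤ Lev u x w
  bound : ∀ x, ‖fderiv ℝ u x‖ ≤ C
  zero : u 0 = 0
  indep : ∀ x y : E, x 0 = y 0 → x 1 = y 1 → x 2 = y 2 → u x = u y
  W_ge : ∀ t, 4 ≤ W t
  W_sum : Summable fun t => (1 / 2 : ℝ) ^ (W t)
  R_ge : ∀ t, (2 : ℝ) ^ (W t) * (1 / 2) ^ t ≤ R
  neg : ∀ (t : ℕ) (x : E), x (idx (t + 1)) = (1 / 2) ^ (t + 1) → x (idx (t + 2)) = (1 / 2) ^ (t + 2) →
    ‖x (idx t)‖ < (2 : ℝ) ^ (W t) * (1 / 2) ^ t → u x < 0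

/-- A smooth convex nondecreasing function, `0` on the negative half line and `s - c` for `s ≥ 1`. -/
structure Chi where
  χ : ℝ → ℝ
  c : ℝ
  smooth : ContDiff ℝ ((⊤ : ℕ∞) : WithTop ℕ∞) χ
  zero : ∀ s ≤ 0, χ s = 0
  lin : ∀ s, 1 ≤ s → χ s = s - c
  c_nonneg : 0 ≤ c
  c_le : c ≤ 1
  d1_nonneg : ∀ s, 0 ≤ deriv χ s
  d1_le : ∀ s, deriv χ s ≤ 1
  d2_nonneg : ∀ s, 0 ≤ deriv (deriv χ) s

end Pool.Agent.Kob
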