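import Pool.Agent.Kob.Levi
import Pool.Agent.Kob.ChiEx

set_option autoImplicit false

namespace Pool.Agent.Kob

open Filter Topology

/-- weight -/
noncomputable def wt (μ : ℝ) (x : E) : ℝ := 1 + μ * (‖x 0‖ + ‖x 1‖ + ‖x 2‖)

lemma wt_one_le {μ : ℝ} (hμ : 0 ≤ μ) (x : E) : 1 ≤ wt μ x := by
  unfold wt
  have : 0 ≤ μ * (‖x 0‖ + ‖x 1‖ + ‖x 2‖) := by positivity
  linarith

/-- growth class: all derivatives are bounded by `A (B μ)^n wt^d`. -/
structure Gr (μ A B : ℝ) (d : ℕ) (f : E → ℂ) : Prop where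
  smooth : ContDiff ℝ ((⊤ : ℕ∞) : WithTop ℕ∞) f
  bound : ∀ (n : ℕ) (x : E), ‖iteratedFDeriv ℝ n f x‖ ≤ A * (B * μ) ^ n * wt μ x ^ d

lemma nat_le_inf (n : ℕ) : (n : WithTop ℕ∞) ≤ ((⊤ : ℕ∞) : WithTop ℕ∞) :=
  WithTop.coe_le_coe.2 (le_top : (n : ℕ∞) ≤ ⊤)

section
variable {μ A B A' B' : ℝ} {d d' : ℕ} {f g : E → ℂ}

lemma Gr.mul (hμ : 0 ≤ μ) (hA : 0 ≤ A) (hB : 0 ≤ B) (hf : Gr μ A B d f)
    (hg : Gr μ A' B' d' g) : Gr μ (A * A') (B + B') (d + d') (fun x => f x * g x) := by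
  refine ⟨hf.smooth.mul hg.smooth, fun n x => ?_⟩
  have h := norm_iteratedFDeriv_mul_le hf.smooth hg.smooth x (n := n) (nat_le_inf n)
  refine h.trans ?_
  have hw : 0 ≤ wt μ x := zero_le_one.trans (wt_one_le hμ x)
  have e : A * A' * ((B + B') * μ) ^ n * wt μ x ^ (d + d')
      = ∑ i ∈ Finset.range (n + 1), (n.choose i : ℝ) * (A * (B * μ) ^ i * wt μ x ^ d)
        * (A' * (B' * μ) ^ (n - i) * wt μ x ^ d') := by
    rw [add_mul, add_pow, Finset.mul_sum, Finset.sum_mul]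
    apply Finset.sum_congr rfl
    intro i _
    rw [pow_add]
    ring
  rw [e]
  apply Finset.sum_le_sum
  intro i _
  apply mul_le_mul
  · exact mul_le_mul_of_nonneg_left (hf.bound i x) (by positivity)
  · exact hg.bound (n - i) x
  · positivity
  · positivity

lemma Gr.mono (hμ : 0 ≤ μ) (hf : Gr μ A B d f) (hA0 : 0 ≤ A) (hA : A ≤ A') (hB0 : 0 ≤ B)
    (hB : B ≤ B') (hd : d ≤ d') : Gr μ A' B' d' f := by
  refine ⟨hf.smooth, fun n x => (hf.bound n x).trans ?_⟩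
  have hw := wt_one_le hμ x
  have h1 : (B * μ) ^ n ≤ (B' * μ) ^ n :=
    pow_le_pow_left₀ (by positivity) (mul_le_mul_of_nonneg_right hB hμ) n
  have h2 : wt μ x ^ d ≤ wt μ x ^ d' := pow_le_pow_right₀ hw hd
  have h3 : A * (B * μ) ^ n ≤ A' * (B' * μ) ^ n :=
    mul_le_mul hA h1 (by positivity) (hA0.trans hA)
  exact mul_le_mul h3 h2 (by positivity)
    (mul_nonneg (hA0.trans hA) (by have := hB0.trans hB; positivity))

lemma Gr.add (hf : Gr μ A B d f) (hg : Gr μ A' B d g) :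
    Gr μ (A + A') B d (fun x => f x + g x) := by
  refine ⟨hf.smooth.add hg.smooth, fun n x => ?_⟩
  have e : iteratedFDeriv ℝ n (fun x => f x + g x) x
      = iteratedFDeriv ℝ n f x + iteratedFDeriv ℝ n g x :=
    iteratedFDeriv_add_apply (hf.smooth.contDiffAt.of_le (nat_le_inf n))
      (hg.smooth.contDiffAt.of_le (nat_le_inf n))
  rw [e]
  calc ‖iteratedFDeriv ℝ n f x + iteratedFDeriv ℝ n g x‖
      ≤ ‖iteratedFDeriv ℝ n f x‖ + ‖iteratedFDeriv ℝ n g x‖ := norm_add_le _ _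
    _ ≤ _ := by
        have h1 := hf.bound n x
        have h2 := hg.bound n x
        have e2 : (A + A') * (B * μ) ^ n * wt μ x ^ d
          = A * (B * μ) ^ n * wt μ x ^ d + A' * (B * μ) ^ n * wt μ x ^ d := by ring
        linarith

lemma Gr.const (hμ : 0 ≤ μ) (hB : 0 ≤ B) (c : ℂ) : Gr μ ‖c‖ B d (fun _ => c) := by
  refine ⟨contDiff_const, fun n x => ?_⟩
  have hw := wt_one_le hμ x
  rcases Nat.eq_zero_or_pos n with h | h
  · subst h
    simp only [pow_zero, mul_one, norm_iteratedFDeriv_zero]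
    exact le_mul_of_one_le_right (norm_nonneg c) (one_le_pow₀ hw)
  · rw [iteratedFDeriv_const_of_ne (by omega)]
    simp only [Pi.zero_apply, norm_zero]
    positivity

lemma norm_coord_le_wt {c : Fin 4} (hc : c ≠ 3) (hμ : 0 ≤ μ) (x : E) : μ * ‖x c‖ + 1 ≤ wt μ x := by
  unfold wt
  have h0 := mul_nonneg hμ (norm_nonneg (x 0))
  have h1 := mul_nonneg hμ (norm_nonneg (x 1))
  have h2 := mul_nonneg hμ (norm_nonneg (x 2))
  fin_cases c
  · show μ * ‖x 0‖ + 1 ≤ _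
    nlinarith
  · show μ * ‖x 1‖ + 1 ≤ _
    nlinarith
  · show μ * ‖x 2‖ + 1 ≤ _
    nlinarith
  · exact absurd rfl hc

lemma Gr.affine (hμ : 0 ≤ μ) {c : Fin 4} (hc : c ≠ 3) (α β : ℂ) :
    Gr μ (‖α‖ + ‖β‖) 1 1 (fun x => α * (μ : ℂ) * x c + β) := by
  have hsm : ContDiff ℝ ((⊤ : ℕ∞) : WithTop ℕ∞) (fun x : E => α * (μ : ℂ) * x c + β) := by
    fun_prop
  -- the derivative
  let L : E →L[ℝ] ℂ := (α * (μ : ℂ)) • ((EuclideanSpace.proj c : E →L[ℂ] ℂ).restrictScalars ℝ)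
  have hL : ∀ v, L v = α * (μ : ℂ) * v c := fun v => rfl
  have hLn : ‖L‖ ≤ ‖α‖ * μ := by
    refine ContinuousLinearMap.opNorm_le_bound _ (by positivity) fun v => ?_
    rw [hL, norm_mul, norm_mul, Complex.norm_real, Real.norm_of_nonneg hμ]
    exact mul_le_mul_of_nonneg_left (PiLp.norm_apply_le v c) (by positivity)
  have hd : fderiv ℝ (fun x : E => α * (μ : ℂ) * x c + β) = fun _ => L := by
    funext x
    have : HasFDerivAt (fun x : E => α * (μ : ℂ) * x c + β) L x := by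
      have := L.hasFDerivAt (x := x)
      exact this.add_const β
    exact this.fderiv
  refine ⟨hsm, fun n x => ?_⟩
  have hw := wt_one_le hμ x
  rw [one_mul, pow_one]
  rcases n with _ | n
  · rw [norm_iteratedFDeriv_zero, pow_zero, mul_one]
    have hx := norm_coord_le_wt hc hμ x
    calc ‖α * (μ : ℂ) * x c + β‖ ≤ ‖α * (μ : ℂ) * x c‖ + ‖β‖ := norm_add_le _ _
      _ = ‖α‖ * (μ * ‖x c‖) + ‖β‖ * 1 := by
          rw [norm_mul, norm_mul, Complex.norm_real, Real.norm_of_nonneg hμ]; ring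
      _ ≤ ‖α‖ * wt μ x + ‖β‖ * wt μ x := by
          apply add_le_add
          · exact mul_le_mul_of_nonneg_left (by linarith) (norm_nonneg _)
          · exact mul_le_mul_of_nonneg_left hw (norm_nonneg _)
      _ = _ := by ring
  · rw [← norm_iteratedFDeriv_fderiv, hd]
    rcases n with _ | n
    · rw [norm_iteratedFDeriv_zero, zero_add, pow_one]
      calc ‖L‖ ≤ ‖α‖ * μ := hLn
        _ ≤ (‖α‖ + ‖β‖) * μ * 1 := by
            have := norm_nonneg β
            nlinarith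
        _ ≤ _ := mul_le_mul_of_nonneg_left hw (by positivity)
    · rw [iteratedFDeriv_const_of_ne (by omega)]
      simp only [Pi.zero_apply, norm_zero]
      positivity

lemma Gr.pow (hμ : 0 ≤ μ) (hA : 0 ≤ A) (hB : 0 ≤ B) (hf : Gr μ A B d f) (k : ℕ) :
    Gr μ (A ^ k) (k * B) (k * d) (fun x => f x ^ k) := by
  induction k with
  | zero =>
    have := Gr.const (μ := μ) (B := 0) (d := 0) hμ le_rfl (1 : ℂ)
    simpa using this
  | succ k ih =>
    have h := ih.mul hμ (by positivity) (by positivity) hf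
    have e1 : (fun x => f x ^ (k + 1)) = fun x => f x ^ k * f x := by
      funext x; rw [pow_succ]
    rw [e1, pow_succ]
    have e2 : (((k + 1 : ℕ) : ℝ)) * B = k * B + B := by push_cast; ring
    rw [e2, add_mul k 1 d, one_mul]
    exact h

lemma Gr.prod (hμ : 0 ≤ μ) (hA : 0 ≤ A) (hB : 0 ≤ B) {F : ℕ → E → ℂ} (k : ℕ)
    (hf : ∀ i, Gr μ A B d (F i)) :
    Gr μ (A ^ k) (k * B) (k * d) (fun x => ∏ i ∈ Finset.range k, F i x) := by
  induction k with
  | zero =>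
    have := Gr.const (μ := μ) (B := 0) (d := 0) hμ le_rfl (1 : ℂ)
    simpa using this
  | succ k ih =>
    have h := ih.mul hμ (by positivity) (by positivity) (hf k)
    have e1 : (fun x => ∏ i ∈ Finset.range (k + 1), F i x)
        = fun x => (∏ i ∈ Finset.range k, F i x) * F k x := by
      funext x; rw [Finset.prod_range_succ]
    rw [e1, pow_succ]
    have e2 : (((k + 1 : ℕ) : ℝ)) * B = k * B + B := by push_cast; ring
    rw [e2, add_mul k 1 d, one_mul]
    exact h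

lemma Gr.conj (hf : Gr μ A B d f) : Gr μ A B d (fun x => (starRingEnd ℂ) (f x)) := by
  have e : (fun x => (starRingEnd ℂ) (f x)) = Complex.conjLIE.toLinearIsometry ∘ f := rfl
  refine ⟨?_, fun n x => ?_⟩
  · rw [e]
    exact Complex.conjLIE.toLinearIsometry.contDiff.comp hf.smooth
  · rw [e, LinearIsometry.norm_iteratedFDeriv_comp_left _ (hf.smooth.contDiffAt) (nat_le_inf n)]
    exact hf.bound n x

lemma Gr.normSq (hμ : 0 ≤ μ) (hA : 0 ≤ A) (hB : 0 ≤ B) (hf : Gr μ A B d f) :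
    Gr μ (A * A) (B + B) (d + d) (fun x => ((‖f x‖ ^ 2 : ℝ) : ℂ)) := by
  have h := hf.mul hμ hA hB hf.conj
  have e : (fun x => ((‖f x‖ ^ 2 : ℝ) : ℂ)) = fun x => f x * (starRingEnd ℂ) (f x) := by
    funext x
    rw [Complex.mul_conj, Complex.normSq_eq_norm_sq]
  rw [e]
  exact h

/-- real valued version -/
lemma Gr.real {T : E → ℝ} (h : Gr μ A B d (fun x => (T x : ℂ))) :
    ContDiff ℝ ((⊤ : ℕ∞) : WithTop ℕ∞) T ∧
    ∀ (n : ℕ) (x : E), ‖iteratedFDeriv ℝ n T x‖ ≤ A * (B * μ) ^ n * wt μ x ^ d := by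
  have e : T = Complex.reCLM ∘ (fun x => (T x : ℂ)) := by
    funext x; simp
  refine ⟨?_, fun n x => ?_⟩
  · rw [e]; exact Complex.reCLM.contDiff.comp h.smooth
  · have h1 := Complex.reCLM.norm_iteratedFDeriv_comp_left (h.smooth.contDiffAt (x := x))
      (nat_le_inf n)
    rw [← e] at h1
    refine (h1.trans ?_).trans (h.bound n x)
    rw [Complex.reCLM_norm, one_mul]

end

/-! ### Composition bounds -/

lemma iter_succ_congr {F : Type*} [NormedAddCommGroup F] [NormedSpace ℝ F] {f g : E → F}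
    (h : fderiv ℝ f = fderiv ℝ g) (n : ℕ) (x : E) :
    ‖iteratedFDeriv ℝ (n + 1) f x‖ = ‖iteratedFDeriv ℝ (n + 1) g x‖ := by
  rw [← norm_iteratedFDeriv_fderiv, ← norm_iteratedFDeriv_fderiv, h]

/-- bound for the derivatives of `log` at `1`. -/
noncomputable def clog (n : ℕ) : ℝ := ∑ i ∈ Finset.range (n + 1), ‖iteratedFDeriv ℝ i Real.log 1‖

lemma clog_ge {n i : ℕ} (h : i ≤ n) : ‖iteratedFDeriv ℝ i Real.log 1‖ ≤ clog n := by
  unfold clog
  exact Finset.single_le_sum (f := fun i => ‖iteratedFDeriv ℝ i Real.log 1‖)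
    (fun _ _ => norm_nonneg _) (Finset.mem_range.2 (by omega))

lemma clog_nonneg (n : ℕ) : 0 ≤ clog n := Finset.sum_nonneg fun _ _ => norm_nonneg _

lemma log_bound {T : E → ℝ} (hT : ContDiff ℝ ((⊤ : ℕ∞) : WithTop ℕ∞) T) (hpos : ∀ x, 0 < T x)
    {x : E} {G : ℝ} {n : ℕ}
    (hG : ∀ i, 1 ≤ i → i ≤ n + 1 → ‖iteratedFDeriv ℝ i T x‖ ≤ G ^ i * T x) :
    ‖iteratedFDeriv ℝ (n + 1) (fun y => Real.log (T y)) x‖
      ≤ (n + 1).factorial * clog (n + 1) * G ^ (n + 1) := by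
  set f : E → ℝ := fun y => (T x)⁻¹ • T y with hf
  have hTx := hpos x
  have hfs : ContDiff ℝ ((⊤ : ℕ∞) : WithTop ℕ∞) f := hT.const_smul _
  have hfd : fderiv ℝ (fun y => Real.log (T y)) = fderiv ℝ (Real.log ∘ f) := by
    have e : (fun y => Real.log (T y)) = fun y => (Real.log ∘ f) y + Real.log (T x) := by
      funext y
      simp only [hf, Function.comp, smul_eq_mul]
      rw [Real.log_mul (inv_ne_zero hTx.ne') (hpos y).ne', Real.log_inv]
      ring
    rw [e]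
    funext y
    exact fderiv_add_const _
  rw [iter_succ_congr hfd]
  have hmaps : Set.MapsTo f Set.univ (Set.Ioi (0 : ℝ)) := by
    intro y _
    simp only [hf, Set.mem_Ioi, smul_eq_mul]
    exact mul_pos (inv_pos.2 hTx) (hpos y)
  have hlog : ContDiffOn ℝ ((⊤ : ℕ∞) : WithTop ℕ∞) Real.log (Set.Ioi 0) := by
    intro s hs
    exact (Real.contDiffAt_log.2 (ne_of_gt hs)).contDiffWithinAt
  have hfx : f x = 1 := by
    simp only [hf, smul_eq_mul]
    exact inv_mul_cancel₀ hTx.ne'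
  have h := norm_iteratedFDerivWithin_comp_le (n := n + 1) (x := x) hlog
    (contDiffOn_univ.2 hfs) (nat_le_inf (n + 1)) isOpen_Ioi.uniqueDiffOn uniqueDiffOn_univ hmaps
    (Set.mem_univ x) (C := clog (n + 1)) (D := G) ?_ ?_
  · rw [iteratedFDerivWithin_univ] at h
    exact h
  · intro i hi
    rw [hfx, iteratedFDerivWithin_of_isOpen i isOpen_Ioi (by simp : (1 : ℝ) ∈ Set.Ioi (0 : ℝ))]
    exact clog_ge hi
  · intro i h1 hi
    rw [iteratedFDerivWithin_univ]
    have e : iteratedFDeriv ℝ i f x = (T x)⁻¹ • iteratedFDeriv ℝ i T x := by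
      have hf' : f = (T x)⁻¹ • T := rfl
      rw [hf']
      exact iteratedFDeriv_const_smul_apply (hT.contDiffAt.of_le (nat_le_inf i))
    rw [e, norm_smul, norm_inv, Real.norm_of_nonneg hTx.le, inv_mul_le_iff₀ hTx, mul_comm]
    exact hG i h1 hi

/-- bounds for the derivatives of `χ` of order `≥ 1`. -/
noncomputable def cchi1 (n : ℕ) : ℝ := max 0 (chi_bound n).choose

lemma cchi1_spec (n : ℕ) (s : ℝ) : ‖iteratedFDeriv ℝ (n + 1) stdChi.χ s‖ ≤ cchi1 n :=
  ((chi_bound n).choose_spec s).trans (le_max_right _ _)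

lemma cchi1_nonneg (n : ℕ) : 0 ≤ cchi1 n := le_max_left _ _

noncomputable def cchi (n : ℕ) : ℝ := ∑ i ∈ Finset.range (n + 1), cchi1 i

lemma cchi_nonneg (n : ℕ) : 0 ≤ cchi n := Finset.sum_nonneg fun _ _ => cchi1_nonneg _

lemma cchi_ge {n i : ℕ} (h : i ≤ n) : cchi1 i ≤ cchi n :=
  Finset.single_le_sum (f := cchi1) (fun _ _ => cchi1_nonneg _) (Finset.mem_range.2 (by omega))

lemma chi_comp_bound {H : E → ℝ} (hH : ContDiff ℝ ((⊤ : ℕ∞) : WithTop ℕ∞) H)
    {x : E} {G : ℝ} {n : ℕ}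
    (hG : ∀ i, 1 ≤ i → i ≤ n + 1 → ‖iteratedFDeriv ℝ i H x‖ ≤ G ^ i) :
    ‖iteratedFDeriv ℝ (n + 1) (fun y => stdChi.χ (H y)) x‖
      ≤ (n + 1).factorial * cchi n * G ^ (n + 1) := by
  set g : ℝ → ℝ := fun s => stdChi.χ s - stdChi.χ (H x) with hg
  have hgs : ContDiff ℝ ((⊤ : ℕ∞) : WithTop ℕ∞) g := stdChi.smooth.sub contDiff_const
  have hfd : fderiv ℝ (fun y => stdChi.χ (H y)) = fderiv ℝ (g ∘ H) := by
    have e : g ∘ H = fun y => stdChi.χ (H y) - stdChi.χ (H x) := rfl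
    rw [e]
    funext y
    exact (fderiv_sub_const _).symm
  rw [iter_succ_congr hfd]
  apply norm_iteratedFDeriv_comp_le hgs hH (nat_le_inf (n + 1)) x
  · intro i hi
    rcases i with _ | i
    · rw [norm_iteratedFDeriv_zero]
      simp only [hg, sub_self, norm_zero]
      exact cchi_nonneg n
    · have e : ‖iteratedFDeriv ℝ (i + 1) g (H x)‖ = ‖iteratedFDeriv ℝ (i + 1) stdChi.χ (H x)‖ := by
        rw [← norm_iteratedFDeriv_fderiv, ← norm_iteratedFDeriv_fderiv]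
        congr 2
        funext y
        exact fderiv_sub_const _
      rw [e]
      exact (cchi1_spec i _).trans (cchi_ge (by omega))
  · exact hG

end Pool.Agent.Kob
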