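import Pool.Agent.Kob.Levi

set_option autoImplicit false

namespace Pool.Agent.Kob

open Filter Topology

/-! ### Elementary facts on `χ` -/

section chi

variable (X : Chi)

lemma Chi.diff : Differentiable ℝ X.χ := X.smooth.differentiable (by simp)

lemma Chi.mono : Monotone X.χ := monotone_of_deriv_nonneg X.diff X.d1_nonneg

lemma Chi.diff2 : Differentiable ℝ (deriv X.χ) := by
  have h := (contDiff_infty_iff_deriv.1 X.smooth).2
  exact h.differentiable (by simp)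

lemma Chi.convex : ConvexOn ℝ Set.univ X.χ :=
  convexOn_univ_of_deriv2_nonneg X.diff X.diff2 (by intro x; exact X.d2_nonneg x)

lemma Chi.nonneg (s : ℝ) : 0 ≤ X.χ s := by
  have h := X.mono (min_le_left s 0)
  rwa [X.zero _ (min_le_right s 0)] at h

lemma Chi.ge (s : ℝ) : s - 1 ≤ X.χ s := by
  rcases le_total 1 s with h | h
  · rw [X.lin s h]; linarith [X.c_le]
  · linarith [X.nonneg s]

end chi

/-- squared norm of the first three coordinates -/
noncomputable def wsq (x : E) : ℝ := ‖x 0‖ ^ 2 + ‖x 1‖ ^ 2 + ‖x 2‖ ^ 2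

lemma wsq_nonneg (x : E) : 0 ≤ wsq x := by unfold wsq; positivity

lemma norm_sq_eq (x : E) : ‖x‖ ^ 2 = wsq x + ‖x 3‖ ^ 2 := by
  rw [EuclideanSpace.norm_sq_eq, Fin.sum_univ_four]
  rfl

/-- projection killing the last coordinate -/
noncomputable def pr (x : E) : E := !₂[x 0, x 1, x 2, 0]

@[simp] lemma pr_0 (x : E) : pr x 0 = x 0 := rfl
@[simp] lemma pr_1 (x : E) : pr x 1 = x 1 := rfl
@[simp] lemma pr_2 (x : E) : pr x 2 = x 2 := rfl
@[simp] lemma pr_3 (x : E) : pr x 3 = 0 := rfl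

lemma norm_pr (x : E) : ‖pr x‖ = Real.sqrt (wsq x) := by
  rw [← Real.sqrt_sq (norm_nonneg (pr x)), norm_sq_eq]
  congr 1
  unfold wsq
  simp

lemma pr_smul (s : ℝ) (x : E) : pr (s • x) = s • pr x := by
  ext i
  fin_cases i <;> simp [pr]

section dom

variable (D : Data) (X : Chi)

lemma Data.C_nonneg : 0 ≤ D.C := (norm_nonneg _).trans (D.bound 0)

lemma Data.R_pos : 0 < D.R := by
  have := D.R_ge 0
  have h2 : (0 : ℝ) < 2 ^ (D.W 0) * (1 / 2) ^ 0 := by positivity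
  linarith

/-- the radius of the domain -/
noncomputable def Data.R' : ℝ := D.R + 1

lemma Data.R'_pos : 0 < D.R' := by unfold Data.R'; linarith [D.R_pos]

/-- the small parameter -/
noncomputable def Data.δ : ℝ := 1 / (10 * (D.C + 1) * D.R')

lemma Data.δ_pos : 0 < D.δ := by
  have h1 := D.C_nonneg
  have h2 := D.R'_pos
  unfold Data.δ
  positivity

lemma Data.δ_small : D.δ * D.C * D.R' ≤ 1 / 10 := by
  have h1 := D.C_nonneg
  have h2 := D.R'_pos
  unfold Data.δ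
  rw [div_mul_eq_mul_div, div_mul_eq_mul_div, div_le_div_iff₀ (by positivity) (by norm_num)]
  nlinarith

lemma Data.lip (x y : E) : |D.u x - D.u y| ≤ D.C * ‖x - y‖ := by
  have hd : Differentiable ℝ D.u := D.smooth.differentiable (by simp)
  have := (convex_univ (𝕜 := ℝ) (E := E)).norm_image_sub_le_of_norm_fderiv_le (f := D.u) (C := D.C)
    (fun z _ => hd z) (fun z _ => D.bound z) (Set.mem_univ y) (Set.mem_univ x)
  simpa using this

lemma Data.u_pr (x : E) : D.u (pr x) = D.u x := D.indep _ _ rfl rfl rfl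

lemma Data.u_abs (x : E) : |D.u x| ≤ D.C * Real.sqrt (wsq x) := by
  have h := D.lip (pr x) 0
  rw [D.zero, sub_zero, sub_zero, D.u_pr, norm_pr] at h
  exact h

/-- the defining function -/
noncomputable def rho (x : E) : ℝ :=
  ‖x 3‖ ^ 2 + D.δ * D.u x + X.χ (wsq x * (1 / D.R' ^ 2) - 1) - 1

lemma rho_scale (x : E) {s : ℝ} (h0 : 0 ≤ s) (h1 : s ≤ 1) :
    rho D X (s • x) ≤ s * rho D X x + (1 - s) * (2 * (D.δ * D.C * Real.sqrt (wsq x)) - 1) := by
  have hs2 : s ^ 2 ≤ s := by nlinarith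
  have e3 : ‖(s • x) 3‖ ^ 2 ≤ s * ‖x 3‖ ^ 2 := by
    have : (s • x) 3 = s • x 3 := rfl
    rw [this, norm_smul, mul_pow, Real.norm_eq_abs, sq_abs]
    exact mul_le_mul_of_nonneg_right hs2 (by positivity)
  have hw : wsq (s • x) = s ^ 2 * wsq x := by
    unfold wsq
    have : ∀ i, (s • x) i = s • x i := fun i => rfl
    simp only [this, norm_smul, mul_pow, Real.norm_eq_abs, sq_abs]
    ring
  have hu1 : |D.u (s • x) - D.u x| ≤ D.C * ((1 - s) * Real.sqrt (wsq x)) := by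
    have h := D.lip (pr (s • x)) (pr x)
    rw [D.u_pr, D.u_pr] at h
    have e : pr (s • x) - pr x = (s - 1) • pr x := by
      rw [pr_smul, sub_smul, one_smul]
    rw [e, norm_smul, norm_pr, Real.norm_eq_abs, abs_of_nonpos (by linarith : s - 1 ≤ 0)] at h
    convert h using 2
    ring
  have hu2 := D.u_abs x
  have hδ := D.δ_pos
  have hu : D.δ * D.u (s • x) ≤ s * (D.δ * D.u x) + (1 - s) * (2 * (D.δ * D.C * Real.sqrt (wsq x))) := by
    have a1 := (abs_le.1 hu1).2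
    have a2 := (abs_le.1 hu2).2
    have a3 : D.u (s • x) ≤ s * D.u x + (1 - s) * (2 * (D.C * Real.sqrt (wsq x))) := by
      have : (1 - s) * D.u x ≤ (1 - s) * (D.C * Real.sqrt (wsq x)) :=
        mul_le_mul_of_nonneg_left a2 (by linarith)
      nlinarith
    have := mul_le_mul_of_nonneg_left a3 hδ.le
    nlinarith
  have hρ : 0 ≤ wsq x * (1 / D.R' ^ 2) := mul_nonneg (wsq_nonneg x) (by positivity)
  have hχ : X.χ (wsq (s • x) * (1 / D.R' ^ 2) - 1) ≤ s * X.χ (wsq x * (1 / D.R' ^ 2) - 1) := by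
    have m1 : X.χ (wsq (s • x) * (1 / D.R' ^ 2) - 1)
        ≤ X.χ (s * (wsq x * (1 / D.R' ^ 2) - 1) + (1 - s) * (-1)) := by
      apply X.mono
      rw [hw]
      nlinarith
    have m2 := X.convex.2 (Set.mem_univ (wsq x * (1 / D.R' ^ 2) - 1)) (Set.mem_univ (-1 : ℝ))
      h0 (by linarith : 0 ≤ 1 - s) (by ring)
    simp only [smul_eq_mul] at m2
    rw [X.zero (-1) (by norm_num), mul_zero, add_zero] at m2
    exact m1.trans m2
  unfold rho
  nlinarith

/-- bounds inside the domain -/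
lemma rho_bound {x : E} (hx : rho D X x ≤ 0) :
    Real.sqrt (wsq x) < 2 * D.R' ∧ ‖x 3‖ ^ 2 ≤ 4 := by
  set σ := Real.sqrt (wsq x) with hσ
  have hσ0 : 0 ≤ σ := Real.sqrt_nonneg _
  have hσ2 : wsq x = σ ^ 2 := (Real.sq_sqrt (wsq_nonneg x)).symm
  have hR := D.R'_pos
  have hu := (abs_le.1 (D.u_abs x)).1
  have hδ := D.δ_pos
  have hχ := X.ge (wsq x * (1 / D.R' ^ 2) - 1)
  set τ := σ / D.R' with hτ
  have hτ0 : 0 ≤ τ := div_nonneg hσ0 hR.le
  have hστ : σ = τ * D.R' := by rw [hτ]; field_simp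
  have e1 : wsq x * (1 / D.R' ^ 2) = τ ^ 2 := by
    rw [hσ2, hτ]; field_simp
  rw [e1] at hχ
  have h2 : -(D.δ * D.C * D.R' * τ) ≤ D.δ * D.u x := by
    have := mul_le_mul_of_nonneg_left hu hδ.le
    rw [← hσ, hστ] at this
    nlinarith
  have h3 : D.δ * D.C * D.R' * τ ≤ 1 / 10 * τ := mul_le_mul_of_nonneg_right D.δ_small hτ0
  unfold rho at hx
  rw [e1] at hx
  have h4 : ‖x 3‖ ^ 2 + τ ^ 2 - 3 - τ / 10 ≤ 0 := by linarith
  have h5 : τ < 2 := by
    by_contra hc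
    push Not at hc
    nlinarith [sq_nonneg ‖x 3‖]
  constructor
  · rw [hστ]; nlinarith
  · nlinarith

lemma rho_slope {x : E} (hx : rho D X x ≤ 0) :
    2 * (D.δ * D.C * Real.sqrt (wsq x)) - 1 ≤ -(1 / 2) := by
  have h1 := (rho_bound D X hx).1
  have h2 : D.δ * D.C * Real.sqrt (wsq x) ≤ D.δ * D.C * (2 * D.R') :=
    mul_le_mul_of_nonneg_left h1.le (mul_nonneg D.δ_pos.le D.C_nonneg)
  have h3 := D.δ_small
  nlinarith

lemma rho_smooth : ContDiff ℝ ((⊤ : ℕ∞) : WithTop ℕ∞) (rho D X) := by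
  unfold rho wsq
  have hp : ∀ i : Fin 4, ContDiff ℝ ((⊤ : ℕ∞) : WithTop ℕ∞) (fun x : E => ‖x i‖ ^ 2) := by
    intro i
    apply ContDiff.norm_sq ℝ
    fun_prop
  have h1 := hp 0
  have h2 := hp 1
  have h3 := hp 2
  have h4 := hp 3
  have hχ : ContDiff ℝ ((⊤ : ℕ∞) : WithTop ℕ∞)
      (fun x : E => X.χ ((‖x 0‖ ^ 2 + ‖x 1‖ ^ 2 + ‖x 2‖ ^ 2) * (1 / D.R' ^ 2) - 1)) := by
    apply X.smooth.comp
    exact ((((h1.add h2).add h3).mul contDiff_const).sub contDiff_const)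
  exact ((h4.add (contDiff_const.mul D.smooth)).add hχ).sub contDiff_const

lemma coord_contDiff (i : Fin 4) : ContDiff ℂ ((⊤ : ℕ∞) : WithTop ℕ∞) (fun x : E => x i) := by
  fun_prop

lemma rho_levi (x w : E) : 0 ≤ Lev (rho D X) x w := by
  have hp : ∀ i : Fin 4, LogPsh (fun x : E => ‖x i‖ ^ 2) := fun i =>
    LogPsh.normSq (coord_contDiff i)
  have c2 : ∀ i : Fin 4, ContDiff ℝ 2 (fun x : E => ‖x i‖ ^ 2) := fun i =>
    (hp i).smooth.of_le two_le_inf
  have hu2 : ContDiff ℝ 2 D.u := D.smooth.of_le two_le_inf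
  have hw : LogPsh wsq := ((hp 0).add (hp 1)).add (hp 2)
  have hw2 : ContDiff ℝ 2 wsq := hw.smooth.of_le two_le_inf
  have hH2 : ContDiff ℝ 2 (fun x : E => wsq x * (1 / D.R' ^ 2) - 1) :=
    (hw2.mul contDiff_const).sub contDiff_const
  have hHL : 0 ≤ Lev (fun x : E => wsq x * (1 / D.R' ^ 2) - 1) x w := by
    rw [Lev_sub_const (f := fun x : E => wsq x * (1 / D.R' ^ 2)) w 1
      (hw2.mul contDiff_const).contDiffAt]
    have : (fun x : E => wsq x * (1 / D.R' ^ 2)) = fun x => (1 / D.R' ^ 2) * wsq x := by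
      funext y; ring
    rw [this, Lev_const_mul w _ hw2.contDiffAt]
    exact mul_nonneg (by positivity) (hw.lev x w)
  have hχL := Lev_chi_nonneg X hH2.contDiffAt w hHL
  have hχ2 : ContDiff ℝ 2 (fun x : E => X.χ (wsq x * (1 / D.R' ^ 2) - 1)) :=
    (X.smooth.of_le two_le_inf).comp hH2
  have hδu2 : ContDiff ℝ 2 (fun x : E => D.δ * D.u x) := contDiff_const.mul hu2
  have e : rho D X = fun x => ((‖x 3‖ ^ 2 + D.δ * D.u x) + X.χ (wsq x * (1 / D.R' ^ 2) - 1)) - 1 := rfl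
  rw [e, Lev_sub_const (f := fun x : E => (‖x 3‖ ^ 2 + D.δ * D.u x) + X.χ (wsq x * (1 / D.R' ^ 2) - 1))
    w 1 ((((c2 3).add hδu2).add hχ2).contDiffAt),
    Lev_add (f := fun x : E => ‖x 3‖ ^ 2 + D.δ * D.u x) w ((c2 3).add hδu2).contDiffAt
      hχ2.contDiffAt,
    Lev_add (f := fun x : E => ‖x 3‖ ^ 2) w (c2 3).contDiffAt hδu2.contDiffAt,
    Lev_const_mul w _ hu2.contDiffAt]
  have h1 := (hp 3).lev x w
  have h2 := mul_nonneg D.δ_pos.le (D.levi x w)
  linarith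

/-- the domain -/
def Om : Set E := {x | rho D X x < 0}

lemma Om_open : IsOpen (Om D X) :=
  isOpen_lt (rho_smooth D X).continuous continuous_const

lemma Om_norm {x : E} (hx : x ∈ Om D X) : ‖x‖ < 2 * D.R' + 2 := by
  obtain ⟨h1, h2⟩ := rho_bound D X (le_of_lt hx)
  have hR := D.R'_pos
  have h3 : ‖x‖ ^ 2 < (2 * D.R' + 2) ^ 2 := by
    rw [norm_sq_eq]
    have : wsq x < (2 * D.R') ^ 2 := by
      have := Real.lt_sq_of_sqrt_lt h1
      exact this
    nlinarith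
  exact lt_of_pow_lt_pow_left₀ 2 (by positivity) h3

lemma Om_bounded : Bornology.IsBounded (Om D X) := by
  rw [Metric.isBounded_iff_subset_ball (0 : E)]
  exact ⟨2 * D.R' + 2, fun x hx => by simpa using Om_norm D X hx⟩

lemma zero_mem_Om : (0 : E) ∈ Om D X := by
  show rho D X 0 < 0
  unfold rho wsq
  have h : X.χ ((‖(0 : E) 0‖ ^ 2 + ‖(0 : E) 1‖ ^ 2 + ‖(0 : E) 2‖ ^ 2) * (1 / D.R' ^ 2) - 1) = 0 := by
    apply X.zero
    simp
  rw [h, D.zero]
  simp

lemma Om_star : StarConvex ℝ (0 : E) (Om D X) := by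
  intro y hy a b ha hb hab
  have hb1 : b ≤ 1 := by linarith
  rw [smul_zero, zero_add]
  have h1 := rho_scale D X y hb hb1
  have h2 := rho_slope D X (le_of_lt hy)
  have h3 : rho D X y < 0 := hy
  show rho D X (b • y) < 0
  rcases eq_or_lt_of_le hb with h | h
  · subst h
    nlinarith
  · have : b * rho D X y < 0 := mul_neg_of_pos_of_neg h h3
    nlinarith

lemma Om_connected : IsConnected (Om D X) :=
  ((Om_star D X).isPathConnected (zero_mem_Om D X)).isConnected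

lemma rho_grad {p : E} (hp : rho D X p = 0) : fderiv ℝ (rho D X) p ≠ 0 := by
  intro h0
  have hd : HasFDerivAt (rho D X) (fderiv ℝ (rho D X) p) p :=
    (((rho_smooth D X).differentiable (by simp)) p).hasFDerivAt
  rw [h0] at hd
  -- the path s ↦ (1 - s) • p
  have hpath : HasDerivAt (fun s : ℝ => (1 - s) • p) ((-1 : ℝ) • p) 0 := by
    have : HasDerivAt (fun s : ℝ => 1 - s) (-1) 0 := by
      simpa using (hasDerivAt_id (0 : ℝ)).const_sub 1
    exact this.smul_const p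
  have hd' : HasFDerivAt (rho D X) (0 : E →L[ℝ] ℝ) ((fun s : ℝ => (1 - s) • p) 0) := by
    simpa using hd
  have hcomp : HasDerivAt (fun s : ℝ => rho D X ((1 - s) • p)) 0 0 := by
    have := hd'.comp_hasDerivAt 0 hpath
    simpa [Function.comp_def] using this
  have hslope := hcomp.tendsto_slope_zero_right
  have hle : ∀ᶠ s in 𝓝[>] (0 : ℝ), s⁻¹ • (rho D X ((1 - (0 + s)) • p) - rho D X (((1 : ℝ) - 0) • p)) ≤ -(1 / 2) := by
    have hmem : Set.Ioo (0 : ℝ) 1 ∈ 𝓝[>] (0 : ℝ) := Ioo_mem_nhdsGT (by norm_num)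
    filter_upwards [hmem] with s hs
    have h1 := rho_scale D X p (s := 1 - s) (by linarith [hs.2]) (by linarith [hs.1])
    have h2 := rho_slope D X hp.le
    rw [hp] at h1
    have e : rho D X (((1 : ℝ) - 0) • p) = 0 := by simpa using hp
    rw [e, zero_add, sub_zero, smul_eq_mul]
    have h3 : rho D X ((1 - s) • p) ≤ -(s / 2) := by nlinarith [hs.1]
    have h4 : s⁻¹ * rho D X ((1 - s) • p) ≤ s⁻¹ * (-(s / 2)) :=
      mul_le_mul_of_nonneg_left h3 (inv_nonneg.2 hs.1.le)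
    have h5 : s⁻¹ * (-(s / 2)) = -(1 / 2) := by
      have := hs.1.ne'
      field_simp
    linarith
  have := le_of_tendsto hslope hle
  norm_num at this

end dom

end Pool.Agent.Kob
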