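import Pool.Agent.Kob.Series

set_option autoImplicit false

namespace Pool.Agent.Kob

open Filter Topology

/-- terms of the series -/
noncomputable def gt (t : ℕ) (x : E) : ℝ := mm t * (prm t).h x

lemma gt_smooth (t : ℕ) : ContDiff ℝ ((⊤ : ℕ∞) : WithTop ℕ∞) (gt t) :=
  contDiff_const.mul (prm t).h_smooth

/-- bound sequence -/
noncomputable def bd (k t : ℕ) : ℝ := Par.c3 k * (mm t * ((prm t).Gam * (prm t).μ) ^ (k + 1))

lemma bd_summable (k : ℕ) : Summable (bd k) := (summable_bound (k + 1)).mul_left _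

lemma gt_bound (k t : ℕ) (x : E) : ‖iteratedFDeriv ℝ (k + 1) (gt t) x‖ ≤ bd k t := by
  have e : gt t = mm t • (prm t).h := rfl
  have e2 : iteratedFDeriv ℝ (k + 1) (gt t) x = mm t • iteratedFDeriv ℝ (k + 1) (prm t).h x := by
    rw [e]
    exact iteratedFDeriv_const_smul_apply ((prm t).h_smooth.contDiffAt.of_le (nat_le_inf _))
  rw [e2, norm_smul, Real.norm_of_nonneg (mm_pos t).le]
  unfold bd
  calc mm t * ‖iteratedFDeriv ℝ (k + 1) (prm t).h x‖
      ≤ mm t * (Par.c3 k * ((prm t).Gam * (prm t).μ) ^ (k + 1)) :=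
        mul_le_mul_of_nonneg_left ((prm t).h_bound k x) (mm_pos t).le
    _ = _ := by ring

lemma gt_fderiv_bound (t : ℕ) (x : E) : ‖fderiv ℝ (gt t) x‖ ≤ bd 0 t := by
  have h := gt_bound 0 t x
  rw [← norm_iteratedFDeriv_fderiv, norm_iteratedFDeriv_zero] at h
  exact h

lemma gt_fderiv2_bound (t : ℕ) (x : E) : ‖fderiv ℝ (fderiv ℝ (gt t)) x‖ ≤ bd 1 t := by
  have h := gt_bound 1 t x
  rw [← norm_iteratedFDeriv_fderiv, ← norm_iteratedFDeriv_fderiv, norm_iteratedFDeriv_zero] at h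
  exact h

lemma h_at_zero (t : ℕ) : (prm t).h 0 = 0 := by
  apply (prm t).h_near
  intro c _
  simp

lemma gt_zero (t : ℕ) : gt t 0 = 0 := by unfold gt; rw [h_at_zero, mul_zero]

lemma gt_summable_zero : Summable fun t => gt t 0 := by
  simp only [gt_zero]
  exact summable_zero

lemma gt_diff (t : ℕ) : Differentiable ℝ (gt t) := (gt_smooth t).differentiable (by simp)

lemma gt_hasFDerivAt (t : ℕ) (x : E) : HasFDerivAt (gt t) (fderiv ℝ (gt t) x) x :=
  (gt_diff t x).hasFDerivAt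

lemma gt_summable (x : E) : Summable fun t => gt t x :=
  summable_of_summable_hasFDerivAt (bd_summable 0) (fun t y => gt_hasFDerivAt t y)
    (fun t y => gt_fderiv_bound t y) gt_summable_zero x

/-- the plurisubharmonic function -/
noncomputable def uu (x : E) : ℝ := ∑' t, gt t x

lemma uu_hasFDerivAt (x : E) : HasFDerivAt uu (∑' t, fderiv ℝ (gt t) x) x :=
  hasFDerivAt_tsum (bd_summable 0) (fun t y => gt_hasFDerivAt t y)
    (fun t y => gt_fderiv_bound t y) gt_summable_zero x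

lemma uu_fderiv : fderiv ℝ uu = fun x => ∑' t, fderiv ℝ (gt t) x :=
  funext fun x => (uu_hasFDerivAt x).fderiv

lemma gt_fderiv_smooth (t : ℕ) : ContDiff ℝ ((⊤ : ℕ∞) : WithTop ℕ∞) (fderiv ℝ (gt t)) :=
  (contDiff_infty_iff_fderiv.1 (gt_smooth t)).2

lemma uu_smooth : ContDiff ℝ ((⊤ : ℕ∞) : WithTop ℕ∞) uu := by
  rw [contDiff_infty_iff_fderiv]
  refine ⟨fun x => (uu_hasFDerivAt x).differentiableAt, ?_⟩
  rw [uu_fderiv]
  apply contDiff_tsum (v := bd) gt_fderiv_smooth (fun k _ => bd_summable k)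
  intro k t x _
  rw [norm_iteratedFDeriv_fderiv]
  exact gt_bound k t x

lemma summable_fderiv (x : E) : Summable fun t => fderiv ℝ (gt t) x :=
  Summable.of_norm_bounded (bd_summable 0) fun t => gt_fderiv_bound t x

lemma summable_aux {F : Type*} [NormedAddCommGroup F] [CompleteSpace F] (f : ℕ → F) (b : ℕ → ℝ)
    (hb : Summable b) (h : ∀ t, ‖f t‖ ≤ b t) : Summable f :=
  Summable.of_norm_bounded hb h

lemma summable_aux2 (f : ℕ → (E →L[ℝ] (E →L[ℝ] ℝ))) (b : ℕ → ℝ)
    (hb : Summable b) (h : ∀ t, ‖f t‖ ≤ b t) : Summable f :=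
  summable_aux f b hb h

lemma summable_fderiv2 (x : E) : Summable fun t => fderiv ℝ (fderiv ℝ (gt t)) x :=
  summable_aux2 _ (bd 1) (bd_summable 1) fun t => gt_fderiv2_bound t x

lemma uu_fderiv2 (x : E) : fderiv ℝ (fderiv ℝ uu) x = ∑' t, fderiv ℝ (fderiv ℝ (gt t)) x := by
  rw [uu_fderiv]
  exact fderiv_tsum_apply (bd_summable 1) (fun t => (gt_fderiv_smooth t).differentiable (by simp))
    (fun t y => gt_fderiv2_bound t y) (summable_fderiv 0) x

lemma uu_levi (x w : E) : 0 ≤ Lev uu x w := by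
  unfold Lev
  rw [uu_fderiv2]
  have hs := (summable_fderiv2 x).hasSum
  have e : ∀ v : E, HasSum (fun t => fderiv ℝ (fderiv ℝ (gt t)) x v v)
      ((∑' t, fderiv ℝ (fderiv ℝ (gt t)) x) v v) := by
    intro v
    have h1 := hs.mapL (ContinuousLinearMap.apply ℝ (E →L[ℝ] ℝ) v)
    have h2 := h1.mapL (ContinuousLinearMap.apply ℝ ℝ v)
    exact h2
  have h3 := (e w).add (e (Complex.I • w))
  refine h3.nonneg fun t => ?_
  have h4 : Lev (gt t) x w = mm t * Lev (prm t).h x w :=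
    Lev_const_mul w (mm t) (((prm t).h_smooth.of_le two_le_inf).contDiffAt)
  have h5 := mul_nonneg (mm_pos t).le ((prm t).h_levi x w)
  rw [← h4] at h5
  exact h5

lemma uu_bound (x : E) : ‖fderiv ℝ uu x‖ ≤ ∑' t, bd 0 t := by
  rw [(uu_hasFDerivAt x).fderiv]
  exact tsum_of_norm_bounded (bd_summable 0).hasSum fun t => gt_fderiv_bound t x

lemma uu_zero : uu 0 = 0 := by
  unfold uu
  simp only [gt_zero, tsum_zero]

/-! independence of the last coordinate -/

lemma coord_eq {x y : E} (h0 : x 0 = y 0) (h1 : x 1 = y 1) (h2 : x 2 = y 2) {c : Fin 4}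
    (hc : c ≠ 3) : x c = y c := by
  fin_cases c
  · exact h0
  · exact h1
  · exact h2
  · exact absurd rfl hc

lemma h_indep (P : Par) {x y : E} (h0 : x 0 = y 0) (h1 : x 1 = y 1) (h2 : x 2 = y 2) :
    P.h x = P.h y := by
  have hF : ∀ (α : ℝ) (c : Fin 4), c ≠ 3 → P.FV α c x = P.FV α c y := by
    intro α c hc
    unfold Par.FV
    apply Finset.prod_congr rfl
    intro l _
    unfold fac
    rw [coord_eq h0 h1 h2 hc]
  have hl : P.lam x = P.lam y := by
    unfold Par.lam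
    rw [hF _ _ P.ha, hF _ _ P.hb]
  have hg : ∀ c : Fin 4, c ≠ 3 → P.gy c x = P.gy c y := by
    intro c hc
    unfold Par.gy
    rw [coord_eq h0 h1 h2 hc]
  have hT : P.T x = P.T y := by
    unfold Par.T Par.QQ
    rw [hl, hg 0 (by decide), hg 1 (by decide), hg 2 (by decide)]
  unfold Par.h
  rw [hl, hT]

/-! negativity on the discs -/

lemma tail_term {t : ℕ} {x : E} (h : InD t x) (i : ℕ) :
    gt (t + (i + 1)) x ≤ (3 * mm t * (lv t : ℝ) ^ 4) * (1 / 10) ^ (i + 1) := by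
  have h1 := h_earlier (i := i + 1) (by omega) h
  have hm := mm_add t (i + 1)
  have hmp := mm_pos (t + (i + 1))
  have hn := lv_real t
  have hlv : (lv (t + (i + 1)) : ℝ) ≤ lv t * (i + 2) := by
    have a1 := lv_add t (i + 1)
    have a2 := log_le_self' (i + 1)
    have a3 : (lv (t + (i + 1)) : ℝ) ≤ lv t + (i + 1) := by
      have : lv (t + (i + 1)) ≤ lv t + (i + 1) := by omega
      exact_mod_cast this
    have hi : (0 : ℝ) ≤ i := by positivity
    nlinarith
  have hlv4 : (lv (t + (i + 1)) : ℝ) ^ 4 ≤ (lv t : ℝ) ^ 4 * (i + 2) ^ 4 := by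
    rw [← mul_pow]
    exact pow_le_pow_left₀ (by positivity) hlv 4
  have hpow : ((i : ℝ) + 2) ^ 5 ≤ 32 ^ (i + 1) := by
    have a : ((i : ℝ) + 2) ≤ 2 ^ (i + 1) := by
      have := Nat.lt_two_pow_self (n := i + 1)
      have : i + 2 ≤ 2 ^ (i + 1) := by omega
      exact_mod_cast this
    calc ((i : ℝ) + 2) ^ 5 ≤ (2 ^ (i + 1)) ^ 5 := pow_le_pow_left₀ (by positivity) a 5
      _ = 32 ^ (i + 1) := by rw [← pow_mul, mul_comm, pow_mul]; norm_num
  have h320 : (1 / (lv t : ℝ)) ^ (i + 1) ≤ (1 / 320) ^ (i + 1) := by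
    apply pow_le_pow_left₀ (by have := lv_pos t; positivity)
    exact one_div_le_one_div_of_le (by norm_num) hn
  unfold gt
  have hmt := mm_pos t
  calc mm (t + (i + 1)) * (prm (t + (i + 1))).h x
      ≤ mm (t + (i + 1)) * (3 * (lv (t + (i + 1)) : ℝ) ^ 4 * ((i + 1 : ℕ) : ℝ)) :=
        mul_le_mul_of_nonneg_left h1 hmp.le
    _ ≤ (mm t * (1 / 320) ^ (i + 1)) * (3 * ((lv t : ℝ) ^ 4 * (i + 2) ^ 4) * (i + 2)) := by
        apply mul_le_mul
        · exact hm.trans (mul_le_mul_of_nonneg_left h320 hmt.le)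
        · apply mul_le_mul
          · exact mul_le_mul_of_nonneg_left hlv4 (by norm_num)
          · push_cast; linarith
          · positivity
          · positivity
        · positivity
        · positivity
    _ = 3 * mm t * (lv t : ℝ) ^ 4 * ((1 / 320) ^ (i + 1) * ((i : ℝ) + 2) ^ 5) := by ring
    _ ≤ 3 * mm t * (lv t : ℝ) ^ 4 * ((1 / 320) ^ (i + 1) * 32 ^ (i + 1)) := by
        apply mul_le_mul_of_nonneg_left _ (by positivity)
        exact mul_le_mul_of_nonneg_left hpow (by positivity)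
    _ = (3 * mm t * (lv t : ℝ) ^ 4) * (1 / 10) ^ (i + 1) := by
        rw [← mul_pow]
        norm_num

lemma head_sum {t : ℕ} {x : E} (h : InD t x) :
    ∑ k ∈ Finset.range t, gt k x ≤ mm t * (100 * (lv t : ℝ) ^ 3) := by
  rcases t with _ | t
  · have := mm_pos 0
    have := lv_pos 0
    simp only [Finset.range_zero, Finset.sum_empty]
    positivity
  · rw [Finset.sum_range_succ]
    have hz : ∑ k ∈ Finset.range t, gt k x = 0 := by
      apply Finset.sum_eq_zero
      intro k hk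
      rw [Finset.mem_range] at hk
      obtain ⟨s, hs⟩ : ∃ s, t + 1 = k + s ∧ 2 ≤ s := ⟨t + 1 - k, by omega, by omega⟩
      unfold gt
      rw [h_later (t := k) (s := s) hs.2 (by rw [← hs.1]; exact h), mul_zero]
    rw [hz, zero_add]
    have h1 := h_next h
    have h2 := mm_pos t
    have h3 := lv_pos t
    have h4 : (lv t : ℝ) ≤ lv (t + 1) := by exact_mod_cast lv_mono (Nat.le_succ t)
    unfold gt
    calc mm t * (prm t).h x ≤ mm t * (100 * (lv t : ℝ) ^ 2) := mul_le_mul_of_nonneg_left h1 h2.le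
      _ = mm (t + 1) * (100 * (lv t : ℝ) ^ 3) := by
          rw [mm_succ]
          field_simp
      _ ≤ mm (t + 1) * (100 * (lv (t + 1) : ℝ) ^ 3) := by
          apply mul_le_mul_of_nonneg_left _ (mm_pos _).le
          apply mul_le_mul_of_nonneg_left _ (by norm_num)
          exact pow_le_pow_left₀ h3.le h4 3

lemma uu_neg {t : ℕ} {x : E} (h : InD t x) : uu x < 0 := by
  have hs := gt_summable x
  have hsplit := hs.sum_add_tsum_nat_add (t + 1)
  have hm := mm_pos t
  have hn := lv_real t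
  have htail : ∑' i, gt (i + (t + 1)) x ≤ (3 * mm t * (lv t : ℝ) ^ 4) * (1 / 9) := by
    have hg : HasSum (fun i : ℕ => ((1 : ℝ) / 10) ^ (i + 1)) (1 / 9) := by
      have h1 := hasSum_geometric_of_lt_one (r := (1 / 10 : ℝ)) (by norm_num) (by norm_num)
      have h2 := h1.mul_right (1 / 10)
      have e : (1 - 1 / 10 : ℝ)⁻¹ * (1 / 10) = 1 / 9 := by norm_num
      rw [e] at h2
      exact h2
    have hg2 := hg.mul_left (3 * mm t * (lv t : ℝ) ^ 4)
    rw [← hg2.tsum_eq]
    apply Summable.tsum_le_tsum _ ((summable_nat_add_iff (t + 1)).2 hs) hg2.summable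
    intro i
    have e : i + (t + 1) = t + (i + 1) := by ring
    rw [e]
    exact tail_term h i
  have hhead := head_sum h
  have hself : gt t x ≤ mm t * (-((lv t : ℝ) ^ 4 - 1)) :=
    mul_le_mul_of_nonneg_left (h_same h) hm.le
  rw [Finset.sum_range_succ] at hsplit
  unfold uu
  rw [← hsplit]
  have hfin : mm t * (100 * (lv t : ℝ) ^ 3) + mm t * (-((lv t : ℝ) ^ 4 - 1))
      + (3 * mm t * (lv t : ℝ) ^ 4) * (1 / 9) < 0 := by
    have e : mm t * (100 * (lv t : ℝ) ^ 3) + mm t * (-((lv t : ℝ) ^ 4 - 1))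
      + (3 * mm t * (lv t : ℝ) ^ 4) * (1 / 9)
      = mm t * (100 * (lv t : ℝ) ^ 3 + 1 - 2 / 3 * (lv t : ℝ) ^ 4) := by ring
    rw [e]
    apply mul_neg_of_pos_of_neg hm
    set N : ℝ := (lv t : ℝ)
    have hN3 : 0 < N ^ 3 := by positivity
    have hN1 : 1 ≤ N ^ 3 := one_le_pow₀ (by linarith)
    have hN4 : 320 * N ^ 3 ≤ N ^ 4 := by nlinarith
    linarith
  linarith

lemma R_bound (t : ℕ) : (2 : ℝ) ^ (2 * lv t) * (1 / 2) ^ t ≤ 2 ^ 641 := by
  apply pow_half_le
  have := two_log_le t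
  unfold lv
  omega

lemma W_summable : Summable fun t => (1 / 2 : ℝ) ^ (2 * lv t) := by
  have hsum : Summable fun t : ℕ => 4 * (1 / ((t + 1 : ℕ) : ℝ) ^ 2) := by
    have h := (summable_nat_add_iff 1).2 (Real.summable_one_div_nat_pow.2 (by norm_num : 1 < 2))
    exact h.mul_left 4
  refine Summable.of_nonneg_of_le (fun t => by positivity) (fun t => ?_) hsum
  set k := Nat.log 2 (t + 1) with hk
  have h1 : t + 1 < 2 ^ (k + 1) := Nat.lt_pow_succ_log_self (by norm_num) _
  have h2 : ((t + 1 : ℕ) : ℝ) ≤ 2 ^ (k + 1) := by exact_mod_cast h1.le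
  have h3 : ((t + 1 : ℕ) : ℝ) ^ 2 ≤ (2 ^ (k + 1)) ^ 2 := pow_le_pow_left₀ (by positivity) h2 2
  have h4 : (0 : ℝ) < ((t + 1 : ℕ) : ℝ) ^ 2 := by positivity
  calc (1 / 2 : ℝ) ^ (2 * lv t) ≤ (1 / 2) ^ (2 * k) :=
        pow_le_pow_of_le_one (by norm_num) (by norm_num) (by unfold lv; omega)
    _ = 4 * (1 / (2 ^ (k + 1)) ^ 2) := by
        rw [← pow_mul, one_div_pow, mul_comm (k + 1) 2, show 2 * (k + 1) = 2 * k + 2 by ring,
          pow_add]
        field_simp
        norm_num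
    _ ≤ 4 * (1 / ((t + 1 : ℕ) : ℝ) ^ 2) := by
        apply mul_le_mul_of_nonneg_left _ (by norm_num)
        exact one_div_le_one_div_of_le h4 h3

/-- the analytic data -/
noncomputable def data : Data where
  u := uu
  C := ∑' t, bd 0 t
  R := 2 ^ 641
  W := fun t => 2 * lv t
  smooth := uu_smooth
  levi := uu_levi
  bound := uu_bound
  zero := uu_zero
  indep := by
    intro x y h0 h1 h2
    unfold uu gt
    simp only [h_indep _ h0 h1 h2]
  W_ge := by
    intro t
    have := lv_ge t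
    omega
  W_sum := W_summable
  R_ge := R_bound
  neg := fun t x h1 h2 h0 => uu_neg ⟨h1, h2, h0⟩

end Pool.Agent.Kob
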