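import Pool.Agent.Kob.Final
import Pool.Agent.Kob.ChiEx

set_option autoImplicit false

/-!
The integrated form of the Kobayashi distance (Kobayashi-Royden metric, piecewise C1 curves) for the
domain of `Pool.Agent.Kob`.
-/

namespace Pool.Agent.Kob

open Filter Topology MeasureTheory

/-- The Kobayashi-Royden metric of `Ω` at `z` in the direction `v`: the infimum of the `α > 0` such that
`f 0 = z`, `α f'(0) = v` for some holomorphic `f` from the unit disc to `Ω`. -/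
noncomputable def roydenMetric {n : ℕ} (Ω : Set (EuclideanSpace ℂ (Fin n)))
    (z v : EuclideanSpace ℂ (Fin n)) : ℝ :=
  sInf {α : ℝ | 0 < α ∧ ∃ f : ℂ → EuclideanSpace ℂ (Fin n),
    DifferentiableOn ℂ f (Metric.ball (0 : ℂ) 1) ∧ Set.MapsTo f (Metric.ball (0 : ℂ) 1) Ω ∧
    f 0 = z ∧ (α : ℂ) • deriv f 0 = v}

/-- `γ` is piecewise C1 on `[0,1]`: it is C1 on each of finitely many closed intervals
`[t i, t (i+1)]` with `0 = t 0 ≤ t 1 ≤ ... ≤ t m = 1` (in particular continuous on `[0,1]`). -/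
def PiecewiseC1 {n : ℕ} (γ : ℝ → EuclideanSpace ℂ (Fin n)) : Prop :=
  ∃ (m : ℕ) (t : ℕ → ℝ), t 0 = 0 ∧ t m = 1 ∧ (∀ i < m, t i ≤ t (i + 1)) ∧
    ∀ i < m, ContDiffOn ℝ 1 γ (Set.Icc (t i) (t (i + 1)))

/-- The Kobayashi distance of `Ω`: the infimum of the lengths of the piecewise C1 curves in `Ω` from
`z` to `w` in the Kobayashi-Royden metric. -/
noncomputable def kobayashiDist {n : ℕ} (Ω : Set (EuclideanSpace ℂ (Fin n)))
    (z w : EuclideanSpace ℂ (Fin n)) : ENNReal :=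
  sInf {s : ENNReal | ∃ γ : ℝ → EuclideanSpace ℂ (Fin n), PiecewiseC1 γ ∧ γ 0 = z ∧ γ 1 = w ∧
    Set.MapsTo γ (Set.Icc 0 1) Ω ∧
    s = ∫⁻ t in Set.Icc (0 : ℝ) 1, ENNReal.ofReal (roydenMetric Ω (γ t) (deriv γ t))}

section general

variable {n : ℕ} {Ω : Set (EuclideanSpace ℂ (Fin n))}

lemma royden_nonneg (z v : EuclideanSpace ℂ (Fin n)) : 0 ≤ roydenMetric Ω z v :=
  Real.sInf_nonneg fun _ h => h.1.le

lemma royden_le {z v : EuclideanSpace ℂ (Fin n)} {α : ℝ} (hα : 0 < α)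
    {f : ℂ → EuclideanSpace ℂ (Fin n)} (h1 : DifferentiableOn ℂ f (Metric.ball (0 : ℂ) 1))
    (h2 : Set.MapsTo f (Metric.ball (0 : ℂ) 1) Ω) (h3 : f 0 = z)
    (h4 : (α : ℂ) • deriv f 0 = v) : roydenMetric Ω z v ≤ α :=
  csInf_le ⟨0, fun _ h => h.1.le⟩ ⟨hα, f, h1, h2, h3, h4⟩

/-- lower bound by the Euclidean length -/
lemma royden_ge (ho : IsOpen Ω) {M : ℝ} (hM0 : 0 < M) (hM : ∀ x ∈ Ω, ‖x‖ < M)
    {z v : EuclideanSpace ℂ (Fin n)} (hz : z ∈ Ω) : ‖v‖ / (2 * M) ≤ roydenMetric Ω z v := by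
  apply le_csInf
  · obtain ⟨r, hr, hball⟩ := Metric.isOpen_iff.1 ho z hz
    have hv : 0 < ‖v‖ + 1 := by positivity
    refine ⟨(‖v‖ + 1) / r, by positivity, fun ζ => z + (ζ * ((r / (‖v‖ + 1) : ℝ) : ℂ)) • v, ?_, ?_,
      by simp, ?_⟩
    · apply Differentiable.differentiableOn
      fun_prop
    · intro ζ hζ
      apply hball
      have hζ' : ‖ζ‖ < 1 := by simpa using hζ
      rw [Metric.mem_ball, dist_eq_norm, add_sub_cancel_left, norm_smul, norm_mul,
        Complex.norm_real, Real.norm_of_nonneg (by positivity)]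
      have h1 : r / (‖v‖ + 1) * ‖v‖ ≤ r := by
        rw [div_mul_eq_mul_div, div_le_iff₀ hv]
        nlinarith [norm_nonneg v]
      have h2 : 0 ≤ r / (‖v‖ + 1) * ‖v‖ := by positivity
      rcases eq_or_lt_of_le (norm_nonneg v) with h0 | h0
      · rw [← h0]; simpa using hr
      · have h3 : 0 < r / (‖v‖ + 1) * ‖v‖ := by positivity
        calc ‖ζ‖ * (r / (‖v‖ + 1)) * ‖v‖ = ‖ζ‖ * (r / (‖v‖ + 1) * ‖v‖) := by ring
          _ < 1 * (r / (‖v‖ + 1) * ‖v‖) := mul_lt_mul_of_pos_right hζ' h3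
          _ ≤ r := by linarith
    · have hd : HasDerivAt (fun ζ : ℂ => z + (ζ * ((r / (‖v‖ + 1) : ℝ) : ℂ)) • v)
          ((1 * ((r / (‖v‖ + 1) : ℝ) : ℂ)) • v) 0 := by
        have h1 : HasDerivAt (fun ζ : ℂ => ζ * ((r / (‖v‖ + 1) : ℝ) : ℂ))
            (1 * ((r / (‖v‖ + 1) : ℝ) : ℂ)) 0 := (hasDerivAt_id (0 : ℂ)).mul_const _
        exact (h1.smul_const v).const_add z
      rw [hd.deriv, one_mul, smul_smul, ← Complex.ofReal_mul]
      have e : (‖v‖ + 1) / r * (r / (‖v‖ + 1)) = 1 := by field_simp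
      rw [e, Complex.ofReal_one, one_smul]
  · rintro α ⟨hα, f, h1, h2, h3, h4⟩
    have hmaps : Set.MapsTo f (Metric.ball (0 : ℂ) 1) (Metric.ball (f 0) (2 * M)) := by
      intro ζ hζ
      rw [Metric.mem_ball, dist_eq_norm]
      have a1 := hM _ (h2 hζ)
      have a2 := hM _ (h2 (Metric.mem_ball_self (by norm_num) : (0 : ℂ) ∈ Metric.ball (0 : ℂ) 1))
      calc ‖f ζ - f 0‖ ≤ ‖f ζ‖ + ‖f 0‖ := norm_sub_le _ _
        _ < 2 * M := by linarith
    have hd := Complex.norm_deriv_le_div_of_mapsTo_ball h1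
      (hmaps.mono_right Metric.ball_subset_closedBall) (by norm_num)
    rw [div_one] at hd
    rw [← h4, norm_smul, Complex.norm_real, Real.norm_of_nonneg hα.le, div_le_iff₀ (by positivity)]
    exact mul_le_mul_of_nonneg_left hd hα.le

/-- length of a piecewise C1 curve -/
lemma enorm_sub_le_lintegral {γ : ℝ → EuclideanSpace ℂ (Fin n)} (hγ : PiecewiseC1 γ) :
    ‖γ 1 - γ 0‖ₑ ≤ ∫⁻ t in Set.Icc (0 : ℝ) 1, ‖deriv γ t‖ₑ := by
  obtain ⟨m, t, h0, h1, hmono, hC⟩ := hγ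
  have key : ∀ k ≤ m, 0 ≤ t k ∧ ‖γ (t k) - γ 0‖ₑ ≤ ∫⁻ s in Set.Icc (0 : ℝ) (t k), ‖deriv γ s‖ₑ := by
    intro k
    induction k with
    | zero => intro _; rw [h0]; simp
    | succ k ih =>
      intro hk
      obtain ⟨i0, i1⟩ := ih (by omega)
      have hle := hmono k (by omega)
      refine ⟨i0.trans hle, ?_⟩
      have hstep := enorm_sub_le_lintegral_deriv_of_contDiffOn_Icc (hC k (by omega)) hle
      have hae : ∫⁻ s in Set.Icc (t k) (t (k + 1)), ‖deriv γ s‖ₑ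
          = ∫⁻ s in Set.Ioc (t k) (t (k + 1)), ‖deriv γ s‖ₑ :=
        (setLIntegral_congr Ioc_ae_eq_Icc).symm
      rw [hae] at hstep
      have hunion : Set.Icc (0 : ℝ) (t (k + 1)) = Set.Icc 0 (t k) ∪ Set.Ioc (t k) (t (k + 1)) :=
        (Set.Icc_union_Ioc_eq_Icc i0 hle).symm
      rw [hunion, lintegral_union measurableSet_Ioc (by
        rw [Set.disjoint_left]
        intro s hs1 hs2
        exact absurd hs1.2 (not_le.2 hs2.1))]
      calc ‖γ (t (k + 1)) - γ 0‖ₑ = ‖(γ (t k) - γ 0) + (γ (t (k + 1)) - γ (t k))‖ₑ := by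
            congr 1; abel
        _ ≤ ‖γ (t k) - γ 0‖ₑ + ‖γ (t (k + 1)) - γ (t k)‖ₑ := enorm_add_le _ _
        _ ≤ _ := add_le_add i1 hstep
  have := (key m le_rfl).2
  rwa [h1] at this

lemma kobayashi_ge (ho : IsOpen Ω) {M : ℝ} (hM0 : 0 < M) (hM : ∀ x ∈ Ω, ‖x‖ < M)
    (z w : EuclideanSpace ℂ (Fin n)) :
    ENNReal.ofReal (dist z w / (2 * M)) ≤ kobayashiDist Ω z w := by
  apply le_sInf
  rintro s ⟨γ, hγ, h0, h1, hmaps, rfl⟩
  have hlen := enorm_sub_le_lintegral hγ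
  have hc : ENNReal.ofReal (1 / (2 * M)) * ∫⁻ t in Set.Icc (0 : ℝ) 1, ‖deriv γ t‖ₑ
      ≤ ∫⁻ t in Set.Icc (0 : ℝ) 1, ENNReal.ofReal (roydenMetric Ω (γ t) (deriv γ t)) := by
    rw [← lintegral_const_mul' _ _ ENNReal.ofReal_ne_top]
    apply setLIntegral_mono' measurableSet_Icc
    intro t ht
    rw [← ofReal_norm, ← ENNReal.ofReal_mul (by positivity)]
    apply ENNReal.ofReal_le_ofReal
    have := royden_ge ho hM0 hM (v := deriv γ t) (hmaps ht)
    calc 1 / (2 * M) * ‖deriv γ t‖ = ‖deriv γ t‖ / (2 * M) := by ring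
      _ ≤ _ := this
  refine le_trans ?_ hc
  refine le_trans ?_ (mul_le_mul_right hlen _)
  rw [← ofReal_norm, ← ENNReal.ofReal_mul (by positivity), h0, h1]
  apply ENNReal.ofReal_le_ofReal
  rw [dist_comm, dist_eq_norm]
  exact le_of_eq (by ring)

/-- piecewise linear path through the points `q 0, q 1, ..` -/
noncomputable def polyPath (m : ℕ) (q : ℕ → EuclideanSpace ℂ (Fin n)) (s : ℝ) :
    EuclideanSpace ℂ (Fin n) :=
  q ⌊(m : ℝ) * s⌋₊ + ((m : ℝ) * s - (⌊(m : ℝ) * s⌋₊ : ℝ)) • (q (⌊(m : ℝ) * s⌋₊ + 1) - q ⌊(m : ℝ) * s⌋₊)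

lemma polyPath_eq {m : ℕ} (hm : 0 < m) (q : ℕ → EuclideanSpace ℂ (Fin n)) {l : ℕ} {s : ℝ}
    (h1 : (l : ℝ) / m ≤ s) (h2 : s ≤ ((l + 1 : ℕ) : ℝ) / m) :
    polyPath m q s = q l + ((m : ℝ) * s - (l : ℝ)) • (q (l + 1) - q l) := by
  have hm' : (0 : ℝ) < m := by exact_mod_cast hm
  have a1 : (l : ℝ) ≤ m * s := by
    rw [div_le_iff₀ hm'] at h1; linarith
  have a2 : (m : ℝ) * s ≤ l + 1 := by
    rw [le_div_iff₀ hm'] at h2; push_cast at h2; linarith
  rcases lt_or_eq_of_le a2 with h | h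
  · have hf : ⌊(m : ℝ) * s⌋₊ = l := by
      rw [Nat.floor_eq_iff (by have : (0 : ℝ) ≤ l := by positivity
                               linarith)]
      exact ⟨a1, h⟩
    unfold polyPath
    rw [hf]
  · have hf : ⌊(m : ℝ) * s⌋₊ = l + 1 := by
      rw [h]
      exact_mod_cast Nat.floor_natCast (l + 1)
    unfold polyPath
    rw [hf, h]
    push_cast
    simp

lemma kobayashi_le_chain {m : ℕ} (hm : 0 < m) (q : ℕ → EuclideanSpace ℂ (Fin n)) (a : ℕ → ℝ)
    (ha : ∀ l < m, 0 ≤ a l)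
    (hmem : ∀ l < m, ∀ s : ℝ, 0 ≤ s → s ≤ 1 → q l + s • (q (l + 1) - q l) ∈ Ω)
    (hroy : ∀ l < m, ∀ s : ℝ, 0 ≤ s → s ≤ 1 →
      roydenMetric Ω (q l + s • (q (l + 1) - q l)) ((m : ℝ) • (q (l + 1) - q l)) ≤ m * a l) :
    kobayashiDist Ω (q 0) (q m) ≤ ENNReal.ofReal (∑ l ∈ Finset.range m, a l) := by
  have hm' : (0 : ℝ) < m := by exact_mod_cast hm
  have hC : ∀ l : ℕ, ContDiffOn ℝ 1 (polyPath m q)
      (Set.Icc ((l : ℝ) / m) (((l + 1 : ℕ) : ℝ) / m)) := by
    intro l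
    have : ContDiff ℝ 1 (fun s : ℝ => q l + ((m : ℝ) * s - (l : ℝ)) • (q (l + 1) - q l)) := by
      fun_prop
    exact this.contDiffOn.congr fun s hs => polyPath_eq hm q hs.1 hs.2
  have hpar : ∀ l : ℕ, ∀ s : ℝ, (l : ℝ) / m ≤ s → s ≤ ((l + 1 : ℕ) : ℝ) / m →
      0 ≤ (m : ℝ) * s - l ∧ (m : ℝ) * s - l ≤ 1 := by
    intro l s h1 h2
    rw [div_le_iff₀ hm'] at h1
    rw [le_div_iff₀ hm'] at h2
    push_cast at h2
    constructor <;> linarith
  have hcover : ∀ s : ℝ, 0 ≤ s → s ≤ 1 → ∃ l < m, (l : ℝ) / m ≤ s ∧ s ≤ ((l + 1 : ℕ) : ℝ) / m := by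
    intro s h0 h1
    rcases lt_or_eq_of_le h1 with h | h
    · refine ⟨⌊(m : ℝ) * s⌋₊, ?_, ?_, ?_⟩
      · rw [Nat.floor_lt (by positivity)]
        nlinarith
      · rw [div_le_iff₀ hm']
        have := Nat.floor_le (show 0 ≤ (m : ℝ) * s by positivity)
        linarith
      · rw [le_div_iff₀ hm']
        have := Nat.lt_floor_add_one ((m : ℝ) * s)
        push_cast
        linarith
    · refine ⟨m - 1, by omega, ?_, ?_⟩
      · rw [h, div_le_one hm']
        exact_mod_cast Nat.sub_le m 1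
      · rw [h, le_div_iff₀ hm', one_mul]
        have : m - 1 + 1 = m := by omega
        rw [this]
  apply sInf_le_of_le (b := ∫⁻ t in Set.Icc (0 : ℝ) 1,
    ENNReal.ofReal (roydenMetric Ω (polyPath m q t) (deriv (polyPath m q) t)))
  · refine ⟨polyPath m q, ⟨m, fun l => (l : ℝ) / m, by simp, by simp [hm'.ne'], ?_, ?_⟩, ?_, ?_, ?_, rfl⟩
    · intro l _
      have : (l : ℝ) ≤ ((l + 1 : ℕ) : ℝ) := by push_cast; linarith
      exact div_le_div_of_nonneg_right this hm'.le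
    · intro l _
      exact hC l
    · simp [polyPath]
    · simp [polyPath]
    · intro s hs
      obtain ⟨l, hl, h1, h2⟩ := hcover s hs.1 hs.2
      rw [polyPath_eq hm q h1 h2]
      obtain ⟨p1, p2⟩ := hpar l s h1 h2
      exact hmem l hl _ p1 p2
  · have key : ∀ l < m, ∫⁻ t in Set.Icc ((l : ℝ) / m) (((l + 1 : ℕ) : ℝ) / m),
        ENNReal.ofReal (roydenMetric Ω (polyPath m q t) (deriv (polyPath m q) t))
        ≤ ENNReal.ofReal (a l) := by
      intro l hl
      rw [← setLIntegral_congr Ioo_ae_eq_Icc]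
      have hb : ∀ t ∈ Set.Ioo ((l : ℝ) / m) (((l + 1 : ℕ) : ℝ) / m),
          ENNReal.ofReal (roydenMetric Ω (polyPath m q t) (deriv (polyPath m q) t))
          ≤ ENNReal.ofReal (m * a l) := by
        intro t ht
        apply ENNReal.ofReal_le_ofReal
        have hev : polyPath m q =ᶠ[𝓝 t]
            fun s : ℝ => q l + ((m : ℝ) * s - (l : ℝ)) • (q (l + 1) - q l) := by
          filter_upwards [Ioo_mem_nhds ht.1 ht.2] with s hs
          exact polyPath_eq hm q hs.1.le hs.2.le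
        have hd : HasDerivAt (fun s : ℝ => q l + ((m : ℝ) * s - (l : ℝ)) • (q (l + 1) - q l))
            (((m : ℝ) * 1) • (q (l + 1) - q l)) t := by
          have h1 : HasDerivAt (fun s : ℝ => (m : ℝ) * s - (l : ℝ)) ((m : ℝ) * 1) t :=
            ((hasDerivAt_id t).const_mul (m : ℝ)).sub_const _
          exact (h1.smul_const _).const_add _
        rw [hev.deriv_eq, hd.deriv, polyPath_eq hm q ht.1.le ht.2.le, mul_one]
        obtain ⟨p1, p2⟩ := hpar l t ht.1.le ht.2.le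
        exact hroy l hl _ p1 p2
      calc ∫⁻ t in Set.Ioo ((l : ℝ) / m) (((l + 1 : ℕ) : ℝ) / m),
            ENNReal.ofReal (roydenMetric Ω (polyPath m q t) (deriv (polyPath m q) t))
          ≤ ∫⁻ _ in Set.Ioo ((l : ℝ) / m) (((l + 1 : ℕ) : ℝ) / m), ENNReal.ofReal (m * a l) :=
            setLIntegral_mono' measurableSet_Ioo hb
        _ = ENNReal.ofReal (m * a l) * ENNReal.ofReal (((l + 1 : ℕ) : ℝ) / m - (l : ℝ) / m) := by
            rw [setLIntegral_const, Real.volume_Ioo]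
        _ = ENNReal.ofReal (a l) := by
            rw [← ENNReal.ofReal_mul (mul_nonneg hm'.le (ha l hl))]
            congr 1
            push_cast
            field_simp
            ring
    have hsub : Set.Icc (0 : ℝ) 1 ⊆
        ⋃ l : Fin m, Set.Icc (((l : ℕ) : ℝ) / m) ((((l : ℕ) + 1 : ℕ) : ℝ) / m) := by
      intro s hs
      obtain ⟨l, hl, h1, h2⟩ := hcover s hs.1 hs.2
      simp only [Set.mem_iUnion]
      exact ⟨⟨l, hl⟩, h1, h2⟩
    calc ∫⁻ t in Set.Icc (0 : ℝ) 1,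
          ENNReal.ofReal (roydenMetric Ω (polyPath m q t) (deriv (polyPath m q) t))
        ≤ ∫⁻ t in ⋃ l : Fin m, Set.Icc (((l : ℕ) : ℝ) / m) ((((l : ℕ) + 1 : ℕ) : ℝ) / m),
          ENNReal.ofReal (roydenMetric Ω (polyPath m q t) (deriv (polyPath m q) t)) :=
          lintegral_mono_set hsub
      _ ≤ ∑ l ∈ Finset.range m, ∫⁻ t in Set.Icc ((l : ℝ) / m) (((l + 1 : ℕ) : ℝ) / m),
          ENNReal.ofReal (roydenMetric Ω (polyPath m q t) (deriv (polyPath m q) t)) := by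
          refine (lintegral_iUnion_le _ _).trans (le_of_eq ?_)
          rw [tsum_fintype]
          exact Fin.sum_univ_eq_sum_range (fun l : ℕ =>
            ∫⁻ t in Set.Icc ((l : ℝ) / m) (((l + 1 : ℕ) : ℝ) / m),
              ENNReal.ofReal (roydenMetric Ω (polyPath m q t) (deriv (polyPath m q) t))) m
      _ ≤ ∑ l ∈ Finset.range m, ENNReal.ofReal (a l) :=
          Finset.sum_le_sum fun l hl => key l (Finset.mem_range.1 hl)
      _ = ENNReal.ofReal (∑ l ∈ Finset.range m, a l) :=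
          (ENNReal.ofReal_sum_of_nonneg fun l hl => ha l (Finset.mem_range.1 hl)).symm

end general

section domain

variable (D : Data) (X : Chi)

/-- weight of the `t`-th step -/
noncomputable def stepWt (t : ℕ) : ℝ := 2 * (1 / 2 : ℝ) ^ (D.W t)

lemma stepWt_pos (t : ℕ) : 0 < stepWt D t := by unfold stepWt; positivity

lemma stepWt_le_cost (t : ℕ) : stepWt D t ≤ cost D t := by
  unfold stepWt cost
  have : (0 : ℝ) < (1 / 2) ^ (D.W t) := by positivity
  linarith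

lemma stepWt_mul_rad (t : ℕ) : stepWt D t * rad D t = (1 / 2) ^ t := by
  unfold stepWt rad
  have : (1 / 2 : ℝ) ^ (D.W t) * 2 ^ (D.W t) = 1 := by
    rw [← mul_pow]; norm_num
  calc 2 * (1 / 2 : ℝ) ^ (D.W t) * (2 ^ (D.W t) * (1 / 2) ^ t / 2)
      = ((1 / 2 : ℝ) ^ (D.W t) * 2 ^ (D.W t)) * (1 / 2) ^ t := by ring
    _ = (1 / 2) ^ t := by rw [this, one_mul]

lemma royden_disc (t : ℕ) {p : E} (hp1 : p (idx (t + 1)) = (1 / 2) ^ (t + 1))
    (hp2 : p (idx (t + 2)) = (1 / 2) ^ (t + 2)) (hp3 : p 3 = 1)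
    (hp0 : ‖p (idx t)‖ ≤ (1 / 2 : ℝ) ^ t) {c : ℂ} {κ : ℝ} (hκ : 0 < κ)
    (hc : ‖c‖ ≤ κ * (1 / 2) ^ t) :
    roydenMetric (Om D X) p (c • EuclideanSpace.single (idx t) (1 : ℂ)) ≤ κ * stepWt D t := by
  have hα : 0 < κ * stepWt D t := mul_pos hκ (stepWt_pos D t)
  have hr := rad_pos D t
  have hcr : ‖c / ((κ * stepWt D t : ℝ) : ℂ)‖ ≤ rad D t := by
    rw [norm_div, Complex.norm_real, Real.norm_of_nonneg hα.le, div_le_iff₀ hα]
    calc ‖c‖ ≤ κ * (1 / 2) ^ t := hc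
      _ = rad D t * (κ * stepWt D t) := by rw [← stepWt_mul_rad D t]; ring
  apply royden_le hα (f := fun ζ => p + (ζ * (c / ((κ * stepWt D t : ℝ) : ℂ))) •
    EuclideanSpace.single (idx t) (1 : ℂ))
  · apply Differentiable.differentiableOn
    fun_prop
  · intro ζ hζ
    have hζ' : ‖ζ‖ < 1 := by simpa using hζ
    have hne : ∀ c' : Fin 4, c' ≠ idx t → (p + (ζ * (c / ((κ * stepWt D t : ℝ) : ℂ))) •
        EuclideanSpace.single (idx t) (1 : ℂ)) c' = p c' := by
      intro c' hc'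
      simp [hc']
    apply mem_Om_of_disc D X (t := t)
    · rw [hne _ (idx01 t), hp1]
    · rw [hne _ (idx02 t), hp2]
    · have e : (p + (ζ * (c / ((κ * stepWt D t : ℝ) : ℂ))) •
        EuclideanSpace.single (idx t) (1 : ℂ)) (idx t)
          = p (idx t) + ζ * (c / ((κ * stepWt D t : ℝ) : ℂ)) := by simp
      rw [e]
      have h1 : ‖ζ * (c / ((κ * stepWt D t : ℝ) : ℂ))‖ < rad D t := by
        rw [norm_mul]
        calc ‖ζ‖ * ‖c / ((κ * stepWt D t : ℝ) : ℂ)‖ ≤ ‖ζ‖ * rad D t :=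
              mul_le_mul_of_nonneg_left hcr (norm_nonneg _)
          _ < 1 * rad D t := mul_lt_mul_of_pos_right hζ' hr
          _ = rad D t := one_mul _
      have h2 := pow_le_rad D t
      have h3 : (2 : ℝ) ^ (D.W t) * (1 / 2) ^ t = 2 * rad D t := by unfold rad; ring
      calc ‖p (idx t) + ζ * (c / ((κ * stepWt D t : ℝ) : ℂ))‖
          ≤ ‖p (idx t)‖ + ‖ζ * (c / ((κ * stepWt D t : ℝ) : ℂ))‖ := norm_add_le _ _
        _ < rad D t + rad D t := add_lt_add_of_le_of_lt (hp0.trans h2) h1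
        _ = _ := by rw [h3]; ring
    · rw [hne _ (idx_ne t).symm, hp3]
  · simp
  · have hd : HasDerivAt (fun ζ : ℂ => p + (ζ * (c / ((κ * stepWt D t : ℝ) : ℂ))) •
        EuclideanSpace.single (idx t) (1 : ℂ))
        ((1 * (c / ((κ * stepWt D t : ℝ) : ℂ))) • EuclideanSpace.single (idx t) (1 : ℂ)) 0 := by
      have h1 : HasDerivAt (fun ζ : ℂ => ζ * (c / ((κ * stepWt D t : ℝ) : ℂ)))
          (1 * (c / ((κ * stepWt D t : ℝ) : ℂ))) 0 := (hasDerivAt_id (0 : ℂ)).mul_const _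
      exact (h1.smul_const _).const_add p
    rw [hd.deriv, one_mul, smul_smul]
    congr 1
    have : ((κ * stepWt D t : ℝ) : ℂ) ≠ 0 := by exact_mod_cast hα.ne'
    field_simp

lemma pt_step (t : ℕ) : pt (t + 1) - pt t
    = (-(7 / 8) * (1 / 2) ^ t : ℂ) • EuclideanSpace.single (idx t) (1 : ℂ) := by
  ext c
  rcases idx_cover t c with h | h | h | h
  · subst h
    have : (3 : Fin 4) ≠ idx t := (idx_ne t).symm
    simp [this]
  · subst h
    rw [PiLp.sub_apply, pt_succ_same, pt_idx0, PiLp.smul_apply, EuclideanSpace.single_apply,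
      if_pos rfl, smul_eq_mul, mul_one, pow_add]
    ring
  · subst h
    rw [PiLp.sub_apply, pt_idx1, pt_idx0 (t + 1), PiLp.smul_apply, EuclideanSpace.single_apply,
      if_neg (idx01 t)]
    simp
  · subst h
    rw [PiLp.sub_apply, pt_idx2, PiLp.smul_apply, EuclideanSpace.single_apply,
      if_neg (idx02 t)]
    have := pt_idx1 (t + 1)
    rw [show t + 1 + 1 = t + 2 from rfl] at this
    rw [this]
    simp

/-- the segment from `pt t` to `pt (t+1)` -/
lemma seg_same (t : ℕ) (s : ℝ) : (pt t + s • (pt (t + 1) - pt t)) (idx t)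
    = (((1 - 7 / 8 * s) * (1 / 2) ^ t : ℝ) : ℂ) := by
  rw [pt_step, PiLp.add_apply, PiLp.smul_apply, PiLp.smul_apply, EuclideanSpace.single_apply,
    if_pos rfl, pt_idx0, smul_eq_mul, mul_one, Complex.real_smul]
  push_cast
  ring

lemma seg_ne (t : ℕ) (s : ℝ) {c : Fin 4} (hc : c ≠ idx t) :
    (pt t + s • (pt (t + 1) - pt t)) c = pt t c := by
  rw [pt_step]
  simp [hc]

lemma seg_norm (t : ℕ) {s : ℝ} (h0 : 0 ≤ s) (h1 : s ≤ 1) :
    ‖(pt t + s • (pt (t + 1) - pt t)) (idx t)‖ ≤ (1 / 2 : ℝ) ^ t := by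
  have hp : (0 : ℝ) < (1 / 2) ^ t := by positivity
  rw [seg_same, Complex.norm_real, Real.norm_of_nonneg (mul_nonneg (by linarith) hp.le)]
  nlinarith

lemma seg_royden (t : ℕ) {s : ℝ} (h0 : 0 ≤ s) (h1 : s ≤ 1) {r κ : ℝ} (hκ : 0 < κ)
    (hr : |r| ≤ κ) :
    roydenMetric (Om D X) (pt t + s • (pt (t + 1) - pt t)) (r • (pt (t + 1) - pt t))
      ≤ κ * stepWt D t := by
  have e : r • (pt (t + 1) - pt t)
      = ((r : ℂ) * (-(7 / 8) * (1 / 2) ^ t)) • EuclideanSpace.single (idx t) (1 : ℂ) := by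
    rw [pt_step, ← Complex.coe_smul, smul_smul]
  rw [e]
  apply royden_disc D X t _ _ _ (seg_norm t h0 h1) hκ
  · rw [norm_mul, norm_mul, Complex.norm_real, norm_pow]
    have a1 : ‖(1 / 2 : ℂ)‖ = 1 / 2 := by simp
    have a2 : ‖(-(7 / 8) : ℂ)‖ = 7 / 8 := by simp
    rw [a1, a2, Real.norm_eq_abs]
    have hp : (0 : ℝ) < (1 / 2) ^ t := by positivity
    calc |r| * (7 / 8 * (1 / 2) ^ t) ≤ |r| * (1 * (1 / 2) ^ t) :=
          mul_le_mul_of_nonneg_left (by nlinarith) (abs_nonneg r)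
      _ ≤ κ * (1 * (1 / 2) ^ t) := mul_le_mul_of_nonneg_right hr (by positivity)
      _ = _ := by ring
  · rw [seg_ne t s (idx01 t), pt_idx1]
  · rw [seg_ne t s (idx02 t), pt_idx2]
  · rw [seg_ne t s (idx_ne t).symm, pt_3]

lemma seg_mem (t : ℕ) {s : ℝ} (h0 : 0 ≤ s) (h1 : s ≤ 1) :
    pt t + s • (pt (t + 1) - pt t) ∈ Om D X := by
  apply mem_Om_of_disc D X (t := t)
  · rw [seg_ne t s (idx01 t), pt_idx1]
  · rw [seg_ne t s (idx02 t), pt_idx2]
  · have a := seg_norm t h0 h1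
    have b := pow_le_rad D t
    have c := rad_pos D t
    have h3 : (2 : ℝ) ^ (D.W t) * (1 / 2) ^ t = 2 * rad D t := by unfold rad; ring
    rw [h3]
    linarith
  · rw [seg_ne t s (idx_ne t).symm, pt_3]

lemma int_self (i : ℕ) : kobayashiDist (Om D X) (pt i) (pt i) ≤ ENNReal.ofReal (stepWt D i) := by
  have h := kobayashi_le_chain (Ω := Om D X) (m := 1) one_pos (fun _ => pt i) (fun _ => stepWt D i)
    (fun _ _ => (stepWt_pos D i).le) (fun _ _ s _ _ => by simpa using pt_mem D X i)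
    (fun _ _ s _ _ => by
      have := seg_royden D X i (s := 0) le_rfl zero_le_one (r := 0) (κ := 1) one_pos (by simp)
      simpa using this)
  simpa using h

lemma int_fwd (i : ℕ) {n : ℕ} (hn : 0 < n) : kobayashiDist (Om D X) (pt i) (pt (i + n))
    ≤ ENNReal.ofReal (∑ k ∈ Finset.range n, stepWt D (i + k)) := by
  have hn' : (0 : ℝ) < n := by exact_mod_cast hn
  exact kobayashi_le_chain (Ω := Om D X) hn (fun l => pt (i + l)) (fun l => stepWt D (i + l))
    (fun l _ => (stepWt_pos D _).le) (fun l _ s h0 h1 => seg_mem D X (i + l) h0 h1)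
    (fun l _ s h0 h1 => seg_royden D X (i + l) h0 h1 hn' (le_of_eq (abs_of_pos hn')))

lemma int_bwd (i : ℕ) {n : ℕ} (hn : 0 < n) : kobayashiDist (Om D X) (pt (i + n)) (pt i)
    ≤ ENNReal.ofReal (∑ k ∈ Finset.range n, stepWt D (i + k)) := by
  have hn' : (0 : ℝ) < n := by exact_mod_cast hn
  have hrev : ∀ l < n, n - l = n - (l + 1) + 1 := fun l hl => by omega
  have key : ∀ l < n, ∀ s : ℝ, pt (i + (n - l)) + s • (pt (i + (n - (l + 1))) - pt (i + (n - l)))
      = pt (i + (n - (l + 1))) + (1 - s) • (pt (i + (n - (l + 1)) + 1) - pt (i + (n - (l + 1)))) := by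
    intro l hl s
    rw [hrev l hl, ← add_assoc]
    module
  have hdir : ∀ l < n, (n : ℝ) • (pt (i + (n - (l + 1))) - pt (i + (n - l)))
      = (-(n : ℝ)) • (pt (i + (n - (l + 1)) + 1) - pt (i + (n - (l + 1)))) := by
    intro l hl
    rw [hrev l hl, ← add_assoc]
    module
  have h := kobayashi_le_chain (Ω := Om D X) hn (fun l => pt (i + (n - l)))
    (fun l => stepWt D (i + (n - (l + 1)))) (fun l _ => (stepWt_pos D _).le)
    (fun l hl s h0 h1 => by
      show pt (i + (n - l)) + s • (pt (i + (n - (l + 1))) - pt (i + (n - l))) ∈ Om D X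
      rw [key l hl s]
      exact seg_mem D X _ (by linarith) (by linarith))
    (fun l hl s h0 h1 => by
      show roydenMetric (Om D X) (pt (i + (n - l)) + s • (pt (i + (n - (l + 1))) - pt (i + (n - l))))
        ((n : ℝ) • (pt (i + (n - (l + 1))) - pt (i + (n - l)))) ≤ n * stepWt D (i + (n - (l + 1)))
      rw [key l hl s, hdir l hl]
      exact seg_royden D X _ (by linarith) (by linarith) hn'
        (by rw [abs_neg, abs_of_pos hn']))
  have e1 : ∑ l ∈ Finset.range n, stepWt D (i + (n - (l + 1))) = ∑ k ∈ Finset.range n, stepWt D (i + k) := by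
    rw [← Finset.sum_range_reflect (fun k => stepWt D (i + k)) n]
    apply Finset.sum_congr rfl
    intro l _
    have : n - (l + 1) = n - 1 - l := by omega
    rw [this]
  rw [e1] at h
  simpa using h

lemma tail_small : ∀ ε > 0, ∃ N : ℕ, ∀ i ≥ N, ∀ n, ∑ k ∈ Finset.range n, cost D (i + k) < ε := by
  intro ε hε
  have hs := cost_summable D
  have hlim := hs.hasSum.tendsto_sum_nat
  obtain ⟨N, hN⟩ := (hlim.eventually
    (lt_mem_nhds (by linarith : (∑' k, cost D k) - ε < ∑' k, cost D k))).exists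
  refine ⟨N, fun i hi n => ?_⟩
  have h1 : ∑ k ∈ Finset.range (i + n), cost D k
      = ∑ k ∈ Finset.range i, cost D k + ∑ k ∈ Finset.range n, cost D (i + k) :=
    Finset.sum_range_add _ _ _
  have h2 : ∑ k ∈ Finset.range (i + n), cost D k ≤ ∑' k, cost D k :=
    hs.sum_le_tsum _ (fun k _ => cost_nonneg D k)
  have h3 : ∑ k ∈ Finset.range N, cost D k ≤ ∑ k ∈ Finset.range i, cost D k :=
    Finset.sum_le_sum_of_subset_of_nonneg (by
      intro k hk
      rw [Finset.mem_range] at hk ⊢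
      omega) (fun k _ _ => cost_nonneg D k)
  linarith

lemma int_cauchy : ∀ ε : ℝ, 0 < ε → ∃ N : ℕ, ∀ i ≥ N, ∀ j ≥ N,
    kobayashiDist (Om D X) (pt i) (pt j) < ENNReal.ofReal ε := by
  intro ε hε
  obtain ⟨N, hN⟩ := tail_small D ε hε
  have part : ∀ i ≥ N, ∀ n, ENNReal.ofReal (∑ k ∈ Finset.range n, stepWt D (i + k))
      < ENNReal.ofReal ε := by
    intro i hi n
    rw [ENNReal.ofReal_lt_ofReal_iff hε]
    exact lt_of_le_of_lt (Finset.sum_le_sum fun k _ => stepWt_le_cost D (i + k)) (hN i hi n)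
  refine ⟨N, fun i hi j hj => ?_⟩
  rcases lt_trichotomy i j with h | h | h
  · obtain ⟨n, rfl⟩ := Nat.exists_eq_add_of_lt h
    exact lt_of_le_of_lt (int_fwd D X i (Nat.succ_pos n)) (part i hi _)
  · subst h
    have := part i hi 1
    rw [Finset.sum_range_one] at this
    exact lt_of_le_of_lt (int_self D X i) this
  · obtain ⟨n, rfl⟩ := Nat.exists_eq_add_of_lt h
    exact lt_of_le_of_lt (int_bwd D X j (Nat.succ_pos n)) (part j hj _)

lemma int_lower (p q : E) :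
    ENNReal.ofReal (dist p q / (2 * (2 * D.R' + 2))) ≤ kobayashiDist (Om D X) p q :=
  kobayashi_ge (Om_open D X) (by have := D.R'_pos; positivity) (fun x hx => Om_norm D X hx) p q

lemma int_no_limit (y : E) (hy : y ∈ Om D X) :
    ¬ Tendsto (fun i => kobayashiDist (Om D X) (pt i) y) atTop (𝓝 0) := by
  intro hlim
  have hR := D.R'_pos
  have h1 : Tendsto (fun i => ENNReal.ofReal (dist (pt i) y / (2 * (2 * D.R' + 2)))) atTop
      (𝓝 0) :=
    tendsto_of_tendsto_of_tendsto_of_le_of_le tendsto_const_nhds hlim (fun _ => bot_le)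
      (fun i => int_lower D X (pt i) y)
  have h2 : Tendsto (fun i => dist (pt i) y / (2 * (2 * D.R' + 2))) atTop (𝓝 0) := by
    have := (ENNReal.tendsto_toReal ENNReal.zero_ne_top).comp h1
    simp only [ENNReal.toReal_zero] at this
    refine this.congr fun i => ?_
    simp only [Function.comp_apply]
    rw [ENNReal.toReal_ofReal (by positivity)]
  have h3 : Tendsto (fun i => dist (pt i) y) atTop (𝓝 0) := by
    have := h2.mul_const (2 * (2 * D.R' + 2))
    rw [zero_mul] at this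
    refine this.congr fun i => ?_
    field_simp
  have h4 : Tendsto pt atTop (𝓝 y) := tendsto_iff_dist_tendsto_zero.2 h3
  have h5 := tendsto_nhds_unique pt_tendsto h4
  exact pinf_not_mem D X (h5 ▸ hy)

end domain

end Pool.Agent.Kob
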