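import Pool.Agent.Kob.Dom

set_option autoImplicit false

namespace Pool.Agent.Kob

open Filter Topology

/-- the set of lengths of chains of discs, as in the frozen statement -/
def chainSet (Ω : Set E) (p q : E) : Set ℝ :=
  {s : ℝ | ∃ (m : ℕ) (z : Fin (m + 1) → EuclideanSpace ℂ (Fin 4))
        (f : Fin m → ℂ → EuclideanSpace ℂ (Fin 4)) (b : Fin m → ℂ),
        z 0 = p ∧ z (Fin.last m) = q ∧
        (∀ j, DifferentiableOn ℂ (f j) (Metric.ball (0 : ℂ) 1) ∧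
              Set.MapsTo (f j) (Metric.ball (0 : ℂ) 1) Ω ∧
              ‖b j‖ < 1 ∧ f j 0 = z (Fin.castSucc j) ∧ f j (b j) = z (Fin.succ j)) ∧
        s = ∑ j, Real.log ((1 + ‖b j‖) / (1 - ‖b j‖))}

/-- one step of a chain -/
def Step (Ω : Set E) (p q : E) (b : ℂ) : Prop :=
  ∃ f : ℂ → E, DifferentiableOn ℂ f (Metric.ball (0 : ℂ) 1) ∧
    Set.MapsTo f (Metric.ball (0 : ℂ) 1) Ω ∧ ‖b‖ < 1 ∧ f 0 = p ∧ f b = q

lemma chain_refl (Ω : Set E) (p : E) : (0 : ℝ) ∈ chainSet Ω p p :=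
  ⟨0, fun _ => p, Fin.elim0, Fin.elim0, rfl, rfl, fun j => j.elim0, by simp⟩

lemma chain_snoc {Ω : Set E} {p q r : E} {s : ℝ} {b : ℂ} (hs : s ∈ chainSet Ω p q)
    (h : Step Ω q r b) : s + Real.log ((1 + ‖b‖) / (1 - ‖b‖)) ∈ chainSet Ω p r := by
  obtain ⟨m, z, f, c, h0, hl, hj, hsum⟩ := hs
  obtain ⟨g, hg1, hg2, hb, hg3, hg4⟩ := h
  refine ⟨m + 1, Fin.snoc (α := fun _ => E) z r, Fin.snoc (α := fun _ => ℂ → E) f g,
    Fin.snoc (α := fun _ => ℂ) c b, ?_, ?_, ?_, ?_⟩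
  · have : (0 : Fin (m + 2)) = Fin.castSucc 0 := rfl
    rw [this, Fin.snoc_castSucc, h0]
  · exact Fin.snoc_last (α := fun _ => E) r z
  · intro j
    refine Fin.lastCases ?_ (fun i => ?_) j
    · rw [Fin.snoc_last, Fin.snoc_last, Fin.snoc_castSucc, Fin.succ_last, Fin.snoc_last, hl]
      exact ⟨hg1, hg2, hb, hg3, hg4⟩
    · have e : (Fin.succ (Fin.castSucc i) : Fin (m + 2)) = Fin.castSucc (Fin.succ i) := by
        ext; simp
      rw [Fin.snoc_castSucc, Fin.snoc_castSucc, Fin.snoc_castSucc, e, Fin.snoc_castSucc]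
      exact hj i
  · rw [Fin.sum_univ_castSucc]
    simp only [Fin.snoc_castSucc, Fin.snoc_last]
    rw [hsum]

lemma log_ge {β : ℝ} (h0 : 0 ≤ β) (h1 : β < 1) : β ≤ Real.log ((1 + β) / (1 - β)) := by
  have hpos : 0 < (1 - β) / (1 + β) := div_pos (by linarith) (by linarith)
  have h2 := Real.log_le_sub_one_of_pos hpos
  have h3 : Real.log ((1 + β) / (1 - β)) = - Real.log ((1 - β) / (1 + β)) := by
    rw [← Real.log_inv, inv_div]
  have h4 : (1 - β) / (1 + β) - 1 ≤ -β := by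
    rw [div_sub_one (by linarith : (1 + β) ≠ 0), div_le_iff₀ (by linarith)]
    nlinarith
  linarith

lemma log_le {β : ℝ} (h0 : 0 ≤ β) (h1 : β ≤ 1 / 2) : Real.log ((1 + β) / (1 - β)) ≤ 4 * β := by
  have hpos : 0 < (1 + β) / (1 - β) := div_pos (by linarith) (by linarith)
  have h2 := Real.log_le_sub_one_of_pos hpos
  have h4 : (1 + β) / (1 - β) - 1 ≤ 4 * β := by
    rw [div_sub_one (by linarith : (1 - β) ≠ 0), div_le_iff₀ (by linarith)]
    nlinarith
  linarith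

lemma chain_nonneg {Ω : Set E} {p q : E} {s : ℝ} (hs : s ∈ chainSet Ω p q) : 0 ≤ s := by
  obtain ⟨m, z, f, c, h0, hl, hj, hsum⟩ := hs
  rw [hsum]
  apply Finset.sum_nonneg
  intro j _
  exact (norm_nonneg _).trans (log_ge (norm_nonneg _) (hj j).2.2.1)

lemma chain_bddBelow (Ω : Set E) (p q : E) : BddBelow (chainSet Ω p q) :=
  ⟨0, fun _ hs => chain_nonneg hs⟩

lemma step_dist {Ω : Set E} {M : ℝ} (hM : ∀ x ∈ Ω, ‖x‖ < M) {f : ℂ → E} {b : ℂ}
    (h1 : DifferentiableOn ℂ f (Metric.ball (0 : ℂ) 1))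
    (h2 : Set.MapsTo f (Metric.ball (0 : ℂ) 1) Ω) (hb : ‖b‖ < 1) :
    dist (f 0) (f b) ≤ 2 * M * ‖b‖ := by
  have hmaps : Set.MapsTo f (Metric.ball (0 : ℂ) 1) (Metric.closedBall (f 0) (2 * M)) := by
    intro ζ hζ
    rw [Metric.mem_closedBall, dist_eq_norm]
    have a1 := hM _ (h2 hζ)
    have a2 := hM _ (h2 (Metric.mem_ball_self (by norm_num) : (0 : ℂ) ∈ Metric.ball (0 : ℂ) 1))
    calc ‖f ζ - f 0‖ ≤ ‖f ζ‖ + ‖f 0‖ := norm_sub_le _ _
      _ ≤ 2 * M := by linarith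
  have := Complex.dist_le_div_mul_dist_of_mapsTo_ball h1 hmaps (z := b) (by simpa using hb)
  rw [dist_comm]
  simpa using this

lemma chain_dist_aux {Ω : Set E} {M : ℝ} (hM : ∀ x ∈ Ω, ‖x‖ < M) :
    ∀ (m : ℕ) (z : Fin (m + 1) → EuclideanSpace ℂ (Fin 4))
        (f : Fin m → ℂ → EuclideanSpace ℂ (Fin 4)) (b : Fin m → ℂ),
        (∀ j, DifferentiableOn ℂ (f j) (Metric.ball (0 : ℂ) 1) ∧
              Set.MapsTo (f j) (Metric.ball (0 : ℂ) 1) Ω ∧
              ‖b j‖ < 1 ∧ f j 0 = z (Fin.castSucc j) ∧ f j (b j) = z (Fin.succ j)) →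
        dist (z 0) (z (Fin.last m)) ≤ ∑ j, 2 * M * ‖b j‖ := by
  intro m
  induction m with
  | zero =>
    intro z f b _
    simp
  | succ m ih =>
    intro z f b h
    have h1 := ih (fun i => z (Fin.castSucc i)) (fun i => f (Fin.castSucc i))
      (fun i => b (Fin.castSucc i)) (fun j => by
        have := h (Fin.castSucc j)
        simpa using this)
    have h2 := h (Fin.last m)
    have h3 : dist (z (Fin.castSucc (Fin.last m))) (z (Fin.last (m + 1)))
        ≤ 2 * M * ‖b (Fin.last m)‖ := by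
      have := step_dist hM h2.1 h2.2.1 h2.2.2.1
      rw [h2.2.2.2.1, h2.2.2.2.2, Fin.succ_last] at this
      exact this
    rw [Fin.sum_univ_castSucc]
    calc dist (z 0) (z (Fin.last (m + 1)))
        ≤ dist (z 0) (z (Fin.castSucc (Fin.last m)))
          + dist (z (Fin.castSucc (Fin.last m))) (z (Fin.last (m + 1))) := dist_triangle _ _ _
      _ ≤ _ := add_le_add h1 h3

lemma chain_dist {Ω : Set E} {M : ℝ} (hM0 : 0 < M) (hM : ∀ x ∈ Ω, ‖x‖ < M) {p q : E} {s : ℝ}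
    (hs : s ∈ chainSet Ω p q) : dist p q ≤ 2 * M * s := by
  obtain ⟨m, z, f, c, h0, hl, hj, hsum⟩ := hs
  have h := chain_dist_aux hM m z f c hj
  rw [h0, hl] at h
  refine h.trans ?_
  rw [hsum, Finset.mul_sum]
  apply Finset.sum_le_sum
  intro j _
  exact mul_le_mul_of_nonneg_left (log_ge (norm_nonneg _) (hj j).2.2.1) (by positivity)

/-- any two points of a connected open set are joined by a chain -/
lemma chain_exists {Ω : Set E} (ho : IsOpen Ω) (hc : IsConnected Ω) {p q : E} (hp : p ∈ Ω)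
    (hq : q ∈ Ω) : (chainSet Ω p q).Nonempty := by
  have key : ∀ x y : E, (∃ r > 0, Metric.ball x r ⊆ Ω ∧ dist y x < r / 2) → Step Ω x y (1 / 2) := by
    rintro x y ⟨r, hr, hball, hy⟩
    refine ⟨fun ζ => x + (2 * ζ) • (y - x), ?_, ?_, ?_, ?_, ?_⟩
    · apply Differentiable.differentiableOn
      fun_prop
    · intro ζ hζ
      apply hball
      rw [Metric.mem_ball, dist_eq_norm]
      have : x + (2 * ζ) • (y - x) - x = (2 * ζ) • (y - x) := by abel
      rw [this, norm_smul, norm_mul]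
      rw [dist_eq_norm] at hy
      have hζ' : ‖ζ‖ < 1 := by simpa using hζ
      have h2 : ‖(2 : ℂ)‖ = 2 := by simp
      rw [h2]
      nlinarith [norm_nonneg (y - x), norm_nonneg ζ]
    · norm_num
    · simp
    · simp
  have hind := hc.isPreconnected.induction₂'
    (fun x y => (chainSet Ω p x).Nonempty → (chainSet Ω p y).Nonempty) ?_ ?_ hp hq
  · exact hind ⟨0, chain_refl Ω p⟩
  · intro x hx
    obtain ⟨r, hr, hball⟩ := Metric.isOpen_iff.1 ho x hx
    have hmem : Metric.ball x (r / 4) ∈ 𝓝 x := Metric.ball_mem_nhds x (by positivity)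
    filter_upwards [mem_nhdsWithin_of_mem_nhds hmem] with y hy
    have hy' : dist y x < r / 4 := hy
    constructor
    · rintro ⟨s, hs⟩
      exact ⟨_, chain_snoc hs (key x y ⟨r, hr, hball, by linarith⟩)⟩
    · rintro ⟨s, hs⟩
      refine ⟨_, chain_snoc hs (key y x ⟨r / 2, by positivity, ?_, ?_⟩)⟩
      · intro w hw
        apply hball
        have : dist w x ≤ dist w y + dist y x := dist_triangle _ _ _
        have hw' : dist w y < r / 2 := hw
        rw [Metric.mem_ball]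
        linarith
      · rw [dist_comm]
        linarith
  · intro x y z _ _ _ h1 h2 h3
    exact h2 (h1 h3)

/-! ### The path -/

/-- the points of the sequence -/
noncomputable def pt (t : ℕ) : E :=
  WithLp.toLp 2 fun c : Fin 4 => if c = 3 then 1 else ((1 / 2 : ℂ)) ^ (t + ((c.val + 2 * t) % 3))

lemma pt_apply (t : ℕ) (c : Fin 4) :
    pt t c = if c = 3 then 1 else ((1 / 2 : ℂ)) ^ (t + ((c.val + 2 * t) % 3)) := rfl

@[simp] lemma pt_3 (t : ℕ) : pt t 3 = 1 := by simp [pt_apply]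

lemma idx_ne (t : ℕ) : idx t ≠ 3 := by
  intro h
  have := congrArg Fin.val h
  simp only [idx] at this
  have h3 : ((3 : Fin 4) : ℕ) = 3 := rfl
  omega

lemma idx_val (t : ℕ) : (idx t : ℕ) = t % 3 := rfl

lemma pt_idx0 (t : ℕ) : pt t (idx t) = (1 / 2) ^ t := by
  rw [pt_apply, if_neg (idx_ne t), idx_val]
  congr 1
  omega

lemma pt_idx1 (t : ℕ) : pt t (idx (t + 1)) = (1 / 2) ^ (t + 1) := by
  rw [pt_apply, if_neg (idx_ne _), idx_val]
  congr 1
  omega

lemma pt_idx2 (t : ℕ) : pt t (idx (t + 2)) = (1 / 2) ^ (t + 2) := by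
  rw [pt_apply, if_neg (idx_ne _), idx_val]
  congr 1
  omega

lemma idx_add3 (t : ℕ) : idx (t + 3) = idx t := by
  unfold idx
  congr 1
  omega

lemma idx01 (t : ℕ) : idx (t + 1) ≠ idx t := by
  intro h
  have := congrArg Fin.val h
  rw [idx_val, idx_val] at this
  omega

lemma idx02 (t : ℕ) : idx (t + 2) ≠ idx t := by
  intro h
  have := congrArg Fin.val h
  rw [idx_val, idx_val] at this
  omega

lemma idx_cover (t : ℕ) (c : Fin 4) : c = 3 ∨ c = idx t ∨ c = idx (t + 1) ∨ c = idx (t + 2) := by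
  have h : t % 3 = 0 ∨ t % 3 = 1 ∨ t % 3 = 2 := by omega
  have e0 : (idx t : ℕ) = t % 3 := rfl
  have e1 : (idx (t + 1) : ℕ) = (t + 1) % 3 := rfl
  have e2 : (idx (t + 2) : ℕ) = (t + 2) % 3 := rfl
  have h3 : ((3 : Fin 4) : ℕ) = 3 := rfl
  simp only [Fin.ext_iff, e0, e1, e2, h3]
  have := c.isLt
  omega

lemma wsq_idx (t : ℕ) (x : E) :
    wsq x = ‖x (idx t)‖ ^ 2 + ‖x (idx (t + 1))‖ ^ 2 + ‖x (idx (t + 2))‖ ^ 2 := by
  have h : t % 3 = 0 ∨ t % 3 = 1 ∨ t % 3 = 2 := by omega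
  unfold wsq
  rcases h with h | h | h
  · have e0 : idx t = 0 := by ext; rw [idx_val, h]; rfl
    have e1 : idx (t + 1) = 1 := by ext; rw [idx_val, (by omega : (t + 1) % 3 = 1)]; rfl
    have e2 : idx (t + 2) = 2 := by ext; rw [idx_val, (by omega : (t + 2) % 3 = 2)]; rfl
    rw [e0, e1, e2]
  · have e0 : idx t = 1 := by ext; rw [idx_val, h]; rfl
    have e1 : idx (t + 1) = 2 := by ext; rw [idx_val, (by omega : (t + 1) % 3 = 2)]; rfl
    have e2 : idx (t + 2) = 0 := by ext; rw [idx_val, (by omega : (t + 2) % 3 = 0)]; rfl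
    rw [e0, e1, e2]; ring
  · have e0 : idx t = 2 := by ext; rw [idx_val, h]; rfl
    have e1 : idx (t + 1) = 0 := by ext; rw [idx_val, (by omega : (t + 1) % 3 = 0)]; rfl
    have e2 : idx (t + 2) = 1 := by ext; rw [idx_val, (by omega : (t + 2) % 3 = 1)]; rfl
    rw [e0, e1, e2]; ring

section path

variable (D : Data) (X : Chi)

/-- points of the big discs lie in the domain -/
lemma mem_Om_of_disc {t : ℕ} {x : E} (h1 : x (idx (t + 1)) = (1 / 2) ^ (t + 1))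
    (h2 : x (idx (t + 2)) = (1 / 2) ^ (t + 2))
    (h0 : ‖x (idx t)‖ < (2 : ℝ) ^ (D.W t) * (1 / 2) ^ t) (h3 : x 3 = 1) : x ∈ Om D X := by
  have hu := D.neg t x h1 h2 h0
  have hR := D.R_ge t
  have hRpos := D.R_pos
  have n1 : ‖x (idx (t + 1))‖ ^ 2 ≤ 1 / 4 := by
    rw [h1, norm_pow]
    have : ‖(1 / 2 : ℂ)‖ = 1 / 2 := by simp
    rw [this, ← pow_mul]
    calc ((1 : ℝ) / 2) ^ ((t + 1) * 2) ≤ (1 / 2) ^ 2 :=
          pow_le_pow_of_le_one (by norm_num) (by norm_num) (by omega)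
      _ = 1 / 4 := by norm_num
  have n2 : ‖x (idx (t + 2))‖ ^ 2 ≤ 1 / 4 := by
    rw [h2, norm_pow]
    have : ‖(1 / 2 : ℂ)‖ = 1 / 2 := by simp
    rw [this, ← pow_mul]
    calc ((1 : ℝ) / 2) ^ ((t + 2) * 2) ≤ (1 / 2) ^ 2 :=
          pow_le_pow_of_le_one (by norm_num) (by norm_num) (by omega)
      _ = 1 / 4 := by norm_num
  have n0 : ‖x (idx t)‖ ^ 2 ≤ D.R ^ 2 := by
    apply pow_le_pow_left₀ (norm_nonneg _)
    linarith
  have hw : wsq x ≤ D.R' ^ 2 := by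
    rw [wsq_idx t]
    unfold Data.R'
    nlinarith
  have hχ : X.χ (wsq x * (1 / D.R' ^ 2) - 1) = 0 := by
    apply X.zero
    have hR' := D.R'_pos
    have : wsq x * (1 / D.R' ^ 2) ≤ D.R' ^ 2 * (1 / D.R' ^ 2) :=
      mul_le_mul_of_nonneg_right hw (by positivity)
    have e : D.R' ^ 2 * (1 / D.R' ^ 2) = 1 := by field_simp
    linarith
  show rho D X x < 0
  unfold rho
  rw [hχ, h3]
  have := mul_neg_of_pos_of_neg D.δ_pos hu
  norm_num
  exact this

/-- radius of the discs used in the chain -/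
noncomputable def rad (t : ℕ) : ℝ := (2 : ℝ) ^ (D.W t) * (1 / 2) ^ t / 2

lemma rad_pos (t : ℕ) : 0 < rad D t := by unfold rad; positivity

lemma pow_le_rad (t : ℕ) : (1 / 2 : ℝ) ^ t ≤ rad D t := by
  unfold rad
  have h1 : (2 : ℝ) ≤ 2 ^ (D.W t) := by
    calc (2 : ℝ) = 2 ^ 1 := by norm_num
      _ ≤ 2 ^ (D.W t) := pow_le_pow_right₀ (by norm_num) (by have := D.W_ge t; omega)
  have h2 : (0 : ℝ) < (1 / 2) ^ t := by positivity
  nlinarith

/-- the common disc -/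
noncomputable def disc (p : E) (t : ℕ) (ζ : ℂ) : E :=
  p + ((rad D t : ℂ) * ζ) • EuclideanSpace.single (idx t) (1 : ℂ)

lemma disc_same (p : E) (t : ℕ) (ζ : ℂ) : disc D p t ζ (idx t) = p (idx t) + rad D t * ζ := by
  simp [disc]

lemma disc_ne (p : E) (t : ℕ) (ζ : ℂ) {c : Fin 4} (hc : c ≠ idx t) : disc D p t ζ c = p c := by
  simp [disc, hc]

lemma pt_succ_same (t : ℕ) : pt (t + 1) (idx t) = (1 / 2) ^ (t + 3) := by
  have := pt_idx2 (t + 1)
  rw [show t + 1 + 2 = t + 3 from by ring, idx_add3] at this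
  exact this

lemma step_common (t : ℕ) (p q : E) (hp1 : p (idx (t + 1)) = (1 / 2) ^ (t + 1))
    (hp2 : p (idx (t + 2)) = (1 / 2) ^ (t + 2)) (hp3 : p 3 = 1)
    (hp0 : ‖p (idx t)‖ ≤ (1 / 2 : ℝ) ^ t)
    (hq1 : q (idx (t + 1)) = (1 / 2) ^ (t + 1))
    (hq2 : q (idx (t + 2)) = (1 / 2) ^ (t + 2)) (hq3 : q 3 = 1)
    (hpq : ‖q (idx t) - p (idx t)‖ ≤ (1 / 2 : ℝ) ^ t) :
    ∃ b : ℂ, Step (Om D X) p q b ∧ ‖b‖ ≤ 2 * (1 / 2 : ℝ) ^ (D.W t) := by
  have hr := rad_pos D t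
  have hb : ‖(q (idx t) - p (idx t)) / (rad D t : ℂ)‖ ≤ 2 * (1 / 2 : ℝ) ^ (D.W t) := by
    rw [norm_div, Complex.norm_real, Real.norm_of_nonneg hr.le, div_le_iff₀ hr]
    refine hpq.trans (le_of_eq ?_)
    unfold rad
    have : (1 / 2 : ℝ) ^ (D.W t) * 2 ^ (D.W t) = 1 := by
      rw [← mul_pow]; norm_num
    calc (1 / 2 : ℝ) ^ t = ((1 / 2 : ℝ) ^ (D.W t) * 2 ^ (D.W t)) * (1 / 2) ^ t := by rw [this]; ring
      _ = _ := by ring
  refine ⟨(q (idx t) - p (idx t)) / (rad D t : ℂ), ⟨disc D p t, ?_, ?_, ?_, ?_, ?_⟩, hb⟩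
  · apply Differentiable.differentiableOn
    unfold disc
    fun_prop
  · intro ζ hζ
    have hζ' : ‖ζ‖ < 1 := by simpa using hζ
    apply mem_Om_of_disc D X (t := t)
    · rw [disc_ne D _ _ _ (idx01 t), hp1]
    · rw [disc_ne D _ _ _ (idx02 t), hp2]
    · rw [disc_same]
      calc ‖p (idx t) + (rad D t : ℂ) * ζ‖ ≤ ‖p (idx t)‖ + ‖(rad D t : ℂ) * ζ‖ := norm_add_le _ _
        _ < (1 / 2 : ℝ) ^ t + rad D t := by
            rw [norm_mul, Complex.norm_real, Real.norm_of_nonneg hr.le]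
            nlinarith [norm_nonneg ζ]
        _ ≤ rad D t + rad D t := by linarith [pow_le_rad D t]
        _ = _ := by unfold rad; ring
    · rw [disc_ne D _ _ _ (idx_ne t).symm, hp3]
  · refine lt_of_le_of_lt hb ?_
    have h4 : (1 / 2 : ℝ) ^ (D.W t) ≤ (1 / 2) ^ 4 :=
      pow_le_pow_of_le_one (by norm_num) (by norm_num) (D.W_ge t)
    norm_num at h4 ⊢
    linarith
  · simp [disc]
  · have hr' : (rad D t : ℂ) ≠ 0 := by exact_mod_cast hr.ne'
    ext c
    rcases idx_cover t c with h | h | h | h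
    · rw [h, disc_ne D _ _ _ (idx_ne t).symm, hp3, hq3]
    · rw [h, disc_same]
      field_simp
      ring
    · rw [h, disc_ne D _ _ _ (idx01 t), hp1, hq1]
    · rw [h, disc_ne D _ _ _ (idx02 t), hp2, hq2]

lemma step_fwd (t : ℕ) :
    ∃ b : ℂ, Step (Om D X) (pt t) (pt (t + 1)) b ∧ ‖b‖ ≤ 2 * (1 / 2 : ℝ) ^ (D.W t) := by
  have hnorm : ‖(1 / 2 : ℂ)‖ = 1 / 2 := by simp
  apply step_common D X t
  · exact pt_idx1 t
  · exact pt_idx2 t
  · simp
  · rw [pt_idx0, norm_pow, hnorm]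
  · exact pt_idx0 (t + 1)
  · exact pt_idx1 (t + 1)
  · simp
  · rw [pt_idx0, pt_succ_same]
    have e : (1 / 2 : ℂ) ^ (t + 3) - (1 / 2) ^ t = (1 / 2) ^ t * (-(7 / 8)) := by
      rw [pow_add]; ring
    rw [e, norm_mul, norm_pow, hnorm]
    have : ‖(-(7 / 8) : ℂ)‖ = 7 / 8 := by simp
    rw [this]
    have : (0 : ℝ) < (1 / 2) ^ t := by positivity
    nlinarith

lemma step_bwd (t : ℕ) :
    ∃ b : ℂ, Step (Om D X) (pt (t + 1)) (pt t) b ∧ ‖b‖ ≤ 2 * (1 / 2 : ℝ) ^ (D.W t) := by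
  have hnorm : ‖(1 / 2 : ℂ)‖ = 1 / 2 := by simp
  apply step_common D X t
  · exact pt_idx0 (t + 1)
  · exact pt_idx1 (t + 1)
  · simp
  · rw [pt_succ_same, norm_pow, hnorm]
    exact pow_le_pow_of_le_one (by norm_num) (by norm_num) (by omega)
  · exact pt_idx1 t
  · exact pt_idx2 t
  · simp
  · rw [pt_idx0, pt_succ_same]
    have e : (1 / 2 : ℂ) ^ t - (1 / 2) ^ (t + 3) = (1 / 2) ^ t * (7 / 8) := by
      rw [pow_add]; ring
    rw [e, norm_mul, norm_pow, hnorm]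
    have : ‖((7 / 8) : ℂ)‖ = 7 / 8 := by simp
    rw [this]
    have : (0 : ℝ) < (1 / 2) ^ t := by positivity
    nlinarith

lemma pt_mem (t : ℕ) : pt t ∈ Om D X := by
  obtain ⟨b, ⟨f, _, h2, _, h4, _⟩, _⟩ := step_fwd D X t
  rw [← h4]
  exact h2 (by simp)

/-- cost of a step -/
noncomputable def cost (t : ℕ) : ℝ := 8 * (1 / 2 : ℝ) ^ (D.W t)

lemma cost_nonneg (t : ℕ) : 0 ≤ cost D t := by unfold cost; positivity

lemma log_le_cost {t : ℕ} {b : ℂ} (hb : ‖b‖ ≤ 2 * (1 / 2 : ℝ) ^ (D.W t)) :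
    Real.log ((1 + ‖b‖) / (1 - ‖b‖)) ≤ cost D t := by
  have h4 : (1 / 2 : ℝ) ^ (D.W t) ≤ (1 / 2) ^ 4 :=
    pow_le_pow_of_le_one (by norm_num) (by norm_num) (D.W_ge t)
  have h5 : ‖b‖ ≤ 1 / 2 := by
    norm_num at h4 ⊢
    linarith
  have := log_le (norm_nonneg b) h5
  unfold cost
  linarith

lemma chain_fwd (i n : ℕ) :
    ∃ s ∈ chainSet (Om D X) (pt i) (pt (i + n)), s ≤ ∑ k ∈ Finset.range n, cost D (i + k) := by
  induction n with
  | zero => exact ⟨0, chain_refl _ _, by simp⟩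
  | succ n ih =>
    obtain ⟨s, hs, hle⟩ := ih
    obtain ⟨b, hb, hb2⟩ := step_fwd D X (i + n)
    refine ⟨_, chain_snoc hs hb, ?_⟩
    rw [Finset.sum_range_succ]
    exact add_le_add hle (log_le_cost D hb2)

lemma chain_bwd (i n : ℕ) :
    ∃ s ∈ chainSet (Om D X) (pt (i + n)) (pt i), s ≤ ∑ k ∈ Finset.range n, cost D (i + k) := by
  induction n generalizing i with
  | zero => exact ⟨0, chain_refl _ _, by simp⟩
  | succ n ih =>
    obtain ⟨s, hs, hle⟩ := ih (i + 1)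
    obtain ⟨b, hb, hb2⟩ := step_bwd D X i
    have e : i + 1 + n = i + (n + 1) := by ring
    rw [e] at hs
    refine ⟨_, chain_snoc hs hb, ?_⟩
    rw [Finset.sum_range_succ']
    have : ∀ k, i + 1 + k = i + (k + 1) := fun k => by ring
    simp only [this] at hle
    exact add_le_add hle (by simpa using log_le_cost D hb2)

/-- the Kobayashi distance of the domain, in the chain form of the frozen statement -/
noncomputable def kob (p q : E) : ℝ := sInf (chainSet (Om D X) p q)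

lemma cost_summable : Summable (cost D) := D.W_sum.mul_left 8

lemma kob_cauchy : ∀ ε > 0, ∃ N : ℕ, ∀ i ≥ N, ∀ j ≥ N, kob D X (pt i) (pt j) < ε := by
  intro ε hε
  have hs := cost_summable D
  have hlim := hs.hasSum.tendsto_sum_nat
  obtain ⟨N, hN⟩ := (hlim.eventually (lt_mem_nhds (by linarith : (∑' k, cost D k) - ε < ∑' k, cost D k))).exists
  have part : ∀ i ≥ N, ∀ n, ∑ k ∈ Finset.range n, cost D (i + k) < ε := by
    intro i hi n
    have h1 : ∑ k ∈ Finset.range (i + n), cost D k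
        = ∑ k ∈ Finset.range i, cost D k + ∑ k ∈ Finset.range n, cost D (i + k) :=
      Finset.sum_range_add _ _ _
    have h2 : ∑ k ∈ Finset.range (i + n), cost D k ≤ ∑' k, cost D k :=
      hs.sum_le_tsum _ (fun k _ => cost_nonneg D k)
    have h3 : ∑ k ∈ Finset.range N, cost D k ≤ ∑ k ∈ Finset.range i, cost D k :=
      Finset.sum_le_sum_of_subset_of_nonneg (by
        intro k hk
        rw [Finset.mem_range] at hk ⊢
        omega) (fun k _ _ => cost_nonneg D k)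
    linarith
  refine ⟨N, fun i hi j hj => ?_⟩
  rcases le_total i j with h | h
  · obtain ⟨n, rfl⟩ := Nat.exists_eq_add_of_le h
    obtain ⟨s, hs1, hs2⟩ := chain_fwd D X i n
    exact lt_of_le_of_lt (csInf_le (chain_bddBelow _ _ _) hs1) (lt_of_le_of_lt hs2 (part i hi n))
  · obtain ⟨n, rfl⟩ := Nat.exists_eq_add_of_le h
    obtain ⟨s, hs1, hs2⟩ := chain_bwd D X j n
    exact lt_of_le_of_lt (csInf_le (chain_bddBelow _ _ _) hs1) (lt_of_le_of_lt hs2 (part j hj n))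

lemma kob_lower {p q : E} (hp : p ∈ Om D X) (hq : q ∈ Om D X) :
    dist p q ≤ 2 * (2 * D.R' + 2) * kob D X p q := by
  have hR := D.R'_pos
  have hM : ∀ x ∈ Om D X, ‖x‖ < 2 * D.R' + 2 := fun x hx => Om_norm D X hx
  have hne := chain_exists (Om_open D X) (Om_connected D X) hp hq
  have h : dist p q / (2 * (2 * D.R' + 2)) ≤ kob D X p q := by
    apply le_csInf hne
    intro s hs
    rw [div_le_iff₀ (by positivity)]
    have := chain_dist (by positivity) hM hs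
    linarith
  rw [div_le_iff₀ (by positivity)] at h
  linarith

/-- the limit of the sequence -/
noncomputable def pinf : E := EuclideanSpace.single 3 (1 : ℂ)

lemma pt_tendsto : Tendsto pt atTop (𝓝 pinf) := by
  rw [tendsto_iff_dist_tendsto_zero]
  have hb : ∀ t, dist (pt t) pinf ≤ 2 * (1 / 2 : ℝ) ^ t := by
    intro t
    rw [dist_eq_norm]
    have h3 : (pt t - pinf) 3 = 0 := by simp [pinf]
    have hc : ∀ c : Fin 4, c ≠ 3 → ‖(pt t - pinf) c‖ ≤ (1 / 2 : ℝ) ^ t := by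
      intro c hc
      have e : (pt t - pinf) c = (1 / 2 : ℂ) ^ (t + ((c.val + 2 * t) % 3)) := by
        simp [pinf, pt_apply, hc]
      rw [e, norm_pow]
      have : ‖(1 / 2 : ℂ)‖ = 1 / 2 := by simp
      rw [this]
      exact pow_le_pow_of_le_one (by norm_num) (by norm_num) (by omega)
    have hsq : ‖pt t - pinf‖ ^ 2 ≤ (2 * (1 / 2 : ℝ) ^ t) ^ 2 := by
      rw [norm_sq_eq, h3]
      unfold wsq
      have a0 := pow_le_pow_left₀ (norm_nonneg _) (hc 0 (by decide)) 2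
      have a1 := pow_le_pow_left₀ (norm_nonneg _) (hc 1 (by decide)) 2
      have a2 := pow_le_pow_left₀ (norm_nonneg _) (hc 2 (by decide)) 2
      simp only [norm_zero]
      nlinarith [sq_nonneg ((1 / 2 : ℝ) ^ t)]
    exact le_of_sq_le_sq hsq (by positivity)
  refine squeeze_zero (fun _ => dist_nonneg) hb ?_
  have := (tendsto_pow_atTop_nhds_zero_of_lt_one (r := (1 / 2 : ℝ)) (by norm_num) (by norm_num)).const_mul 2
  simpa using this

lemma pinf_not_mem : pinf ∉ Om D X := by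
  intro h
  have h' : rho D X pinf < 0 := h
  have e : ∀ c : Fin 4, c ≠ 3 → pinf c = 0 := by
    intro c hc
    simp [pinf, hc]
  have hu : D.u pinf = 0 := by
    rw [D.indep pinf 0 (e 0 (by decide)) (e 1 (by decide)) (e 2 (by decide)), D.zero]
  unfold rho wsq at h'
  rw [e 0 (by decide), e 1 (by decide), e 2 (by decide), hu, X.zero _ (by simp)] at h'
  simp [pinf] at h'

include D X in
/-- **Reduction**: from the analytic data to the negative answer. -/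
theorem main_of_data :
    ¬ (∀ (n : ℕ) (Ω : Set (EuclideanSpace ℂ (Fin n))) (ρ : EuclideanSpace ℂ (Fin n) → ℝ),
    Bornology.IsBounded Ω → IsConnected Ω →
    ContDiff ℝ ((⊤ : ℕ∞) : WithTop ℕ∞) ρ → Ω = {z | ρ z < 0} →
    (∀ p, ρ p = 0 → fderiv ℝ ρ p ≠ 0) →
    (∀ (p w : EuclideanSpace ℂ (Fin n)), ρ p = 0 → fderiv ℝ ρ p w = 0 →
       fderiv ℝ ρ p (Complex.I • w) = 0 →
       0 ≤ fderiv ℝ (fderiv ℝ ρ) p w w
             + fderiv ℝ (fderiv ℝ ρ) p (Complex.I • w) (Complex.I • w)) →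
    ∀ k : EuclideanSpace ℂ (Fin n) → EuclideanSpace ℂ (Fin n) → ℝ,
    (∀ p q, k p q = sInf {s : ℝ | ∃ (m : ℕ) (z : Fin (m + 1) → EuclideanSpace ℂ (Fin n))
        (f : Fin m → ℂ → EuclideanSpace ℂ (Fin n)) (b : Fin m → ℂ),
        z 0 = p ∧ z (Fin.last m) = q ∧
        (∀ j, DifferentiableOn ℂ (f j) (Metric.ball (0 : ℂ) 1) ∧
              Set.MapsTo (f j) (Metric.ball (0 : ℂ) 1) Ω ∧
              ‖b j‖ < 1 ∧ f j 0 = z (Fin.castSucc j) ∧ f j (b j) = z (Fin.succ j)) ∧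
        s = ∑ j, Real.log ((1 + ‖b j‖) / (1 - ‖b j‖))}) →
    ∀ x : ℕ → EuclideanSpace ℂ (Fin n), (∀ i, x i ∈ Ω) →
      (∀ ε > 0, ∃ N : ℕ, ∀ i ≥ N, ∀ j ≥ N, k (x i) (x j) < ε) →
      ∃ y ∈ Ω, Filter.Tendsto (fun i => k (x i) y) Filter.atTop (nhds 0)) := by
  intro h
  obtain ⟨y, hy, hlim⟩ := h 4 (Om D X) (rho D X) (Om_bounded D X) (Om_connected D X)
    (rho_smooth D X) rfl (fun p hp => rho_grad D X hp) (fun p w _ _ _ => rho_levi D X p w)
    (kob D X) (fun p q => rfl) pt (pt_mem D X) (kob_cauchy D X)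
  have h1 : Tendsto (fun i => dist (pt i) y) atTop (𝓝 0) := by
    refine squeeze_zero (fun _ => dist_nonneg)
      (fun i => kob_lower D X (pt_mem D X i) hy) ?_
    have := hlim.const_mul (2 * (2 * D.R' + 2))
    simpa using this
  have h2 : Tendsto pt atTop (𝓝 y) := tendsto_iff_dist_tendsto_zero.2 h1
  have h3 := tendsto_nhds_unique pt_tendsto h2
  exact pinf_not_mem D X (h3 ▸ hy)

end path

end Pool.Agent.Kob
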