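import Pool.Agent.Kob.Defs

set_option autoImplicit false

namespace Pool.Agent.Kob

open Filter Topology Complex

lemma Lev_congr {f g : E → ℝ} {x : E} (w : E) (h : f =ᶠ[𝓝 x] g) : Lev f x w = Lev g x w := by
  unfold Lev
  rw [(h.fderiv (𝕜 := ℝ)).fderiv_eq]

lemma Dsq_congr {f g : E → ℝ} {x : E} (w : E) (h : f =ᶠ[𝓝 x] g) : Dsq f x w = Dsq g x w := by
  unfold Dsq
  rw [h.fderiv_eq]

lemma ev_diff {F : Type*} [NormedAddCommGroup F] [NormedSpace ℝ F] {f : E → F} {x : E}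
    (hf : ContDiffAt ℝ 2 f x) :
    ∀ᶠ y in 𝓝 x, DifferentiableAt ℝ f y := by
  have h := hf.eventually (by simp)
  filter_upwards [h] with y hy
  exact hy.differentiableAt (by simp)

lemma diff_fderiv {F : Type*} [NormedAddCommGroup F] [NormedSpace ℝ F] {f : E → F} {x : E}
    (hf : ContDiffAt ℝ 2 f x) :
    DifferentiableAt ℝ (fderiv ℝ f) x := by
  have h := hf.fderiv_right (m := 1) (by norm_num)
  exact h.differentiableAt (by simp)

lemma Lev_add {f g : E → ℝ} {x : E} (w : E) (hf : ContDiffAt ℝ 2 f x) (hg : ContDiffAt ℝ 2 g x) :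
    Lev (fun y => f y + g y) x w = Lev f x w + Lev g x w := by
  have h1 : fderiv ℝ (fun y => f y + g y) =ᶠ[𝓝 x] fun y => fderiv ℝ f y + fderiv ℝ g y := by
    filter_upwards [ev_diff hf, ev_diff hg] with y h1 h2
    exact fderiv_fun_add h1 h2
  unfold Lev
  rw [h1.fderiv_eq, fderiv_fun_add (diff_fderiv hf) (diff_fderiv hg)]
  simp only [add_apply]
  ring

lemma Lev_const_mul {f : E → ℝ} {x : E} (w : E) (c : ℝ) (hf : ContDiffAt ℝ 2 f x) :
    Lev (fun y => c * f y) x w = c * Lev f x w := by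
  have h1 : fderiv ℝ (fun y => c * f y) =ᶠ[𝓝 x] fun y => c • fderiv ℝ f y := by
    filter_upwards [ev_diff hf] with y h1
    exact fderiv_const_mul h1 c
  unfold Lev
  rw [h1.fderiv_eq, fderiv_fun_const_smul (diff_fderiv hf)]
  simp only [smul_apply, smul_eq_mul]
  ring

lemma Lev_const {x : E} (w : E) (c : ℝ) : Lev (fun _ => c) x w = 0 := by
  unfold Lev
  have : fderiv ℝ (fun _ : E => c) = fun _ => 0 := by
    funext y; simp
  rw [this]
  simp

lemma Lev_sub_const {f : E → ℝ} {x : E} (w : E) (c : ℝ) (hf : ContDiffAt ℝ 2 f x) :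
    Lev (fun y => f y - c) x w = Lev f x w := by
  have : (fun y => f y - c) = fun y => f y + (fun _ => -c) y := by
    funext y; ring
  rw [this, Lev_add w hf contDiffAt_const, Lev_const, add_zero]

lemma Lev_comp {φ : ℝ → ℝ} {f : E → ℝ} {x : E} (w : E)
    (hφ : ContDiffAt ℝ 2 φ (f x)) (hf : ContDiffAt ℝ 2 f x) :
    Lev (fun y => φ (f y)) x w
      = deriv φ (f x) * Lev f x w + deriv (deriv φ) (f x) * Dsq f x w := by
  have hφ1 : ∀ᶠ s in 𝓝 (f x), DifferentiableAt ℝ φ s := by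
    filter_upwards [hφ.eventually (by simp)] with y hy
    exact hy.differentiableAt (by simp)
  have hφ2 : DifferentiableAt ℝ (deriv φ) (f x) := by
    have h := hφ.derivWithin (m := 1) 
    have h2 : DifferentiableAt ℝ (fderiv ℝ φ) (f x) := by
      have h := hφ.fderiv_right (m := 1) (by norm_num)
      exact h.differentiableAt (by simp)
    have h3 : deriv φ = fun s => fderiv ℝ φ s 1 := by
      funext s; exact (fderiv_apply_one_eq_deriv).symm
    rw [h3]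
    exact h2.clm_apply (differentiableAt_const _)
  have h1 : fderiv ℝ (fun y => φ (f y)) =ᶠ[𝓝 x] fun y => deriv φ (f y) • fderiv ℝ f y := by
    filter_upwards [ev_diff hf, hf.continuousAt.eventually hφ1] with y h1 h2
    exact (h2.hasDerivAt.comp_hasFDerivAt y h1.hasFDerivAt).fderiv
  have h2 : fderiv ℝ (fun y => deriv φ (f y)) x = deriv (deriv φ) (f x) • fderiv ℝ f x :=
    (hφ2.hasDerivAt.comp_hasFDerivAt x (hf.differentiableAt (by simp)).hasFDerivAt).fderiv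
  have h3 : DifferentiableAt ℝ (fun y => deriv φ (f y)) x :=
    (hφ2.hasDerivAt.comp_hasFDerivAt x (hf.differentiableAt (by simp)).hasFDerivAt).differentiableAt
  unfold Lev Dsq
  rw [h1.fderiv_eq, fderiv_fun_smul h3 (diff_fderiv hf), h2]
  simp only [add_apply, smul_apply, smul_eq_mul,
    ContinuousLinearMap.smulRight_apply]
  ring

lemma fderiv_normSq {g : E → ℂ} (hg : ContDiff ℂ 2 g) (x v : E) :
    fderiv ℝ (fun y => ‖g y‖ ^ 2) x v = 2 * (inner ℝ (g x) (fderiv ℂ g x v)) := by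
  have h1 : HasFDerivAt g ((fderiv ℂ g x).restrictScalars ℝ) x :=
    ((hg.differentiable (by simp)) x).hasFDerivAt.restrictScalars ℝ
  rw [h1.norm_sq.fderiv]
  simp
  ring

lemma Dsq_normSq {g : E → ℂ} (hg : ContDiff ℂ 2 g) (x w : E) :
    Dsq (fun y => ‖g y‖ ^ 2) x w = 4 * ‖g x‖ ^ 2 * ‖fderiv ℂ g x w‖ ^ 2 := by
  unfold Dsq
  rw [fderiv_normSq hg, fderiv_normSq hg, map_smul]
  generalize g x = a
  generalize fderiv ℂ g x w = b
  rw [Complex.sq_norm, Complex.sq_norm, Complex.normSq_apply, Complex.normSq_apply]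
  simp only [Complex.inner, smul_eq_mul, mul_re, mul_im, conj_re, conj_im, I_re, I_im]
  ring

lemma fderiv_fderiv_real {g : E → ℂ} (hg : ContDiff ℂ 2 g) (x v : E) :
    fderiv ℝ (fderiv ℝ g) x v v = fderiv ℂ (fderiv ℂ g) x v v := by
  have h0 : fderiv ℝ g = fun y => ContinuousLinearMap.restrictScalarsL ℂ E ℂ ℝ ℝ (fderiv ℂ g y) := by
    funext y
    exact ((hg.differentiable (by simp)) y).fderiv_restrictScalars ℝ
  have h1 : DifferentiableAt ℂ (fderiv ℂ g) x := by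
    have h := hg.contDiffAt.fderiv_right (x₀ := x) (m := 1) (by norm_num)
    exact h.differentiableAt (by simp)
  have h2 : HasFDerivAt (fderiv ℂ g) ((fderiv ℂ (fderiv ℂ g) x).restrictScalars ℝ) x :=
    h1.hasFDerivAt.restrictScalars ℝ
  rw [h0]
  have h3 := (ContinuousLinearMap.restrictScalarsL ℂ E ℂ ℝ ℝ).hasFDerivAt.comp x h2
  have h4 : (fun y => ContinuousLinearMap.restrictScalarsL ℂ E ℂ ℝ ℝ (fderiv ℂ g y)) =
    (ContinuousLinearMap.restrictScalarsL ℂ E ℂ ℝ ℝ) ∘ (fderiv ℂ g) := rfl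
  rw [h4, h3.fderiv]
  rfl

lemma Lev_normSq {g : E → ℂ} (hg : ContDiff ℂ 2 g) (x w : E) :
    Lev (fun y => ‖g y‖ ^ 2) x w = 4 * ‖fderiv ℂ g x w‖ ^ 2 := by
  have hgR : ContDiff ℝ 2 g := hg.restrict_scalars ℝ
  have hval : ∀ v : E, fderiv ℝ (fderiv ℝ (fun y => ‖g y‖ ^ 2)) x v v
      = 2 * ‖fderiv ℂ g x v‖ ^ 2 + 2 * inner ℝ (g x) (fderiv ℂ (fderiv ℂ g) x v v) := by
    intro v
    -- second derivative along `v` equals the derivative of the first derivative along `v`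
    have hd : ContDiff ℝ 2 (fun y => ‖g y‖ ^ 2) := hgR.norm_sq ℝ
    have hdd : DifferentiableAt ℝ (fderiv ℝ (fun y => ‖g y‖ ^ 2)) x := diff_fderiv hd.contDiffAt
    have e1 : fderiv ℝ (fderiv ℝ (fun y => ‖g y‖ ^ 2)) x v v
        = fderiv ℝ (fun y => fderiv ℝ (fun y => ‖g y‖ ^ 2) y v) x v := by
      rw [fderiv_clm_apply hdd (differentiableAt_const v)]
      simp
    have e2 : (fun y => fderiv ℝ (fun y => ‖g y‖ ^ 2) y v)
        = fun y => 2 * inner ℝ (g y) (fderiv ℝ g y v) := by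
      funext y
      rw [fderiv_normSq hg, ((hg.differentiable (by simp)) y).fderiv_restrictScalars ℝ]
      rfl
    have hgx : HasFDerivAt g (fderiv ℝ g x) x := ((hgR.differentiable (by simp)) x).hasFDerivAt
    have hggx : HasFDerivAt (fun y => fderiv ℝ g y v)
        ((fderiv ℝ (fderiv ℝ g) x).flip v) x := by
      have h := (diff_fderiv hgR.contDiffAt (x := x)).hasFDerivAt
      have := h.clm_apply (hasFDerivAt_const v x)
      simpa using this
    rw [e1, e2]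
    have h5 := (hgx.inner ℝ hggx).const_mul 2
    rw [h5.fderiv]
    simp only [smul_apply, ContinuousLinearMap.comp_apply,
      ContinuousLinearMap.prod_apply, fderivInnerCLM_apply, ContinuousLinearMap.flip_apply,
      smul_eq_mul]
    rw [fderiv_fderiv_real hg, real_inner_self_eq_norm_sq,
      ((hg.differentiable (by simp)) x).fderiv_restrictScalars ℝ]
    simp only [ContinuousLinearMap.coe_restrictScalars']
    ring
  unfold Lev
  rw [hval, hval, map_smul, map_smul]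
  simp only [smul_apply, map_smul]
  rw [smul_smul, Complex.I_mul_I, norm_smul, Complex.norm_I]
  simp only [neg_smul, one_smul, inner_neg_right, one_mul]
  ring

/-- closure of the class `T·Lev T ≥ Dsq T` under sums -/
lemma class_add {T₁ T₂ L₁ L₂ a₁ b₁ a₂ b₂ : ℝ} (hT₁ : 0 ≤ T₁) (hT₂ : 0 ≤ T₂) (hL₁ : 0 ≤ L₁)
    (hL₂ : 0 ≤ L₂) (h₁ : a₁ ^ 2 + b₁ ^ 2 ≤ T₁ * L₁) (h₂ : a₂ ^ 2 + b₂ ^ 2 ≤ T₂ * L₂) :
    (a₁ + a₂) ^ 2 + (b₁ + b₂) ^ 2 ≤ (T₁ + T₂) * (L₁ + L₂) := by
  have hprod : (a₁ ^ 2 + b₁ ^ 2) * (a₂ ^ 2 + b₂ ^ 2) ≤ (T₁ * L₁) * (T₂ * L₂) :=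
    mul_le_mul h₁ h₂ (by positivity) (by positivity)
  have hcs : (a₁ * a₂ + b₁ * b₂) ^ 2 ≤ ((T₁ * L₂ + T₂ * L₁) / 2) ^ 2 := by
    nlinarith [sq_nonneg (a₁ * b₂ - a₂ * b₁), sq_nonneg (T₁ * L₂ - T₂ * L₁)]
  have := (abs_le.1 (abs_le_of_sq_le_sq hcs (by positivity))).2
  nlinarith [this]

/-- the class of functions whose logarithm is plurisubharmonic -/
structure LogPsh (T : E → ℝ) : Prop where
  smooth : ContDiff ℝ ((⊤ : ℕ∞) : WithTop ℕ∞) T
  nonneg : ∀ x, 0 ≤ T x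
  lev : ∀ x w, 0 ≤ Lev T x w
  ineq : ∀ x w, Dsq T x w ≤ T x * Lev T x w

lemma two_le_inf : (2 : WithTop ℕ∞) ≤ ((⊤ : ℕ∞) : WithTop ℕ∞) :=
  WithTop.coe_le_coe.2 (le_top : (2 : ℕ∞) ≤ ⊤)

lemma LogPsh.add {S T : E → ℝ} (hS : LogPsh S) (hT : LogPsh T) : LogPsh (fun x => S x + T x) := by
  have hS2 : ContDiff ℝ 2 S := hS.smooth.of_le two_le_inf
  have hT2 : ContDiff ℝ 2 T := hT.smooth.of_le two_le_inf
  refine ⟨hS.smooth.add hT.smooth, fun x => add_nonneg (hS.nonneg x) (hT.nonneg x), ?_, ?_⟩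
  · intro x w
    rw [Lev_add w hS2.contDiffAt hT2.contDiffAt]
    exact add_nonneg (hS.lev x w) (hT.lev x w)
  · intro x w
    rw [Lev_add w hS2.contDiffAt hT2.contDiffAt]
    have e : fderiv ℝ (fun x => S x + T x) x = fderiv ℝ S x + fderiv ℝ T x :=
      fderiv_fun_add ((hS2.differentiable (by simp)) x) ((hT2.differentiable (by simp)) x)
    unfold Dsq
    rw [e]
    exact class_add (hS.nonneg x) (hT.nonneg x) (hS.lev x w) (hT.lev x w) (hS.ineq x w)
      (hT.ineq x w)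

lemma LogPsh.normSq {g : E → ℂ} (hg : ContDiff ℂ ((⊤ : ℕ∞) : WithTop ℕ∞) g) :
    LogPsh (fun x => ‖g x‖ ^ 2) := by
  have hg2 : ContDiff ℂ 2 g := hg.of_le two_le_inf
  refine ⟨(hg.restrict_scalars ℝ).norm_sq ℝ, fun x => by positivity, ?_, ?_⟩
  · intro x w
    rw [Lev_normSq hg2]
    positivity
  · intro x w
    rw [Lev_normSq hg2, Dsq_normSq hg2]
    apply le_of_eq
    ring

lemma LogPsh.const {c : ℝ} (hc : 0 ≤ c) : LogPsh (fun _ => c) := by
  refine ⟨contDiff_const, fun x => hc, ?_, ?_⟩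
  · intro x w
    rw [Lev_const]
  · intro x w
    rw [Lev_const]
    unfold Dsq
    simp

lemma Lev_log_nonneg {T : E → ℝ} (hT : LogPsh T) {x : E} (hx : 0 < T x) (w : E) :
    0 ≤ Lev (fun y => Real.log (T y)) x w := by
  have hT2 : ContDiff ℝ 2 T := hT.smooth.of_le two_le_inf
  rw [Lev_comp (φ := Real.log) w (Real.contDiffAt_log.2 hx.ne') hT2.contDiffAt]
  rw [Real.deriv_log, Real.deriv_log']
  have : deriv (fun x : ℝ => x⁻¹) (T x) = - (T x ^ 2)⁻¹ := by
    rw [deriv_inv]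
  rw [this]
  have h := hT.ineq x w
  have e : (T x)⁻¹ * Lev T x w + -(T x ^ 2)⁻¹ * Dsq T x w
      = (T x ^ 2)⁻¹ * (T x * Lev T x w - Dsq T x w) := by
    field_simp
    ring
  rw [e]
  have : 0 ≤ T x * Lev T x w - Dsq T x w := by linarith
  positivity

lemma Dsq_nonneg (f : E → ℝ) (x w : E) : 0 ≤ Dsq f x w := by
  unfold Dsq; positivity

lemma Lev_chi_nonneg (X : Chi) {H : E → ℝ} {x : E} (hH : ContDiffAt ℝ 2 H x) (w : E)
    (hL : 0 ≤ Lev H x w) : 0 ≤ Lev (fun y => X.χ (H y)) x w := by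
  rw [Lev_comp w ((X.smooth.of_le two_le_inf).contDiffAt) hH]
  exact add_nonneg (mul_nonneg (X.d1_nonneg _) hL) (mul_nonneg (X.d2_nonneg _) (Dsq_nonneg _ _ _))

end Pool.Agent.Kob
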