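import Pool.Agent.Kob.Deriv
import Pool.Agent.Kob.Dom

set_option autoImplicit false

namespace Pool.Agent.Kob

open Filter Topology

lemma Chi.le (X : Chi) {s : ℝ} (hs : 0 ≤ s) : X.χ s ≤ s := by
  have h := image_sub_le_mul_sub_of_deriv_le (f := X.χ) X.diff (C := 1) (fun x => X.d1_le x) hs
  rw [X.zero 0 le_rfl] at h
  linarith

lemma Chi.le_max (X : Chi) (s : ℝ) : X.χ s ≤ max s 0 := by
  rcases le_total 0 s with h | h
  · exact (X.le h).trans (le_max_left _ _)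
  · rw [X.zero s h]; exact le_max_right _ _

/-- parameters of one profile -/
structure Par where
  μ : ℝ
  V : ℕ
  q : ℕ
  W : ℕ
  a : Fin 4
  b : Fin 4
  hμ : 1 ≤ μ
  ha : a ≠ 3
  hb : b ≠ 3
  hV : 3 ≤ V
  hq : 8 * V ≤ q

noncomputable def e8 (l : ℕ) : ℝ := (1 / 8) ^ (l + 1)

lemma e8_pos (l : ℕ) : 0 < e8 l := by unfold e8; positivity

lemma e8_le (l : ℕ) : e8 l ≤ 1 / 8 := by
  unfold e8
  calc ((1 : ℝ) / 8) ^ (l + 1) ≤ (1 / 8) ^ 1 :=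
        pow_le_pow_of_le_one (by norm_num) (by norm_num) (by omega)
    _ = 1 / 8 := by norm_num

/-- affine factor, vanishing for `α μ x_c = 8^{-(l+1)}` and equal to one for `α μ x_c = 1` -/
noncomputable def fac (μ α : ℝ) (c : Fin 4) (l : ℕ) (x : E) : ℂ :=
  ((α / (1 - e8 l) : ℝ) : ℂ) * (μ : ℂ) * x c + ((-(e8 l / (1 - e8 l)) : ℝ) : ℂ)

lemma fac_eq (μ α : ℝ) (c : Fin 4) (l : ℕ) (x : E) :
    fac μ α c l x = ((α : ℂ) * μ * x c - (e8 l : ℂ)) / (1 - (e8 l : ℂ)) := by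
  have h : (1 - (e8 l : ℂ)) ≠ 0 := by
    have h1 := e8_le l
    have : (1 - e8 l : ℝ) ≠ 0 := by linarith
    exact_mod_cast this
  unfold fac
  push_cast
  field_simp
  ring

lemma fac_zero {μ α : ℝ} {c : Fin 4} {l : ℕ} {x : E} (h : (α : ℂ) * μ * x c = (e8 l : ℂ)) :
    fac μ α c l x = 0 := by
  rw [fac_eq, h, sub_self, zero_div]

lemma fac_one {μ α : ℝ} {c : Fin 4} (l : ℕ) {x : E} (h : (α : ℂ) * μ * x c = 1) :
    fac μ α c l x = 1 := by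
  have h' : (1 - (e8 l : ℂ)) ≠ 0 := by
    have h1 := e8_le l
    have : (1 - e8 l : ℝ) ≠ 0 := by linarith
    exact_mod_cast this
  rw [fac_eq, h, div_self h']

lemma fac_norm {μ α : ℝ} (hμ : 0 ≤ μ) (hα : 0 ≤ α) (hα4 : α ≤ 4) (c : Fin 4) (l : ℕ) (x : E) :
    ‖fac μ α c l x‖ ≤ (4 * (μ * ‖x c‖) + 1 / 8) / (7 / 8) := by
  have h1 := e8_le l
  have h0 := e8_pos l
  rw [fac_eq, norm_div]
  have hden : 7 / 8 ≤ ‖(1 - (e8 l : ℂ))‖ := by
    have : (1 - (e8 l : ℂ)) = ((1 - e8 l : ℝ) : ℂ) := by push_cast; ring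
    rw [this, Complex.norm_real, Real.norm_of_nonneg (by linarith)]
    linarith
  have hnum : ‖(α : ℂ) * μ * x c - (e8 l : ℂ)‖ ≤ 4 * (μ * ‖x c‖) + 1 / 8 := by
    calc ‖(α : ℂ) * μ * x c - (e8 l : ℂ)‖ ≤ ‖(α : ℂ) * μ * x c‖ + ‖(e8 l : ℂ)‖ := norm_sub_le _ _
      _ = α * (μ * ‖x c‖) + e8 l := by
          rw [norm_mul, norm_mul, Complex.norm_real, Complex.norm_real, Complex.norm_real,
            Real.norm_of_nonneg hα, Real.norm_of_nonneg hμ, Real.norm_of_nonneg h0.le]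
          ring
      _ ≤ 4 * (μ * ‖x c‖) + 1 / 8 :=
          add_le_add (mul_le_mul_of_nonneg_right hα4 (by positivity)) h1
  exact div_le_div₀ (by positivity) hnum (by norm_num) hden

lemma fac_Gr {μ α : ℝ} (hμ : 0 ≤ μ) (hα : 0 ≤ α) (hα4 : α ≤ 4) {c : Fin 4} (hc : c ≠ 3) (l : ℕ) :
    Gr μ 5 1 1 (fac μ α c l) := by
  have h1 := e8_le l
  have h0 := e8_pos l
  have hd : (0 : ℝ) < 1 - e8 l := by linarith
  have h := Gr.affine (μ := μ) hμ hc ((α / (1 - e8 l) : ℝ) : ℂ) ((-(e8 l / (1 - e8 l)) : ℝ) : ℂ)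
  refine h.mono hμ (by positivity) ?_ zero_le_one le_rfl le_rfl
  rw [Complex.norm_real, Complex.norm_real, norm_neg, Real.norm_of_nonneg (by positivity),
    Real.norm_of_nonneg (by positivity), ← add_div, div_le_iff₀ hd]
  linarith

namespace Par

variable (P : Par)

lemma μ_nonneg : 0 ≤ P.μ := zero_le_one.trans P.hμ

noncomputable def ρ : ℝ := 2 ^ (P.W + 2)

lemma ρ_pos : 0 < P.ρ := by unfold ρ; positivity

lemma one_le_ρ : 1 ≤ P.ρ := by unfold ρ; exact one_le_pow₀ (by norm_num)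

noncomputable def FV (α : ℝ) (c : Fin 4) (x : E) : ℂ := ∏ l ∈ Finset.range P.V, fac P.μ α c l x

noncomputable def lam (x : E) : ℂ := P.FV 2 P.a x * P.FV 4 P.b x

noncomputable def QQ (x : E) : ℂ := 40 * (P.lam x ^ 3 * (P.lam x + (-1)))

noncomputable def gy (c : Fin 4) (x : E) : ℂ := ((((1 / P.ρ : ℝ)) : ℂ) * (P.μ : ℂ) * x c + 0) ^ P.q

noncomputable def T (x : E) : ℝ :=
  ‖P.QQ x‖ ^ 2 + (1 / 4) ^ P.q + ‖P.gy 0 x‖ ^ 2 + ‖P.gy 1 x‖ ^ 2 + ‖P.gy 2 x‖ ^ 2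

lemma FV_contDiff (α : ℝ) (c : Fin 4) : ContDiff ℂ ((⊤ : ℕ∞) : WithTop ℕ∞) (P.FV α c) := by
  unfold FV
  apply contDiff_prod
  intro l _
  unfold fac
  fun_prop

lemma lam_contDiff : ContDiff ℂ ((⊤ : ℕ∞) : WithTop ℕ∞) P.lam :=
  (P.FV_contDiff _ _).mul (P.FV_contDiff _ _)

lemma QQ_contDiff : ContDiff ℂ ((⊤ : ℕ∞) : WithTop ℕ∞) P.QQ :=
  contDiff_const.mul ((P.lam_contDiff.pow 3).mul (P.lam_contDiff.add contDiff_const))

lemma gy_contDiff (c : Fin 4) : ContDiff ℂ ((⊤ : ℕ∞) : WithTop ℕ∞) (P.gy c) := by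
  unfold gy
  fun_prop

lemma T_logPsh : LogPsh P.T := by
  have h1 : LogPsh (fun x => ‖P.QQ x‖ ^ 2) := LogPsh.normSq P.QQ_contDiff
  have h2 : LogPsh (fun _ : E => ((1 : ℝ) / 4) ^ P.q) := LogPsh.const (by positivity)
  exact (((h1.add h2).add (LogPsh.normSq (P.gy_contDiff 0))).add
    (LogPsh.normSq (P.gy_contDiff 1))).add (LogPsh.normSq (P.gy_contDiff 2))

lemma T_ge (x : E) : (1 / 4) ^ P.q ≤ P.T x := by
  unfold T
  have h1 : 0 ≤ ‖P.QQ x‖ ^ 2 := by positivity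
  have h2 : 0 ≤ ‖P.gy 0 x‖ ^ 2 := by positivity
  have h3 : 0 ≤ ‖P.gy 1 x‖ ^ 2 := by positivity
  have h4 : 0 ≤ ‖P.gy 2 x‖ ^ 2 := by positivity
  linarith

lemma T_pos (x : E) : 0 < P.T x := lt_of_lt_of_le (by positivity) (P.T_ge x)

lemma gy_norm (c : Fin 4) (x : E) : ‖P.gy c x‖ ^ 2 = (P.μ * ‖x c‖ / P.ρ) ^ (2 * P.q) := by
  unfold gy
  rw [add_zero, norm_pow, norm_mul, norm_mul, Complex.norm_real, Complex.norm_real,
    Real.norm_of_nonneg (by have := P.ρ_pos; positivity), Real.norm_of_nonneg P.μ_nonneg,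
    ← pow_mul, mul_comm P.q 2]
  congr 1
  ring

/-! growth -/

noncomputable def AT : ℝ := 1600 * (5 ^ P.V * 5 ^ P.V) ^ 6 * (5 ^ P.V * 5 ^ P.V + 1) ^ 2 + 4

lemma FV_Gr {α : ℝ} (hα : 0 ≤ α) (hα4 : α ≤ 4) {c : Fin 4} (hc : c ≠ 3) :
    Gr P.μ (5 ^ P.V) P.V P.V (P.FV α c) := by
  have h := Gr.prod (μ := P.μ) P.μ_nonneg (by norm_num : (0 : ℝ) ≤ 5) zero_le_one
    (F := fac P.μ α c) P.V (fun l => fac_Gr P.μ_nonneg hα hα4 hc l)
  rw [mul_one, mul_one] at h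
  exact h

lemma lam_Gr : Gr P.μ (5 ^ P.V * 5 ^ P.V) (P.V + P.V) (P.V + P.V) P.lam :=
  (P.FV_Gr (by norm_num) (by norm_num) P.ha).mul P.μ_nonneg (by positivity) (by positivity)
    (P.FV_Gr (by norm_num) (by norm_num) P.hb)

lemma QQ_Gr : Gr P.μ (40 * ((5 ^ P.V * 5 ^ P.V) ^ 3 * (5 ^ P.V * 5 ^ P.V + 1))) P.q P.q P.QQ := by
  have hμ := P.μ_nonneg
  have h1 : Gr P.μ (5 ^ P.V * 5 ^ P.V + ‖(-1 : ℂ)‖) (P.V + P.V) (P.V + P.V)
      (fun x => P.lam x + (-1)) := P.lam_Gr.add (Gr.const hμ (by positivity) (-1))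
  rw [norm_neg, norm_one] at h1
  have h2 := P.lam_Gr.pow hμ (by positivity) (by positivity) 3
  have h3 := h2.mul hμ (by positivity) (by positivity) h1
  have h4 := (Gr.const (μ := P.μ) (B := 0) (d := 0) hμ le_rfl (40 : ℂ)).mul hμ (by positivity)
    le_rfl h3
  have h5 : ‖(40 : ℂ)‖ = 40 := by simp
  rw [h5] at h4
  have hq := P.hq
  refine h4.mono hμ (by positivity) le_rfl (by positivity) ?_ ?_
  · have : (8 * P.V : ℝ) ≤ P.q := by exact_mod_cast hq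
    push_cast
    linarith
  · omega

lemma gy_Gr {c : Fin 4} (hc : c ≠ 3) : Gr P.μ 1 P.q P.q (P.gy c) := by
  have hμ := P.μ_nonneg
  have h0 := Gr.affine (μ := P.μ) hμ hc (((1 / P.ρ : ℝ)) : ℂ) 0
  have h1 : Gr P.μ 1 1 1 (fun x : E => (((1 / P.ρ : ℝ)) : ℂ) * (P.μ : ℂ) * x c + 0) := by
    refine h0.mono hμ (by positivity) ?_ zero_le_one le_rfl le_rfl
    rw [norm_zero, add_zero, Complex.norm_real, Real.norm_of_nonneg (by have := P.ρ_pos; positivity)]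
    rw [div_le_one P.ρ_pos]
    exact P.one_le_ρ
  have h2 := h1.pow hμ zero_le_one zero_le_one P.q
  rw [mul_one, mul_one, one_pow] at h2
  exact h2

lemma T_Gr : Gr P.μ P.AT (2 * P.q) (2 * P.q) (fun x => (P.T x : ℂ)) := by
  have hμ := P.μ_nonneg
  have h1 := P.QQ_Gr.normSq hμ (by positivity) (by positivity)
  have h2 := Gr.const (μ := P.μ) (B := P.q + P.q) (d := P.q + P.q) hμ (by positivity)
    (((1 / 4) ^ P.q : ℝ) : ℂ)
  have g : ∀ c : Fin 4, c ≠ 3 → Gr P.μ (1 * 1) (P.q + P.q) (P.q + P.q)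
    (fun x => ((‖P.gy c x‖ ^ 2 : ℝ) : ℂ)) := fun c hc =>
    (P.gy_Gr hc).normSq hμ zero_le_one (by positivity)
  have h := (((h1.add h2).add (g 0 (by decide))).add (g 1 (by decide))).add (g 2 (by decide))
  have e : (fun x => (P.T x : ℂ)) = fun x => ((‖P.QQ x‖ ^ 2 : ℝ) : ℂ) + (((1 / 4) ^ P.q : ℝ) : ℂ)
      + ((‖P.gy 0 x‖ ^ 2 : ℝ) : ℂ) + ((‖P.gy 1 x‖ ^ 2 : ℝ) : ℂ) + ((‖P.gy 2 x‖ ^ 2 : ℝ) : ℂ) := by
    funext x
    unfold T
    push_cast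
    ring
  rw [e]
  refine h.mono hμ (by positivity) ?_ (by positivity) (le_of_eq (by ring)) (le_of_eq (by ring))
  have hn : ‖(((1 / 4) ^ P.q : ℝ) : ℂ)‖ ≤ 1 := by
    rw [Complex.norm_real, Real.norm_of_nonneg (by positivity)]
    exact pow_le_one₀ (by norm_num) (by norm_num)
  unfold AT
  nlinarith

lemma wt_le (x : E) : wt P.μ x ^ (2 * P.q) ≤ (4 * P.ρ) ^ (2 * P.q) * 4 ^ P.q * P.T x := by
  have hμ := P.μ_nonneg
  have hρ := P.one_le_ρ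
  have hw := wt_one_le hμ x
  have hT := P.T_pos x
  have hTge := P.T_ge x
  by_cases h4 : wt P.μ x ≤ 4
  · have h1 : wt P.μ x ^ (2 * P.q) ≤ (4 * P.ρ) ^ (2 * P.q) :=
      pow_le_pow_left₀ (by linarith) (by linarith) _
    have h2 : 1 ≤ 4 ^ P.q * P.T x := by
      calc (1 : ℝ) = 4 ^ P.q * (1 / 4) ^ P.q := by rw [← mul_pow]; norm_num
        _ ≤ 4 ^ P.q * P.T x := mul_le_mul_of_nonneg_left hTge (by positivity)
    calc wt P.μ x ^ (2 * P.q) ≤ (4 * P.ρ) ^ (2 * P.q) * 1 := by rw [mul_one]; exact h1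
      _ ≤ (4 * P.ρ) ^ (2 * P.q) * (4 ^ P.q * P.T x) :=
          mul_le_mul_of_nonneg_left h2 (by positivity)
      _ = _ := by ring
  · push Not at h4
    have hex : ∃ c : Fin 4, c ≠ 3 ∧ wt P.μ x ≤ 4 * (P.μ * ‖x c‖) ∧ ‖P.gy c x‖ ^ 2 ≤ P.T x := by
      by_contra hcon
      push Not at hcon
      have hsum : wt P.μ x = 1 + P.μ * ‖x 0‖ + P.μ * ‖x 1‖ + P.μ * ‖x 2‖ := by
        unfold wt; ring
      have g0 : 0 ≤ ‖P.gy 0 x‖ ^ 2 := by positivity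
      have g1 : 0 ≤ ‖P.gy 1 x‖ ^ 2 := by positivity
      have g2 : 0 ≤ ‖P.gy 2 x‖ ^ 2 := by positivity
      have gQ : 0 ≤ ‖P.QQ x‖ ^ 2 := by positivity
      have gq : (0 : ℝ) ≤ (1 / 4) ^ P.q := by positivity
      have t0 : ‖P.gy 0 x‖ ^ 2 ≤ P.T x := by unfold T; linarith
      have t1 : ‖P.gy 1 x‖ ^ 2 ≤ P.T x := by unfold T; linarith
      have t2 : ‖P.gy 2 x‖ ^ 2 ≤ P.T x := by unfold T; linarith
      have c0 : ¬ wt P.μ x ≤ 4 * (P.μ * ‖x 0‖) := fun h => absurd t0 (not_le.2 (hcon 0 (by decide) h))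
      have c1 : ¬ wt P.μ x ≤ 4 * (P.μ * ‖x 1‖) := fun h => absurd t1 (not_le.2 (hcon 1 (by decide) h))
      have c2 : ¬ wt P.μ x ≤ 4 * (P.μ * ‖x 2‖) := fun h => absurd t2 (not_le.2 (hcon 2 (by decide) h))
      push Not at c0 c1 c2
      linarith
    obtain ⟨c, _, hc1, hc2⟩ := hex
    rw [P.gy_norm] at hc2
    have h1 : wt P.μ x ^ (2 * P.q) ≤ (4 * P.ρ) ^ (2 * P.q) * (P.μ * ‖x c‖ / P.ρ) ^ (2 * P.q) := by
      rw [← mul_pow]
      apply pow_le_pow_left₀ (by linarith)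
      have : 4 * P.ρ * (P.μ * ‖x c‖ / P.ρ) = 4 * (P.μ * ‖x c‖) := by
        have := P.ρ_pos.ne'
        field_simp
      rw [this]
      exact hc1
    have h2 : (4 * P.ρ) ^ (2 * P.q) * (P.μ * ‖x c‖ / P.ρ) ^ (2 * P.q) ≤ (4 * P.ρ) ^ (2 * P.q) * P.T x :=
      mul_le_mul_of_nonneg_left hc2 (by positivity)
    have h3 : (4 * P.ρ) ^ (2 * P.q) * P.T x ≤ (4 * P.ρ) ^ (2 * P.q) * 4 ^ P.q * P.T x := by
      have : (1 : ℝ) ≤ 4 ^ P.q := one_le_pow₀ (by norm_num)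
      have h5 : 0 ≤ (4 * P.ρ) ^ (2 * P.q) * P.T x := by positivity
      nlinarith
    linarith

/-- the derivative constant -/
noncomputable def Gam : ℝ := P.AT * (4 * P.ρ) ^ (2 * P.q) * 4 ^ P.q * (2 * P.q)

lemma one_le_AT : 1 ≤ P.AT := by
  unfold AT
  have : (0 : ℝ) ≤ 1600 * (5 ^ P.V * 5 ^ P.V) ^ 6 * (5 ^ P.V * 5 ^ P.V + 1) ^ 2 := by positivity
  linarith

lemma one_le_q : 1 ≤ P.q := by
  have := P.hq; have := P.hV; omega

lemma one_le_K : 1 ≤ P.AT * (4 * P.ρ) ^ (2 * P.q) * 4 ^ P.q := by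
  have h1 := P.one_le_AT
  have h2 : 1 ≤ (4 * P.ρ) ^ (2 * P.q) := one_le_pow₀ (by linarith [P.one_le_ρ])
  have h3 : (1 : ℝ) ≤ 4 ^ P.q := one_le_pow₀ (by norm_num)
  have h4 : 1 ≤ P.AT * (4 * P.ρ) ^ (2 * P.q) := one_le_mul_of_one_le_of_one_le h1 h2
  exact one_le_mul_of_one_le_of_one_le h4 h3

lemma one_le_Gam : 1 ≤ P.Gam := by
  unfold Gam
  have h := P.one_le_K
  have hq : (1 : ℝ) ≤ P.q := by exact_mod_cast P.one_le_q
  exact one_le_mul_of_one_le_of_one_le h (by linarith)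

lemma T_deriv {n : ℕ} (hn : 1 ≤ n) (x : E) :
    ‖iteratedFDeriv ℝ n P.T x‖ ≤ (P.Gam * P.μ) ^ n * P.T x := by
  have hμ := P.μ_nonneg
  have h := P.T_Gr.real.2 n x
  refine h.trans ?_
  have hK := P.one_le_K
  have hT := P.T_pos x
  have hA := P.one_le_AT
  have h1 : P.AT * (2 * (P.q : ℝ) * P.μ) ^ n * wt P.μ x ^ (2 * P.q)
      ≤ P.AT * (2 * (P.q : ℝ) * P.μ) ^ n * ((4 * P.ρ) ^ (2 * P.q) * 4 ^ P.q * P.T x) :=
    mul_le_mul_of_nonneg_left (P.wt_le x) (by positivity)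
  refine h1.trans ?_
  have e1 : P.AT * (2 * (P.q : ℝ) * P.μ) ^ n * ((4 * P.ρ) ^ (2 * P.q) * 4 ^ P.q * P.T x)
      = (P.AT * (4 * P.ρ) ^ (2 * P.q) * 4 ^ P.q) * ((2 * (P.q : ℝ) * P.μ) ^ n * P.T x) := by ring
  have e2 : (P.Gam * P.μ) ^ n * P.T x
      = (P.AT * (4 * P.ρ) ^ (2 * P.q) * 4 ^ P.q) ^ n * ((2 * (P.q : ℝ) * P.μ) ^ n * P.T x) := by
    unfold Gam
    rw [mul_assoc _ (2 * (P.q : ℝ)) P.μ, mul_pow]
    ring
  rw [e1, e2]
  apply mul_le_mul_of_nonneg_right _ (by positivity)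
  exact le_self_pow₀ hK (by omega)

/-- the profile function -/
noncomputable def h (x : E) : ℝ :=
  open Classical in
  if ‖P.lam x - 1‖ < 1 / 2 then Real.log (P.T x) - stdChi.c else stdChi.χ (Real.log (P.T x))

lemma T_shell {x : E} (h1 : 2 / 5 ≤ ‖P.lam x - 1‖) (h2 : ‖P.lam x - 1‖ ≤ 1 / 2) : 4 ≤ P.T x := by
  have hl : 1 / 2 ≤ ‖P.lam x‖ := by
    have : ‖(1 : ℂ)‖ ≤ ‖P.lam x‖ + ‖1 - P.lam x‖ := by
      calc ‖(1 : ℂ)‖ = ‖P.lam x + (1 - P.lam x)‖ := by congr 1; ring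
        _ ≤ _ := norm_add_le _ _
    rw [norm_one, norm_sub_rev] at this
    linarith
  have hQ : 2 ≤ ‖P.QQ x‖ := by
    unfold QQ
    rw [norm_mul, norm_mul, norm_pow]
    have e : P.lam x + (-1) = P.lam x - 1 := by ring
    rw [e]
    have h5 : ‖(40 : ℂ)‖ = 40 := by simp
    rw [h5]
    have h3 : (1 / 2 : ℝ) ^ 3 ≤ ‖P.lam x‖ ^ 3 := pow_le_pow_left₀ (by norm_num) hl 3
    have h4 : (1 / 2 : ℝ) ^ 3 * (2 / 5) ≤ ‖P.lam x‖ ^ 3 * ‖P.lam x - 1‖ :=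
      mul_le_mul h3 h1 (by norm_num) (by positivity)
    norm_num at h4 ⊢
    linarith
  have hQ2 : 4 ≤ ‖P.QQ x‖ ^ 2 := by nlinarith
  unfold T
  have g0 : 0 ≤ ‖P.gy 0 x‖ ^ 2 := by positivity
  have g1 : 0 ≤ ‖P.gy 1 x‖ ^ 2 := by positivity
  have g2 : 0 ≤ ‖P.gy 2 x‖ ^ 2 := by positivity
  have gq : (0 : ℝ) ≤ (1 / 4) ^ P.q := by positivity
  linarith

lemma one_le_log_four : (1 : ℝ) ≤ Real.log 4 := by
  have h := Real.exp_one_lt_d9
  rw [Real.le_log_iff_exp_le (by norm_num)]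
  linarith

lemma h_local (x : E) : (P.h =ᶠ[𝓝 x] fun y => Real.log (P.T y) - stdChi.c) ∨
    (P.h =ᶠ[𝓝 x] fun y => stdChi.χ (Real.log (P.T y))) := by
  have hcont : Continuous fun y => ‖P.lam y - 1‖ :=
    (P.lam_contDiff.continuous.sub continuous_const).norm
  by_cases hx : ‖P.lam x - 1‖ < 1 / 2
  · left
    filter_upwards [hcont.continuousAt.eventually (gt_mem_nhds hx)] with y hy
    unfold h
    rw [if_pos hy]
  · right
    push Not at hx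
    have hx' : 2 / 5 < ‖P.lam x - 1‖ := by linarith
    filter_upwards [hcont.continuousAt.eventually (lt_mem_nhds hx')] with y hy
    unfold h
    split_ifs with h2
    · have hT := P.T_shell (le_of_lt hy) h2.le
      have hlog : 1 ≤ Real.log (P.T y) :=
        one_le_log_four.trans (Real.log_le_log (by norm_num) hT)
      rw [stdChi.lin _ hlog]
    · rfl

lemma T_smooth : ContDiff ℝ ((⊤ : ℕ∞) : WithTop ℕ∞) P.T := P.T_logPsh.smooth

lemma logT_smooth : ContDiff ℝ ((⊤ : ℕ∞) : WithTop ℕ∞) (fun y => Real.log (P.T y)) :=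
  P.T_smooth.log fun x => (P.T_pos x).ne'

lemma h_smooth : ContDiff ℝ ((⊤ : ℕ∞) : WithTop ℕ∞) P.h := by
  rw [contDiff_iff_contDiffAt]
  intro x
  rcases P.h_local x with h | h
  · exact (P.logT_smooth.sub contDiff_const).contDiffAt.congr_of_eventuallyEq h
  · exact (stdChi.smooth.comp P.logT_smooth).contDiffAt.congr_of_eventuallyEq h

lemma h_levi (x w : E) : 0 ≤ Lev P.h x w := by
  have hL := Lev_log_nonneg P.T_logPsh (P.T_pos x) w
  have h2 : ContDiff ℝ 2 (fun y => Real.log (P.T y)) := P.logT_smooth.of_le two_le_inf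
  rcases P.h_local x with h | h
  · rw [Lev_congr w h, Lev_sub_const w _ h2.contDiffAt]
    exact hL
  · rw [Lev_congr w h]
    exact Lev_chi_nonneg stdChi h2.contDiffAt w hL

/-- constants for the derivative bounds (independent of the parameters) -/
noncomputable def c1 (n : ℕ) : ℝ := (n + 1).factorial * clog (n + 1)

lemma c1_nonneg (n : ℕ) : 0 ≤ c1 n := mul_nonneg (by positivity) (clog_nonneg _)

noncomputable def c2 (n : ℕ) : ℝ := 1 + ∑ i ∈ Finset.range (n + 1), c1 i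

lemma one_le_c2 (n : ℕ) : 1 ≤ c2 n := by
  unfold c2
  have := Finset.sum_nonneg (s := Finset.range (n + 1)) (f := c1) fun i _ => c1_nonneg i
  linarith

lemma c1_le_c2 {n i : ℕ} (h : i ≤ n) : c1 i ≤ c2 n := by
  unfold c2
  have := Finset.single_le_sum (f := c1) (s := Finset.range (n + 1)) (fun i _ => c1_nonneg i)
    (Finset.mem_range.2 (by omega : i < n + 1))
  linarith

noncomputable def c3 (n : ℕ) : ℝ := c1 n + (n + 1).factorial * cchi n * c2 n ^ (n + 1)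

lemma c3_nonneg (n : ℕ) : 0 ≤ c3 n := by
  unfold c3
  have h1 := c1_nonneg n
  have h2 := cchi_nonneg n
  have h3 := one_le_c2 n
  positivity

lemma logT_bound (n : ℕ) (x : E) :
    ‖iteratedFDeriv ℝ (n + 1) (fun y => Real.log (P.T y)) x‖ ≤ c1 n * (P.Gam * P.μ) ^ (n + 1) :=
  log_bound P.T_smooth P.T_pos fun _ hi _ => P.T_deriv hi x

lemma h_bound (n : ℕ) (x : E) :
    ‖iteratedFDeriv ℝ (n + 1) P.h x‖ ≤ c3 n * (P.Gam * P.μ) ^ (n + 1) := by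
  have hG : 0 ≤ P.Gam * P.μ := mul_nonneg (zero_le_one.trans P.one_le_Gam) P.μ_nonneg
  have hG1 : 1 ≤ P.Gam * P.μ := one_le_mul_of_one_le_of_one_le P.one_le_Gam P.hμ
  have hc1 := c1_nonneg n
  have hc := cchi_nonneg n
  have hc2 := one_le_c2 n
  rcases P.h_local x with h | h
  · have e : ‖iteratedFDeriv ℝ (n + 1) P.h x‖
        = ‖iteratedFDeriv ℝ (n + 1) (fun y => Real.log (P.T y)) x‖ := by
      rw [(h.iteratedFDeriv ℝ (n + 1)).eq_of_nhds]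
      apply iter_succ_congr
      funext y
      exact fderiv_sub_const _
    rw [e]
    refine (P.logT_bound n x).trans ?_
    apply mul_le_mul_of_nonneg_right _ (by positivity)
    unfold c3
    have : 0 ≤ ((n + 1).factorial : ℝ) * cchi n * c2 n ^ (n + 1) := by positivity
    linarith
  · rw [(h.iteratedFDeriv ℝ (n + 1)).eq_of_nhds]
    have hb : ∀ i, 1 ≤ i → i ≤ n + 1 →
        ‖iteratedFDeriv ℝ i (fun y => Real.log (P.T y)) x‖ ≤ (c2 n * (P.Gam * P.μ)) ^ i := by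
      intro i h1 h2
      obtain ⟨j, rfl⟩ : ∃ j, i = j + 1 := ⟨i - 1, by omega⟩
      refine (P.logT_bound j x).trans ?_
      rw [mul_pow (c2 n)]
      apply mul_le_mul_of_nonneg_right _ (by positivity)
      calc c1 j ≤ c2 n := c1_le_c2 (by omega)
        _ ≤ c2 n ^ (j + 1) := le_self_pow₀ hc2 (by omega)
    have := chi_comp_bound P.logT_smooth hb
    refine this.trans ?_
    rw [mul_pow (c2 n), ← mul_assoc]
    apply mul_le_mul_of_nonneg_right _ (by positivity)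
    unfold c3
    linarith

/-! ### values -/

lemma h_le (x : E) : P.h x ≤ max (Real.log (P.T x)) 0 := by
  unfold h
  split_ifs
  · have := stdChi.c_nonneg
    exact le_trans (by linarith) (le_max_left _ _)
  · exact stdChi.le_max _

lemma h_zero {x : E} (h1 : 1 / 2 ≤ ‖P.lam x - 1‖) (hT : P.T x ≤ 1) : P.h x = 0 := by
  unfold h
  rw [if_neg (not_lt.2 h1)]
  exact stdChi.zero _ (Real.log_nonpos (P.T_pos x).le hT)

lemma gy_le {r : ℝ} {c : Fin 4} {x : E} (h : P.μ * ‖x c‖ ≤ r * P.ρ) :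
    ‖P.gy c x‖ ^ 2 ≤ r ^ (2 * P.q) := by
  rw [P.gy_norm]
  apply pow_le_pow_left₀
  · have := P.μ_nonneg
    have := P.ρ_pos
    positivity
  · rwa [div_le_iff₀ P.ρ_pos]

lemma four_q {k : ℕ} (hk : 1 ≤ k) : (1 / 4 : ℝ) ^ k ≤ 1 / 4 := by
  calc ((1 : ℝ) / 4) ^ k ≤ (1 / 4) ^ 1 := pow_le_pow_of_le_one (by norm_num) (by norm_num) hk
    _ = 1 / 4 := by norm_num

/-- value on the good disc -/
lemma h_good {x : E} (hl : P.lam x = 1) (hx : ∀ c : Fin 4, c ≠ 3 → P.μ * ‖x c‖ ≤ 2 ^ P.W) :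
    P.h x ≤ -((P.q : ℝ) - 1) := by
  have hg : ∀ c : Fin 4, c ≠ 3 → ‖P.gy c x‖ ^ 2 ≤ (1 / 4) ^ P.q := by
    intro c hc
    have h1 : P.μ * ‖x c‖ ≤ 1 / 4 * P.ρ := by
      refine (hx c hc).trans (le_of_eq ?_)
      unfold ρ
      rw [pow_add]
      ring
    refine (P.gy_le h1).trans ?_
    exact pow_le_pow_of_le_one (by norm_num) (by norm_num) (by omega)
  have hQ : P.QQ x = 0 := by
    unfold QQ
    rw [hl]
    ring
  have hT : P.T x ≤ 4 * (1 / 4) ^ P.q := by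
    unfold T
    rw [hQ, norm_zero]
    have g0 := hg 0 (by decide)
    have g1 := hg 1 (by decide)
    have g2 := hg 2 (by decide)
    linarith
  have hh : P.h x = Real.log (P.T x) - stdChi.c := by
    unfold h
    rw [if_pos]
    rw [hl, sub_self, norm_zero]
    norm_num
  rw [hh]
  have h1 : Real.log (P.T x) ≤ Real.log (4 * (1 / 4) ^ P.q) := Real.log_le_log (P.T_pos x) hT
  have h2 : Real.log (4 * (1 / 4) ^ P.q) = -((P.q : ℝ) - 1) * Real.log 4 := by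
    rw [Real.log_mul (by norm_num) (by positivity), Real.log_pow]
    have : Real.log (1 / 4) = - Real.log 4 := by rw [one_div, Real.log_inv]
    rw [this]
    ring
  have h3 := one_le_log_four
  have hq : (1 : ℝ) ≤ P.q := by exact_mod_cast P.one_le_q
  have h4 : ((P.q : ℝ) - 1) * 1 ≤ ((P.q : ℝ) - 1) * Real.log 4 :=
    mul_le_mul_of_nonneg_left h3 (by linarith)
  have h5 := stdChi.c_nonneg
  linarith

lemma lam_of_zero {α : ℝ} {c : Fin 4} {x : E} {l : ℕ} (hl : l < P.V)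
    (h : (α : ℂ) * P.μ * x c = (e8 l : ℂ)) : P.FV α c x = 0 := by
  unfold FV
  exact Finset.prod_eq_zero (Finset.mem_range.2 hl) (fac_zero h)

lemma FV_of_one {α : ℝ} {c : Fin 4} {x : E} (h : (α : ℂ) * P.μ * x c = 1) : P.FV α c x = 1 := by
  unfold FV
  exact Finset.prod_eq_one fun l _ => fac_one l h

/-- vanishing on the later discs -/
lemma h_vanish {x : E} (hl : P.lam x = 0)
    (hx : ∀ c : Fin 4, c ≠ 3 → P.μ * ‖x c‖ ≤ 2 ^ (P.W + 1)) : P.h x = 0 := by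
  apply P.h_zero
  · rw [hl, zero_sub, norm_neg, norm_one]; norm_num
  have hg : ∀ c : Fin 4, c ≠ 3 → ‖P.gy c x‖ ^ 2 ≤ (1 / 4) ^ P.q := by
    intro c hc
    have h1 : P.μ * ‖x c‖ ≤ 1 / 2 * P.ρ := by
      refine (hx c hc).trans (le_of_eq ?_)
      unfold ρ
      rw [pow_add, pow_add]
      ring
    refine (P.gy_le h1).trans (le_of_eq ?_)
    rw [pow_mul]
    norm_num
  have hQ : P.QQ x = 0 := by
    unfold QQ
    rw [hl]
    ring
  unfold T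
  rw [hQ, norm_zero]
  have g0 := hg 0 (by decide)
  have g1 := hg 1 (by decide)
  have g2 := hg 2 (by decide)
  have g3 := four_q P.one_le_q
  linarith

lemma FV_small {α : ℝ} (hα : 0 ≤ α) (hα4 : α ≤ 4) {c : Fin 4} {x : E}
    (h : P.μ * ‖x c‖ ≤ 1 / 8) : ‖P.FV α c x‖ ≤ (5 / 7) ^ P.V := by
  unfold FV
  rw [norm_prod]
  calc ∏ l ∈ Finset.range P.V, ‖fac P.μ α c l x‖ ≤ ∏ l ∈ Finset.range P.V, (5 / 7 : ℝ) := by
        apply Finset.prod_le_prod (fun _ _ => norm_nonneg _)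
        intro l _
        refine (fac_norm P.μ_nonneg hα hα4 c l x).trans ?_
        rw [div_le_iff₀ (by norm_num)]
        linarith
    _ = (5 / 7) ^ P.V := by rw [Finset.prod_const, Finset.card_range]

/-- vanishing near the origin -/
lemma h_near {x : E} (hx : ∀ c : Fin 4, c ≠ 3 → P.μ * ‖x c‖ ≤ 1 / 8) : P.h x = 0 := by
  have hl : ‖P.lam x‖ ≤ 1 / 4 := by
    unfold lam
    rw [norm_mul]
    have h1 := P.FV_small (α := 2) (by norm_num) (by norm_num) (hx P.a P.ha)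
    have h2 := P.FV_small (α := 4) (by norm_num) (by norm_num) (hx P.b P.hb)
    have h3 : (5 / 7 : ℝ) ^ P.V ≤ (5 / 7) ^ 3 :=
      pow_le_pow_of_le_one (by norm_num) (by norm_num) P.hV
    calc ‖P.FV 2 P.a x‖ * ‖P.FV 4 P.b x‖ ≤ (5 / 7) ^ 3 * (5 / 7) ^ 3 :=
          mul_le_mul (h1.trans h3) (h2.trans h3) (norm_nonneg _) (by norm_num)
      _ ≤ 1 / 4 := by norm_num
  apply P.h_zero
  · have : ‖(1 : ℂ)‖ ≤ ‖P.lam x‖ + ‖1 - P.lam x‖ := by
      calc ‖(1 : ℂ)‖ = ‖P.lam x + (1 - P.lam x)‖ := by congr 1; ring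
        _ ≤ _ := norm_add_le _ _
    rw [norm_one, norm_sub_rev] at this
    linarith
  have hg : ∀ c : Fin 4, c ≠ 3 → ‖P.gy c x‖ ^ 2 ≤ (1 / 64) ^ P.q := by
    intro c hc
    have h1 : P.μ * ‖x c‖ ≤ 1 / 8 * P.ρ := by
      have := hx c hc
      have := P.one_le_ρ
      linarith
    refine (P.gy_le h1).trans (le_of_eq ?_)
    rw [pow_mul]
    norm_num
  have h64 : (1 / 64 : ℝ) ^ P.q ≤ (1 / 64) ^ 1 :=
    pow_le_pow_of_le_one (by norm_num) (by norm_num) P.one_le_q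
  have h16 : (1 / 4 : ℝ) ^ P.q ≤ (1 / 4) ^ 2 :=
    pow_le_pow_of_le_one (by norm_num) (by norm_num) (by have := P.hq; have := P.hV; omega)
  have hQ : ‖P.QQ x‖ ≤ 25 / 32 := by
    unfold QQ
    rw [norm_mul, norm_mul, norm_pow]
    have h5 : ‖(40 : ℂ)‖ = 40 := by simp
    rw [h5]
    have h6 : ‖P.lam x + (-1)‖ ≤ 5 / 4 := by
      calc ‖P.lam x + (-1)‖ ≤ ‖P.lam x‖ + ‖(-1 : ℂ)‖ := norm_add_le _ _
        _ ≤ 5 / 4 := by rw [norm_neg, norm_one]; linarith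
    have h7 : ‖P.lam x‖ ^ 3 ≤ (1 / 4) ^ 3 := pow_le_pow_left₀ (norm_nonneg _) hl 3
    have h8 : ‖P.lam x‖ ^ 3 * ‖P.lam x + (-1)‖ ≤ (1 / 4) ^ 3 * (5 / 4) :=
      mul_le_mul h7 h6 (norm_nonneg _) (by norm_num)
    norm_num at h8 ⊢
    linarith
  have hQ2 : ‖P.QQ x‖ ^ 2 ≤ (25 / 32) ^ 2 := pow_le_pow_left₀ (norm_nonneg _) hQ 2
  unfold T
  have g0 := hg 0 (by decide)
  have g1 := hg 1 (by decide)
  have g2 := hg 2 (by decide)
  norm_num at hQ2 h64 h16 ⊢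
  norm_num at g0 g1 g2
  linarith

lemma FV_big {α : ℝ} (hα : 0 ≤ α) (hα4 : α ≤ 4) {c : Fin 4} {x : E} {r : ℝ} (hr : 1 ≤ r)
    (h : P.μ * ‖x c‖ ≤ r) : ‖P.FV α c x‖ ≤ (8 * r) ^ P.V := by
  unfold FV
  rw [norm_prod]
  calc ∏ l ∈ Finset.range P.V, ‖fac P.μ α c l x‖ ≤ ∏ l ∈ Finset.range P.V, (8 * r : ℝ) := by
        apply Finset.prod_le_prod (fun _ _ => norm_nonneg _)
        intro l _
        refine (fac_norm P.μ_nonneg hα hα4 c l x).trans ?_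
        rw [div_le_iff₀ (by norm_num)]
        linarith
    _ = (8 * r) ^ P.V := by rw [Finset.prod_const, Finset.card_range]

/-- crude upper bound -/
lemma T_big {x : E} {r : ℝ} (hr : 1 ≤ r) (hx : ∀ c : Fin 4, c ≠ 3 → P.μ * ‖x c‖ ≤ r) :
    P.T x ≤ 6400 * (8 * r) ^ (16 * P.V) + 1 + 3 * (r / P.ρ) ^ (2 * P.q) := by
  set Y : ℝ := (8 * r) ^ P.V * (8 * r) ^ P.V with hY
  have hY1 : 1 ≤ Y := by
    rw [hY]
    have : (1 : ℝ) ≤ (8 * r) ^ P.V := one_le_pow₀ (by linarith)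
    exact one_le_mul_of_one_le_of_one_le this this
  have hl : ‖P.lam x‖ ≤ Y := by
    unfold lam
    rw [norm_mul]
    exact mul_le_mul (P.FV_big (by norm_num) (by norm_num) hr (hx P.a P.ha))
      (P.FV_big (by norm_num) (by norm_num) hr (hx P.b P.hb)) (norm_nonneg _) (by positivity)
  have hQ : ‖P.QQ x‖ ≤ 80 * Y ^ 4 := by
    unfold QQ
    rw [norm_mul, norm_mul, norm_pow]
    have h5 : ‖(40 : ℂ)‖ = 40 := by simp
    rw [h5]
    have h6 : ‖P.lam x + (-1)‖ ≤ 2 * Y := by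
      calc ‖P.lam x + (-1)‖ ≤ ‖P.lam x‖ + ‖(-1 : ℂ)‖ := norm_add_le _ _
        _ ≤ 2 * Y := by rw [norm_neg, norm_one]; linarith
    have h7 : ‖P.lam x‖ ^ 3 ≤ Y ^ 3 := pow_le_pow_left₀ (norm_nonneg _) hl 3
    have h8 : ‖P.lam x‖ ^ 3 * ‖P.lam x + (-1)‖ ≤ Y ^ 3 * (2 * Y) :=
      mul_le_mul h7 h6 (norm_nonneg _) (by positivity)
    calc 40 * (‖P.lam x‖ ^ 3 * ‖P.lam x + (-1)‖) ≤ 40 * (Y ^ 3 * (2 * Y)) :=
          mul_le_mul_of_nonneg_left h8 (by norm_num)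
      _ = 80 * Y ^ 4 := by ring
  have hQ2 : ‖P.QQ x‖ ^ 2 ≤ 6400 * (8 * r) ^ (16 * P.V) := by
    calc ‖P.QQ x‖ ^ 2 ≤ (80 * Y ^ 4) ^ 2 := pow_le_pow_left₀ (norm_nonneg _) hQ 2
      _ = 6400 * (8 * r) ^ (16 * P.V) := by
          rw [hY]
          ring
  have hg : ∀ c : Fin 4, c ≠ 3 → ‖P.gy c x‖ ^ 2 ≤ (r / P.ρ) ^ (2 * P.q) := by
    intro c hc
    apply P.gy_le
    have : r / P.ρ * P.ρ = r := by
      have := P.ρ_pos.ne'
      field_simp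
    rw [this]
    exact hx c hc
  have g3 : (1 / 4 : ℝ) ^ P.q ≤ 1 := pow_le_one₀ (by norm_num) (by norm_num)
  unfold T
  have g0 := hg 0 (by decide)
  have g1 := hg 1 (by decide)
  have g2 := hg 2 (by decide)
  linarith

end Par

end Pool.Agent.Kob
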