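import Pool.Agent.Kob.Profile
import Pool.Agent.Kob.Kobayashi

set_option autoImplicit false

namespace Pool.Agent.Kob

open Filter Topology

/-! ### The parameters -/

/-- the slowly growing level -/
def lv (t : ℕ) : ℕ := 320 + Nat.log 2 (t + 1)

lemma lv_ge (t : ℕ) : 320 ≤ lv t := Nat.le_add_right _ _

lemma log_sub (t s : ℕ) : Nat.log 2 (t + s + 1) ≤ Nat.log 2 (t + 1) + Nat.log 2 (s + 1) := by
  set i := Nat.log 2 (t + 1) with hi
  set j := Nat.log 2 (s + 1) with hj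
  have h1 : t + 1 < 2 ^ (i + 1) := Nat.lt_pow_succ_log_self (by norm_num) _
  have h2 : s + 1 < 2 ^ (j + 1) := Nat.lt_pow_succ_log_self (by norm_num) _
  have h3 : t + s + 1 < 2 ^ (i + j + 1) := by
    have a1 : 1 ≤ 2 ^ i := Nat.one_le_two_pow
    have a2 : 1 ≤ 2 ^ j := Nat.one_le_two_pow
    obtain ⟨p, hp⟩ := Nat.exists_eq_add_of_le a1
    obtain ⟨r, hr⟩ := Nat.exists_eq_add_of_le a2
    have e1 : 2 ^ (i + 1) = 2 * 2 ^ i := by ring
    have e2 : 2 ^ (j + 1) = 2 * 2 ^ j := by ring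
    have e3 : 2 ^ (i + j + 1) = 2 * (2 ^ i * 2 ^ j) := by ring
    rw [e1] at h1
    rw [e2] at h2
    rw [e3]
    rw [hp] at h1 ⊢
    rw [hr] at h2 ⊢
    nlinarith [Nat.zero_le (p * r)]
  exact Nat.lt_succ_iff.1 (Nat.log_lt_of_lt_pow (by omega) h3)

lemma lv_add (t s : ℕ) : lv (t + s) ≤ lv t + Nat.log 2 (s + 1) := by
  unfold lv
  have := log_sub t s
  omega

lemma lv_mono {s t : ℕ} (h : s ≤ t) : lv s ≤ lv t := by
  unfold lv
  have := Nat.log_mono_right (b := 2) (by omega : s + 1 ≤ t + 1)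
  omega

lemma two_mul_le_pow (k : ℕ) : 2 * k ≤ 2 ^ k := by
  rcases k with _ | k
  · simp
  · have := Nat.lt_two_pow_self (n := k)
    rw [pow_succ]
    omega

lemma two_log_le (s : ℕ) : 2 * Nat.log 2 (s + 1) ≤ s + 1 :=
  (two_mul_le_pow _).trans (Nat.pow_log_le_self 2 (by omega))

lemma four_mul_le_pow (k : ℕ) : 4 * (k + 5) + 1 ≤ 2 ^ (k + 5) := by
  induction k with
  | zero => norm_num
  | succ k ih =>
    have e : 2 ^ (k + 1 + 5) = 2 * 2 ^ (k + 5) := by ring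
    rw [e]
    omega

lemma four_log_le {s : ℕ} (hs : 16 ≤ s) : 4 * Nat.log 2 (s + 1) ≤ s := by
  set k := Nat.log 2 (s + 1) with hk
  have h1 : 2 ^ k ≤ s + 1 := Nat.pow_log_le_self 2 (by omega)
  by_cases h : k ≤ 4
  · omega
  · obtain ⟨j, hj⟩ : ∃ j, k = j + 5 := ⟨k - 5, by omega⟩
    have := four_mul_le_pow j
    rw [hj] at h1 ⊢
    omega

lemma log_le_self' (s : ℕ) : Nat.log 2 (s + 1) ≤ s := by
  have h1 : 2 ^ Nat.log 2 (s + 1) ≤ s + 1 := Nat.pow_log_le_self 2 (by omega)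
  have h2 := Nat.lt_two_pow_self (n := Nat.log 2 (s + 1))
  omega

/-- the parameters -/
noncomputable def prm (t : ℕ) : Par where
  μ := 2 ^ t
  V := 3 * lv t
  q := lv t ^ 4
  W := 2 * lv t
  a := idx (t + 1)
  b := idx (t + 2)
  hμ := one_le_pow₀ (by norm_num)
  ha := idx_ne _
  hb := idx_ne _
  hV := by have := lv_ge t; omega
  hq := by
    have h := lv_ge t
    have e : lv t ^ 4 = lv t ^ 3 * lv t := by ring
    have h3 : 24 ≤ lv t ^ 3 := by
      calc 24 ≤ 320 ^ 3 := by norm_num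
        _ ≤ lv t ^ 3 := Nat.pow_le_pow_left h 3
    rw [e]
    nlinarith

/-- the weights -/
noncomputable def mm (t : ℕ) : ℝ := ∏ s ∈ Finset.range t, (1 / (lv s : ℝ))

lemma lv_pos (t : ℕ) : (0 : ℝ) < lv t := by
  have := lv_ge t
  have : 0 < lv t := by omega
  exact_mod_cast this

lemma lv_real (t : ℕ) : (320 : ℝ) ≤ lv t := by exact_mod_cast lv_ge t

lemma mm_pos (t : ℕ) : 0 < mm t := Finset.prod_pos fun s _ => by have := lv_pos s; positivity

lemma mm_succ (t : ℕ) : mm (t + 1) = mm t * (1 / (lv t : ℝ)) := by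
  unfold mm; rw [Finset.prod_range_succ]

lemma mm_add (t i : ℕ) : mm (t + i) ≤ mm t * (1 / (lv t : ℝ)) ^ i := by
  induction i with
  | zero => simp
  | succ i ih =>
    rw [← add_assoc, mm_succ, pow_succ, ← mul_assoc]
    apply mul_le_mul ih _ (by have := lv_pos (t + i); positivity)
      (by have := mm_pos t; have := lv_pos t; positivity)
    apply one_div_le_one_div_of_le (lv_pos t)
    exact_mod_cast lv_mono (Nat.le_add_right t i)

/-! ### Values of the profiles on the discs -/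

/-- the disc `D_t` -/
structure InD (t : ℕ) (x : E) : Prop where
  h1 : x (idx (t + 1)) = (1 / 2) ^ (t + 1)
  h2 : x (idx (t + 2)) = (1 / 2) ^ (t + 2)
  h0 : ‖x (idx t)‖ < (2 : ℝ) ^ (2 * lv t) * (1 / 2) ^ t

lemma InD.coord {t : ℕ} {x : E} (h : InD t x) {c : Fin 4} (hc : c ≠ 3) :
    ‖x c‖ ≤ (2 : ℝ) ^ (2 * lv t) * (1 / 2) ^ t := by
  have hnorm : ‖(1 / 2 : ℂ)‖ = 1 / 2 := by simp
  have h2 : (1 : ℝ) ≤ 2 ^ (2 * lv t) := one_le_pow₀ (by norm_num)
  have h3 : (0 : ℝ) < (1 / 2) ^ t := by positivity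
  rcases idx_cover t c with hc' | hc' | hc' | hc'
  · exact absurd hc' hc
  · rw [hc']; exact h.h0.le
  · rw [hc', h.h1, norm_pow, hnorm]
    calc (1 / 2 : ℝ) ^ (t + 1) ≤ (1 / 2) ^ t :=
          pow_le_pow_of_le_one (by norm_num) (by norm_num) (by omega)
      _ ≤ _ := by nlinarith
  · rw [hc', h.h2, norm_pow, hnorm]
    calc (1 / 2 : ℝ) ^ (t + 2) ≤ (1 / 2) ^ t :=
          pow_le_pow_of_le_one (by norm_num) (by norm_num) (by omega)
      _ ≤ _ := by nlinarith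

lemma two_half (t : ℕ) : (2 : ℝ) ^ t * (1 / 2) ^ t = 1 := by
  rw [← mul_pow]; norm_num

lemma two_half_c (t : ℕ) : (2 : ℂ) ^ t * (1 / 2) ^ t = 1 := by
  rw [← mul_pow]; norm_num

lemma prm_μ (t : ℕ) : (prm t).μ = 2 ^ t := rfl
lemma prm_V (t : ℕ) : (prm t).V = 3 * lv t := rfl
lemma prm_W (t : ℕ) : (prm t).W = 2 * lv t := rfl
lemma prm_q (t : ℕ) : (prm t).q = lv t ^ 4 := rfl
lemma prm_a (t : ℕ) : (prm t).a = idx (t + 1) := rfl
lemma prm_b (t : ℕ) : (prm t).b = idx (t + 2) := rfl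

lemma prm_μ_c (t : ℕ) : (((prm t).μ : ℝ) : ℂ) = 2 ^ t := by rw [prm_μ]; push_cast; rfl

/-- case A : the disc itself -/
lemma h_same {t : ℕ} {x : E} (h : InD t x) : (prm t).h x ≤ -((lv t : ℝ) ^ 4 - 1) := by
  have hl : (prm t).lam x = 1 := by
    unfold Par.lam
    rw [prm_a, prm_b, Par.FV_of_one, Par.FV_of_one, one_mul]
    · rw [prm_μ_c, h.h2]
      push_cast
      calc (4 : ℂ) * 2 ^ t * (1 / 2) ^ (t + 2) = 2 ^ t * (1 / 2) ^ t := by ring
        _ = 1 := two_half_c t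
    · rw [prm_μ_c, h.h1]
      push_cast
      calc (2 : ℂ) * 2 ^ t * (1 / 2) ^ (t + 1) = 2 ^ t * (1 / 2) ^ t := by ring
        _ = 1 := two_half_c t
  have := (prm t).h_good hl (fun c hc => by
    rw [prm_μ, prm_W]
    calc (2 : ℝ) ^ t * ‖x c‖ ≤ 2 ^ t * ((2 : ℝ) ^ (2 * lv t) * (1 / 2) ^ t) :=
          mul_le_mul_of_nonneg_left (h.coord hc) (by positivity)
      _ = 2 ^ (2 * lv t) * (2 ^ t * (1 / 2) ^ t) := by ring
      _ = 2 ^ (2 * lv t) := by rw [two_half, mul_one])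
  rw [prm_q] at this
  push_cast at this
  exact this

lemma scaled_coord {t s : ℕ} {x : E} (h : InD (t + s) x) {c : Fin 4} (hc : c ≠ 3) :
    (2 : ℝ) ^ t * ‖x c‖ ≤ 2 ^ (2 * lv (t + s)) * (1 / 2) ^ s := by
  calc (2 : ℝ) ^ t * ‖x c‖ ≤ 2 ^ t * ((2 : ℝ) ^ (2 * lv (t + s)) * (1 / 2) ^ (t + s)) :=
        mul_le_mul_of_nonneg_left (h.coord hc) (by positivity)
    _ = 2 ^ (2 * lv (t + s)) * (1 / 2) ^ s * (2 ^ t * (1 / 2) ^ t) := by rw [pow_add]; ring
    _ = 2 ^ (2 * lv (t + s)) * (1 / 2) ^ s := by rw [two_half, mul_one]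

lemma pow_half_le {k s m : ℕ} (h : k ≤ m + s) : (2 : ℝ) ^ k * (1 / 2) ^ s ≤ 2 ^ m := by
  calc (2 : ℝ) ^ k * (1 / 2) ^ s ≤ 2 ^ (m + s) * (1 / 2) ^ s :=
        mul_le_mul_of_nonneg_right (pow_le_pow_right₀ (by norm_num) h) (by positivity)
    _ = 2 ^ m * (2 ^ s * (1 / 2) ^ s) := by rw [pow_add]; ring
    _ = 2 ^ m := by rw [two_half, mul_one]

lemma e8_eq (l : ℕ) : ((e8 l : ℝ) : ℂ) = (1 / 2) ^ (3 * (l + 1)) := by
  unfold e8
  push_cast
  rw [pow_mul]
  norm_num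

lemma idx_congr {s t : ℕ} (h : s % 3 = t % 3) : idx s = idx t := by
  unfold idx
  congr 1

/-- cases B and C : all later discs but the next one -/
lemma h_later {t s : ℕ} (hs : 2 ≤ s) {x : E} (h : InD (t + s) x) : (prm t).h x = 0 := by
  by_cases hsV : s ≤ 3 * (3 * lv t) + 1
  · apply (prm t).h_vanish
    · -- some factor vanishes
      have hcases : (∃ l, s = 3 * l + 3) ∨ (∃ l, s = 3 * l + 4) ∨ (∃ l, s = 3 * l + 2) := by
        have : s % 3 = 0 ∨ s % 3 = 1 ∨ s % 3 = 2 := by omega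
        rcases this with h | h | h
        · left; exact ⟨s / 3 - 1, by omega⟩
        · right; left; exact ⟨s / 3 - 1, by omega⟩
        · right; right; exact ⟨s / 3, by omega⟩
      unfold Par.lam
      rcases hcases with ⟨l, hl⟩ | ⟨l, hl⟩ | ⟨l, hl⟩
      · rw [(prm t).lam_of_zero (α := 2) (l := l) (by rw [prm_V]; omega), zero_mul]
        rw [prm_μ_c, prm_a, idx_congr (by omega : (t + 1) % 3 = (t + s + 1) % 3), h.h1, e8_eq, hl]
        push_cast
        calc (2 : ℂ) * 2 ^ t * (1 / 2) ^ (t + (3 * l + 3) + 1)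
            = (1 / 2) ^ (3 * (l + 1)) * (2 ^ t * (1 / 2) ^ t) := by ring
          _ = _ := by rw [two_half_c, mul_one]
      · rw [(prm t).lam_of_zero (α := 4) (l := l) (by rw [prm_V]; omega), mul_zero]
        rw [prm_μ_c, prm_b, idx_congr (by omega : (t + 2) % 3 = (t + s + 1) % 3), h.h1, e8_eq, hl]
        push_cast
        calc (4 : ℂ) * 2 ^ t * (1 / 2) ^ (t + (3 * l + 4) + 1)
            = (1 / 2) ^ (3 * (l + 1)) * (2 ^ t * (1 / 2) ^ t) := by ring
          _ = _ := by rw [two_half_c, mul_one]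
      · rw [(prm t).lam_of_zero (α := 2) (l := l) (by rw [prm_V]; omega), zero_mul]
        rw [prm_μ_c, prm_a, idx_congr (by omega : (t + 1) % 3 = (t + s + 2) % 3), h.h2, e8_eq, hl]
        push_cast
        calc (2 : ℂ) * 2 ^ t * (1 / 2) ^ (t + (3 * l + 2) + 2)
            = (1 / 2) ^ (3 * (l + 1)) * (2 ^ t * (1 / 2) ^ t) := by ring
          _ = _ := by rw [two_half_c, mul_one]
    · intro c hc
      rw [prm_μ, prm_W]
      refine (scaled_coord h hc).trans (pow_half_le ?_)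
      have h1 := lv_add t s
      have h2 := two_log_le s
      omega
  · push Not at hsV
    apply (prm t).h_near
    intro c hc
    rw [prm_μ]
    refine (scaled_coord h hc).trans ?_
    have h1 := lv_add t s
    have h3 := lv_ge t
    have h4 := four_log_le (s := s) (by omega)
    have h5 : 2 * lv (t + s) + 3 ≤ s := by omega
    calc (2 : ℝ) ^ (2 * lv (t + s)) * (1 / 2) ^ s
        ≤ (2 : ℝ) ^ (2 * lv (t + s)) * (1 / 2) ^ (2 * lv (t + s) + 3) :=
          mul_le_mul_of_nonneg_left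
            (pow_le_pow_of_le_one (by norm_num) (by norm_num) h5) (by positivity)
      _ = (2 ^ (2 * lv (t + s)) * (1 / 2) ^ (2 * lv (t + s))) * (1 / 8) := by
          rw [pow_add]; ring
      _ = 1 / 8 := by rw [two_half, one_mul]

lemma log_two_pow_le (k : ℕ) : Real.log ((2 : ℝ) ^ k) ≤ k := by
  rw [Real.log_pow]
  have : Real.log 2 ≤ 1 := by
    have := Real.log_two_lt_d9
    linarith
  have hk : (0 : ℝ) ≤ k := by positivity
  nlinarith

/-- case D : the next disc -/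
lemma h_next {t : ℕ} {x : E} (h : InD (t + 1) x) : (prm t).h x ≤ 100 * (lv t : ℝ) ^ 2 := by
  have hn := lv_real t
  refine ((prm t).h_le x).trans (max_le ?_ (by positivity))
  have hb := (prm t).T_big (x := x) (r := 2 ^ (2 * lv t + 1)) (one_le_pow₀ (by norm_num))
    (fun c hc => by
      rw [prm_μ]
      refine (scaled_coord h hc).trans (pow_half_le ?_)
      have h1 := lv_add t 1
      have h2 : Nat.log 2 (1 + 1) = 1 := by
        rw [show (1 + 1 : ℕ) = 2 ^ 1 from rfl, Nat.log_pow (by norm_num)]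
      omega)
  have hT : (prm t).T x ≤ 2 ^ (13 + 16 * (3 * lv t) * (2 * lv t + 4)) := by
    refine hb.trans ?_
    rw [prm_V]
    have e1 : (8 * (2 : ℝ) ^ (2 * lv t + 1)) ^ (16 * (3 * lv t))
        = 2 ^ (16 * (3 * lv t) * (2 * lv t + 4)) := by
      rw [show (8 : ℝ) = 2 ^ 3 by norm_num, ← pow_add, ← pow_mul]
      congr 1
      ring
    have e2 : (2 : ℝ) ^ (2 * lv t + 1) / (prm t).ρ = 1 / 2 := by
      unfold Par.ρ
      rw [prm_W, pow_add, pow_add]
      have : (2 : ℝ) ^ (2 * lv t) ≠ 0 := by positivity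
      field_simp
    have e3 : (1 / 2 : ℝ) ^ (2 * (prm t).q) ≤ 1 := pow_le_one₀ (by norm_num) (by norm_num)
    have e4 : (1 : ℝ) ≤ 2 ^ (16 * (3 * lv t) * (2 * lv t + 4)) := one_le_pow₀ (by norm_num)
    rw [e1, e2, pow_add]
    have e5 : (2 : ℝ) ^ 13 = 8192 := by norm_num
    rw [e5]
    linarith
  have hlog := (Real.log_le_log ((prm t).T_pos x) hT).trans (log_two_pow_le _)
  refine hlog.trans ?_
  push_cast
  nlinarith

/-- case E : the earlier discs -/
lemma h_earlier {t i : ℕ} (hi : 1 ≤ i) {x : E} (h : InD t x) :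
    (prm (t + i)).h x ≤ 3 * (lv (t + i) : ℝ) ^ 4 * i := by
  set n := lv (t + i) with hn'
  have hn := lv_real (t + i)
  rw [← hn'] at hn
  have hi' : (1 : ℝ) ≤ i := by exact_mod_cast hi
  refine ((prm (t + i)).h_le x).trans (max_le ?_ (by positivity))
  have hb := (prm (t + i)).T_big (x := x) (r := 2 ^ (2 * n + i)) (one_le_pow₀ (by norm_num))
    (fun c hc => by
      rw [prm_μ]
      calc (2 : ℝ) ^ (t + i) * ‖x c‖ ≤ 2 ^ (t + i) * ((2 : ℝ) ^ (2 * lv t) * (1 / 2) ^ t) :=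
            mul_le_mul_of_nonneg_left (h.coord hc) (by positivity)
        _ = 2 ^ (2 * lv t + i) * (2 ^ t * (1 / 2) ^ t) := by rw [pow_add, pow_add]; ring
        _ = 2 ^ (2 * lv t + i) := by rw [two_half, mul_one]
        _ ≤ 2 ^ (2 * n + i) := pow_le_pow_right₀ (by norm_num) (by
            have := lv_mono (Nat.le_add_right t i)
            omega))
  have hT : (prm (t + i)).T x ≤ 2 ^ (13 + (16 * (3 * n) * (2 * n + i + 3) + 2 * n ^ 4 * i)) := by
    refine hb.trans ?_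
    rw [prm_V, ← hn']
    have e1 : (8 * (2 : ℝ) ^ (2 * n + i)) ^ (16 * (3 * n))
        = 2 ^ (16 * (3 * n) * (2 * n + i + 3)) := by
      rw [show (8 : ℝ) = 2 ^ 3 by norm_num, ← pow_add, ← pow_mul]
      congr 1
      ring
    have e2 : ((2 : ℝ) ^ (2 * n + i) / (prm (t + i)).ρ) ^ (2 * (prm (t + i)).q) ≤ 2 ^ (2 * n ^ 4 * i) := by
      have e21 : (2 : ℝ) ^ (2 * n + i) / (prm (t + i)).ρ ≤ 2 ^ i := by
        unfold Par.ρ
        rw [prm_W, ← hn', div_le_iff₀ (by positivity), ← pow_add]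
        exact pow_le_pow_right₀ (by norm_num) (by omega)
      calc ((2 : ℝ) ^ (2 * n + i) / (prm (t + i)).ρ) ^ (2 * (prm (t + i)).q)
          ≤ (2 ^ i) ^ (2 * (prm (t + i)).q) :=
            pow_le_pow_left₀ (by have := (prm (t + i)).ρ_pos; positivity) e21 _
        _ = 2 ^ (2 * n ^ 4 * i) := by
            rw [← pow_mul, prm_q, ← hn']
            congr 1
            ring
    have e3 : (1 : ℝ) ≤ 2 ^ (16 * (3 * n) * (2 * n + i + 3)) := one_le_pow₀ (by norm_num)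
    have e4 : (1 : ℝ) ≤ 2 ^ (2 * n ^ 4 * i) := one_le_pow₀ (by norm_num)
    rw [e1, pow_add 2 13, pow_add 2 (16 * (3 * n) * (2 * n + i + 3))]
    have e5 : (2 : ℝ) ^ 13 = 8192 := by norm_num
    rw [e5]
    set A : ℝ := 2 ^ (16 * (3 * n) * (2 * n + i + 3)) with hA
    set B : ℝ := 2 ^ (2 * n ^ 4 * i) with hB
    have hAB1 : A ≤ A * B := le_mul_of_one_le_right (by positivity) e4
    have hAB2 : B ≤ A * B := le_mul_of_one_le_left (by positivity) e3
    linarith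
  have hlog := (Real.log_le_log ((prm (t + i)).T_pos x) hT).trans (log_two_pow_le _)
  refine hlog.trans ?_
  push_cast
  -- 13 + 48 n (2n + i + 3) + 2 n^4 i ≤ 3 n^4 i
  set N : ℝ := (n : ℝ) with hN
  set I : ℝ := (i : ℝ) with hI
  have hN2 : 320 * N ≤ N ^ 2 := by nlinarith
  have hN3 : 320 * N ^ 2 ≤ N ^ 3 := by nlinarith [sq_nonneg N]
  have hN4 : 320 * N ^ 3 ≤ N ^ 4 := by nlinarith [pow_nonneg (by linarith : 0 ≤ N) 3]
  have key : 13 + 16 * (3 * N) * (2 * N + I + 3) ≤ N ^ 4 * I := by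
    have k1 : 13 + 96 * N ^ 2 + 144 * N ≤ N ^ 3 := by nlinarith
    have k2 : 48 * N ≤ N ^ 3 := by nlinarith
    have k3 : N ^ 3 ≤ N ^ 3 * I := by nlinarith [pow_nonneg (by linarith : 0 ≤ N) 3]
    have k4 : 48 * N * I ≤ N ^ 3 * I := mul_le_mul_of_nonneg_right k2 (by linarith)
    have k5 : 2 * N ^ 3 * I ≤ N ^ 4 * I := by
      apply mul_le_mul_of_nonneg_right _ (by linarith)
      nlinarith [pow_nonneg (by linarith : 0 ≤ N) 3]
    nlinarith
  nlinarith

/-! ### Size of the derivatives -/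

lemma Gam_exp (P : Par) : P.Gam ≤ 2 ^ (14 + 40 * P.V + 2 * P.q * (P.W + 6)) := by
  have h25 : (5 : ℝ) ^ P.V * 5 ^ P.V ≤ 2 ^ (5 * P.V) := by
    rw [← mul_pow, pow_mul]
    exact pow_le_pow_left₀ (by norm_num) (by norm_num) _
  have h1 : (1 : ℝ) ≤ 2 ^ (5 * P.V) := one_le_pow₀ (by norm_num)
  set Y : ℝ := 2 ^ (5 * P.V) with hY
  have hA : P.AT ≤ 2 ^ (14 + 40 * P.V) := by
    unfold Par.AT
    have a1 : ((5 : ℝ) ^ P.V * 5 ^ P.V) ^ 6 ≤ Y ^ 6 := pow_le_pow_left₀ (by positivity) h25 6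
    have a2 : ((5 : ℝ) ^ P.V * 5 ^ P.V + 1) ^ 2 ≤ (2 * Y) ^ 2 :=
      pow_le_pow_left₀ (by positivity) (by linarith) 2
    have a3 : 1600 * ((5 : ℝ) ^ P.V * 5 ^ P.V) ^ 6 * ((5 : ℝ) ^ P.V * 5 ^ P.V + 1) ^ 2
        ≤ 1600 * Y ^ 6 * (2 * Y) ^ 2 :=
      mul_le_mul (mul_le_mul_of_nonneg_left a1 (by norm_num)) a2 (by positivity) (by positivity)
    have a4 : (1 : ℝ) ≤ Y ^ 8 := one_le_pow₀ h1
    have a5 : (2 : ℝ) ^ (14 + 40 * P.V) = 16384 * Y ^ 8 := by
      have e : 14 + 40 * P.V = 14 + 5 * P.V * 8 := by ring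
      rw [hY, ← pow_mul, e, pow_add]
      norm_num
    rw [a5]
    nlinarith
  have hρ : (4 * P.ρ) ^ (2 * P.q) = 2 ^ (2 * P.q * (P.W + 4)) := by
    unfold Par.ρ
    rw [show (4 : ℝ) = 2 ^ 2 by norm_num, ← pow_add, ← pow_mul]
    congr 1
    ring
  have h4 : (4 : ℝ) ^ P.q = 2 ^ (2 * P.q) := by
    rw [pow_mul]; norm_num
  have hq : (2 * P.q : ℝ) ≤ 2 ^ (2 * P.q) := by
    have := (Nat.lt_two_pow_self (n := 2 * P.q)).le
    exact_mod_cast this
  unfold Par.Gam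
  rw [hρ, h4]
  calc P.AT * 2 ^ (2 * P.q * (P.W + 4)) * 2 ^ (2 * P.q) * (2 * P.q)
      ≤ 2 ^ (14 + 40 * P.V) * 2 ^ (2 * P.q * (P.W + 4)) * 2 ^ (2 * P.q) * 2 ^ (2 * P.q) := by
        apply mul_le_mul _ hq (by positivity) (by positivity)
        apply mul_le_mul_of_nonneg_right _ (by positivity)
        exact mul_le_mul_of_nonneg_right hA (by positivity)
    _ = _ := by
        rw [← pow_add, ← pow_add, ← pow_add]
        congr 1
        ring

lemma pow5 (k : ℕ) : (320 + k) ^ 5 ≤ 320 ^ 5 * 2 ^ k := by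
  induction k with
  | zero => norm_num
  | succ k ih =>
    have h : (320 + (k + 1)) ^ 5 ≤ 2 * (320 + k) ^ 5 := by
      set a := 320 + k with ha
      have h320 : 320 ≤ a := by omega
      have e : 320 + (k + 1) = a + 1 := by omega
      rw [e]
      have e2 : (a + 1) ^ 5 = a ^ 5 + 5 * a ^ 4 + 10 * a ^ 3 + 10 * a ^ 2 + 5 * a + 1 := by ring
      rw [e2]
      have b1 : 320 * a ≤ a ^ 2 := by nlinarith
      have b2 : 320 * a ^ 2 ≤ a ^ 3 := by nlinarith [sq_nonneg a]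
      have b3 : 320 * a ^ 3 ≤ a ^ 4 := by nlinarith [Nat.zero_le (a ^ 3)]
      have b4 : 320 * a ^ 4 ≤ a ^ 5 := by nlinarith [Nat.zero_le (a ^ 4)]
      nlinarith
    calc (320 + (k + 1)) ^ 5 ≤ 2 * (320 + k) ^ 5 := h
      _ ≤ 2 * (320 ^ 5 * 2 ^ k) := Nat.mul_le_mul_left 2 ih
      _ = 320 ^ 5 * 2 ^ (k + 1) := by ring

/-- exponent constant -/
def C0 : ℕ := 6 * 320 ^ 5

lemma exp_le (t : ℕ) :
    14 + 40 * (3 * lv t) + 2 * lv t ^ 4 * (2 * lv t + 6) ≤ C0 * (t + 1) := by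
  have h1 : lv t ^ 5 ≤ 320 ^ 5 * (t + 1) := by
    calc lv t ^ 5 ≤ 320 ^ 5 * 2 ^ (Nat.log 2 (t + 1)) := pow5 _
      _ ≤ 320 ^ 5 * (t + 1) := Nat.mul_le_mul_left _ (Nat.pow_log_le_self 2 (by omega))
  have h2 : 14 + 40 * (3 * lv t) + 2 * lv t ^ 4 * (2 * lv t + 6) ≤ 6 * lv t ^ 5 := by
    have h := lv_ge t
    set a := lv t with ha
    have b1 : 320 * a ≤ a ^ 2 := by nlinarith
    have b2 : 320 * a ^ 2 ≤ a ^ 3 := by nlinarith [sq_nonneg a]
    have b3 : 320 * a ^ 3 ≤ a ^ 4 := by nlinarith [Nat.zero_le (a ^ 3)]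
    have b4 : 320 * a ^ 4 ≤ a ^ 5 := by nlinarith [Nat.zero_le (a ^ 4)]
    nlinarith
  unfold C0
  calc _ ≤ 6 * lv t ^ 5 := h2
    _ ≤ 6 * (320 ^ 5 * (t + 1)) := Nat.mul_le_mul_left 6 h1
    _ = _ := by ring

lemma Gam_le (t : ℕ) : (prm t).Gam ≤ 2 ^ (C0 * (t + 1)) := by
  refine (Gam_exp (prm t)).trans (pow_le_pow_right₀ (by norm_num) ?_)
  rw [prm_V, prm_q, prm_W]
  exact exp_le t

lemma lv_tendsto : Tendsto (fun t => (lv t : ℝ)) atTop atTop := by
  apply tendsto_natCast_atTop_atTop.comp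
  rw [tendsto_atTop]
  intro b
  filter_upwards [eventually_ge_atTop (2 ^ b)] with t ht
  unfold lv
  have : b ≤ Nat.log 2 (t + 1) := by
    apply Nat.le_log_of_pow_le (by norm_num)
    omega
  omega

/-- summability of the derivative bounds -/
lemma summable_bound (k : ℕ) : Summable fun t => mm t * ((prm t).Gam * (prm t).μ) ^ k := by
  have hA : Summable fun t => mm t * ((2 : ℝ) ^ (C0 * (t + 1)) * 2 ^ t) ^ k := by
    apply summable_of_ratio_test_tendsto_lt_one (l := 0) (by norm_num)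
    · filter_upwards with t
      have := mm_pos t
      positivity
    · have e : (fun t => ‖mm (t + 1) * ((2 : ℝ) ^ (C0 * (t + 1 + 1)) * 2 ^ (t + 1)) ^ k‖
          / ‖mm t * ((2 : ℝ) ^ (C0 * (t + 1)) * 2 ^ t) ^ k‖)
          = fun t => ((2 : ℝ) ^ (C0 + 1)) ^ k * (lv t : ℝ)⁻¹ := by
        funext t
        have h1 := mm_pos t
        have h2 := lv_pos t
        have h3 := mm_pos (t + 1)
        rw [Real.norm_of_nonneg (by positivity), Real.norm_of_nonneg (by positivity), mm_succ]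
        have e2 : (2 : ℝ) ^ (C0 * (t + 1 + 1)) * 2 ^ (t + 1)
            = 2 ^ (C0 + 1) * (2 ^ (C0 * (t + 1)) * 2 ^ t) := by
          rw [← pow_add, ← pow_add, ← pow_add]
          congr 1
          ring
        rw [e2, mul_pow]
        have h4 : ((2 : ℝ) ^ (C0 * (t + 1)) * 2 ^ t) ^ k ≠ 0 := by positivity
        field_simp
      rw [e]
      have := lv_tendsto.inv_tendsto_atTop.const_mul (((2 : ℝ) ^ (C0 + 1)) ^ k)
      simpa using this
  refine Summable.of_nonneg_of_le (fun t => ?_) (fun t => ?_) hA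
  · have h1 := mm_pos t
    have h2 := (prm t).μ_nonneg
    have h3 := zero_le_one.trans (prm t).one_le_Gam
    positivity
  · apply mul_le_mul_of_nonneg_left _ (mm_pos t).le
    have h2 := (prm t).μ_nonneg
    have h3 := zero_le_one.trans (prm t).one_le_Gam
    apply pow_le_pow_left₀ (by positivity)
    rw [prm_μ]
    exact mul_le_mul_of_nonneg_right (Gam_le t) (by positivity)

end Pool.Agent.Kob
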